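import Pool.Agent.Helper691.NS.Defs

set_option autoImplicit false
open Filter Topology

namespace Pool.Agent.Helper691.NS

theorem ab_alg_one {X : Type} [Group X] {p : ℕ} (g : X → ZMod p)
    (hg : ∀ x y, g (x * y) = g x + g y) : g 1 = 0 := by
  have h := hg 1 1
  rw [mul_one] at h
  exact left_eq_add.1 h

theorem ab_alg_pow {X : Type} [Group X] {p : ℕ} (g : X → ZMod p)
    (hg : ∀ x y, g (x * y) = g x + g y) (x : X) : ∀ m : ℕ, g (x ^ m) = (m : ZMod p) * g x
  | 0 => by rw [pow_zero, ab_alg_one g hg, Nat.cast_zero, zero_mul]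
  | m + 1 => by
    rw [pow_succ, hg, ab_alg_pow g hg x m]
    push_cast
    ring

theorem ab_alg {X : Type} [Group X] (p : ℕ) [Fact p.Prime] (V : Submodule (ZMod p) (X → ZMod p))
    (hV : ∀ g ∈ V, ∀ x y, g (x * y) = g x + g y) (hc : Countable V) (hi : Infinite V) :
    ∃ χ : ℕ → X → ZMod p, (∀ n, χ n ∈ V) ∧
      (∀ (k : ℕ) (v : ℕ → ZMod p), ∃ x, ∀ n < k, χ n x = v n) ∧
      ∀ g ∈ V, ∀ x, (∀ n, χ n x = 0) → g x = 0 := by
  classical
  let b := Module.Basis.ofVectorSpace (ZMod p) V
  have hcι : Countable (Module.Basis.ofVectorSpaceIndex (ZMod p) V) := b.injective.countable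
  have hiι : Infinite (Module.Basis.ofVectorSpaceIndex (ZMod p) V) := by
    by_contra hfin
    rw [not_infinite_iff_finite] at hfin
    cases nonempty_fintype (Module.Basis.ofVectorSpaceIndex (ZMod p) V)
    have h1 : Finite V := Finite.of_equiv _ b.equivFun.symm.toEquiv
    exact not_finite V
  obtain ⟨hden⟩ := nonempty_denumerable (Module.Basis.ofVectorSpaceIndex (ZMod p) V)
  let b' : Module.Basis ℕ (ZMod p) V := b.reindex (Denumerable.eqv _)
  refine ⟨fun n => (b' n : X → ZMod p), fun n => (b' n).2, ?_, ?_⟩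
  · intro k v
    have hadd : ∀ n x y, (b' n : X → ZMod p) (x * y) = (b' n : X → ZMod p) x +
        (b' n : X → ZMod p) y := fun n => hV _ (b' n).2
    let W : Submodule (ZMod p) (Fin k → ZMod p) :=
      { carrier := {w | ∃ x : X, w = fun n : Fin k => (b' n : X → ZMod p) x}
        add_mem' := by
          rintro _ _ ⟨x, rfl⟩ ⟨y, rfl⟩
          exact ⟨x * y, by ext n; rw [Pi.add_apply, hadd]⟩
        zero_mem' := ⟨1, by
          ext n
          rw [Pi.zero_apply, ab_alg_one _ (hadd n)]⟩
        smul_mem' := by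
          rintro c _ ⟨x, rfl⟩
          refine ⟨x ^ c.val, ?_⟩
          ext n
          rw [Pi.smul_apply, smul_eq_mul, ab_alg_pow _ (hadd n), ZMod.natCast_zmod_val] }
    have hW : W = ⊤ := by
      by_contra hne
      obtain ⟨f, hf0, hfW⟩ := Submodule.exists_le_ker_of_lt_top W (lt_top_iff_ne_top.2 hne)
      apply hf0
      have hrep : ∀ w : Fin k → ZMod p, f w = ∑ n, f (Pi.single n 1) * w n := by
        intro w
        have h1 : w = ∑ n, w n • (Pi.single n (1 : ZMod p) : Fin k → ZMod p) := by
          ext j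
          simp [Finset.sum_apply, Pi.single_apply]
        conv_lhs => rw [h1]
        rw [map_sum]
        refine Finset.sum_congr rfl fun n _ => ?_
        rw [map_smul, smul_eq_mul, mul_comm]
      have hzero : ∑ n : Fin k, f (Pi.single n 1) • b' n = 0 := by
        apply Subtype.ext
        funext x
        have h2 : f (fun n : Fin k => (b' n : X → ZMod p) x) = 0 := hfW ⟨x, rfl⟩
        rw [hrep] at h2
        rw [AddSubmonoidClass.coe_finsetSum, Finset.sum_apply]
        exact h2
      have hli : LinearIndependent (ZMod p) (fun n : Fin k => b' n) :=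
        b'.linearIndependent.comp (fun n : Fin k => (n : ℕ)) Fin.val_injective
      have h3 := Fintype.linearIndependent_iff.1 hli _ hzero
      ext n
      rw [LinearMap.comp_apply, LinearMap.single_apply, h3 n]
      simp
    have hv : (fun n : Fin k => v n) ∈ W := by rw [hW]; exact Submodule.mem_top
    obtain ⟨x, hx⟩ := hv
    exact ⟨x, fun n hn => (congrFun hx ⟨n, hn⟩).symm⟩
  · intro g hg x hx
    have h1 : (LinearMap.proj x : (X → ZMod p) →ₗ[ZMod p] ZMod p).comp V.subtype = 0 :=
      b'.ext fun n => hx n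
    have h2 := LinearMap.congr_fun h1 ⟨g, hg⟩
    exact h2

end Pool.Agent.Helper691.NS
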