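import Pool.Agent.Helper691.NS.Defs

set_option autoImplicit false
open Filter Topology

namespace Pool.Agent.Helper691.NS

theorem hom_countable {X : Type} [Group X] [TopologicalSpace X] [IsTopologicalGroup X] [CompactSpace X]
    [T2Space X] [TotallyDisconnectedSpace X] (p : ℕ) [Fact p.Prime] (hCB : CB X) :
    {g : X →* Multiplicative (ZMod p) | OK g}.Countable := by
  obtain ⟨u, hu, huV⟩ := hCB
  have hfin : ∀ n, {g : X →* Multiplicative (ZMod p) | u n ≤ g.ker}.Finite := by
    intro n
    have h1 : Finite (X ⧸ u n) := Subgroup.quotient_finite_of_isOpen (u n) (hu n).2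
    have h2 : NeZero p := ⟨(Fact.out : p.Prime).ne_zero⟩
    have h3 : Finite (Multiplicative (ZMod p)) := inferInstanceAs (Finite (ZMod p))
    refine Set.Finite.of_injOn (f := fun (g : X →* Multiplicative (ZMod p)) (q : X ⧸ u n) =>
      g q.out) (t := Set.univ) (fun _ _ => Set.mem_univ _) ?_ Set.finite_univ
    intro g hg g' hg' hgg
    ext x
    have hx : x⁻¹ * (QuotientGroup.mk x : X ⧸ u n).out ∈ u n := by
      rw [← QuotientGroup.eq]
      exact (Quotient.out_eq' _).symm
    have h4 : ∀ k : X →* Multiplicative (ZMod p), u n ≤ k.ker →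
        k x = k (QuotientGroup.mk x : X ⧸ u n).out := by
      intro k hk
      have h5 := hk hx
      rw [MonoidHom.mem_ker, map_mul, map_inv] at h5
      exact inv_mul_eq_one.1 h5
    rw [h4 g hg, h4 g' hg']
    exact congrFun hgg _
  refine (Set.countable_iUnion fun n => (hfin n).countable).mono ?_
  intro g hg
  obtain ⟨n, hn⟩ := huV g.ker (MonoidHom.normal_ker g) hg
  exact Set.mem_iUnion.2 ⟨n, hn⟩

end Pool.Agent.Helper691.NS
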