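import Pool.Agent.Helper691.NS.Defs

set_option autoImplicit false
open Filter Topology

namespace Pool.Agent.Helper691.NS

theorem hom_infinite_sep0 (p : ℕ) [Fact p.Prime] {V : Type} [AddCommGroup V] [Module (ZMod p) V]
    (a : V) (ha : a ≠ 0) : ∃ h : V →+ ZMod p, h a ≠ 0 := by
  by_contra hc
  push Not at hc
  apply ha
  apply (Module.forall_dual_apply_eq_zero_iff (ZMod p) a).1
  intro φ
  exact hc φ.toAddMonoidHom
theorem hom_infinite_sep (p : ℕ) [Fact p.Prime] {A : Type} [CommGroup A]
    (hA : ∀ a : A, a ^ p = 1) (a : A) (ha : a ≠ 1) :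
    ∃ h : A →* Multiplicative (ZMod p), h a ≠ 1 := by
  have m : Module (ZMod p) (Additive A) := AddCommGroup.zmodModule (n := p) (G := Additive A) (by
    intro x
    have := hA x.toMul
    apply Additive.toMul.injective
    simpa using this)
  obtain ⟨h, hh⟩ := hom_infinite_sep0 p (Additive.ofMul a) (by intro h; exact ha (Additive.ofMul.injective h))
  refine ⟨{ toFun := fun a => Multiplicative.ofAdd (h (Additive.ofMul a)), map_one' := by simp, map_mul' := by intro x y; simp [ofMul_mul, ofAdd_add] }, ?_⟩
  intro h1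
  exact hh (Multiplicative.ofAdd.injective h1)

theorem hom_infinite {X : Type} [Group X] [TopologicalSpace X] [IsTopologicalGroup X]
    (p : ℕ) [Fact p.Prime] (hB : Big p X) :
    {g : X →* Multiplicative (ZMod p) | OK g}.Infinite := by
  intro hfin
  have : Finite {g : X →* Multiplicative (ZMod p) | OK g} := hfin
  obtain ⟨A, _, _, ψ, hA, hcard, hs, hok⟩ := hB
    (p ^ Nat.card {g : X →* Multiplicative (ZMod p) | OK g} + 1)
  have : NeZero p := ⟨(Fact.out : p.Prime).ne_zero⟩
  let F : (A →* Multiplicative (ZMod p)) → {g : X →* Multiplicative (ZMod p) | OK g} :=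
    fun h => ⟨h.comp ψ, by
      change IsOpen ((h.comp ψ).ker : Set X)
      apply Subgroup.isOpen_mono (H₁ := ψ.ker) _ hok
      intro x hx
      rw [MonoidHom.mem_ker] at hx ⊢
      rw [MonoidHom.comp_apply, hx, map_one]⟩
  have hF : Function.Injective F := by
    intro h1 h2 h12
    have h3 : h1.comp ψ = h2.comp ψ := congrArg Subtype.val h12
    exact (MonoidHom.cancel_right hs).1 h3
  have : Finite (A →* Multiplicative (ZMod p)) := Finite.of_injective F hF
  have hc1 : Nat.card (A →* Multiplicative (ZMod p)) ≤
      Nat.card {g : X →* Multiplicative (ZMod p) | OK g} := Nat.card_le_card_of_injective F hF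
  let E : A → ((A →* Multiplicative (ZMod p)) → ZMod p) := fun a h => (h a).toAdd
  have hE : Function.Injective E := by
    intro a b hab
    by_contra hne
    obtain ⟨h, hh⟩ := hom_infinite_sep p hA (a * b⁻¹) (by
      intro h0
      exact hne (mul_inv_eq_one.1 h0))
    apply hh
    have h1 : h a = h b := Multiplicative.toAdd.injective (congrFun hab h)
    rw [map_mul, map_inv, h1, mul_inv_cancel]
  have : Finite (ZMod p) := inferInstance
  have hc2 : Nat.card A ≤ Nat.card ((A →* Multiplicative (ZMod p)) → ZMod p) :=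
    Nat.card_le_card_of_injective E hE
  rw [Nat.card_fun, Nat.card_zmod] at hc2
  have hp : 1 ≤ p := (Fact.out : p.Prime).one_lt.le
  have hc3 := Nat.pow_le_pow_right hp hc1
  omega

end Pool.Agent.Helper691.NS
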