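import Pool.Agent.Helper691.NS.Defs
import Pool.Agent.Helper691.NS.Hom_countable
import Pool.Agent.Helper691.NS.Hom_infinite
import Pool.Agent.Helper691.NS.Ab_alg

set_option autoImplicit false
open Filter Topology

namespace Pool.Agent.Helper691.NS

/-- the submodule of the continuous homomorphisms, written additively -/
def ab_basis_V (X : Type) [Group X] [TopologicalSpace X] [IsTopologicalGroup X] (p : ℕ)
    [Fact p.Prime] : Submodule (ZMod p) (X → ZMod p) where
  carrier := {f | ∃ g : X →* Multiplicative (ZMod p), OK g ∧ f = fun x => Multiplicative.toAdd (g x)}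
  zero_mem' := by
    refine ⟨1, ?_, ?_⟩
    · unfold OK
      rw [MonoidHom.ker_one]
      exact isOpen_univ
    · ext x
      rfl
  add_mem' := by
    intro f f' hf hf'
    obtain ⟨g, hg, hf⟩ := hf
    obtain ⟨g', hg', hf'⟩ := hf'
    refine ⟨g * g', ?_, ?_⟩
    · unfold OK at hg hg' ⊢
      have h1 : IsOpen ((g.ker ⊓ g'.ker : Subgroup X) : Set X) := by
        rw [Subgroup.coe_inf]
        exact hg.inter hg'
      refine Subgroup.isOpen_mono ?_ h1
      intro x hx
      rw [Subgroup.mem_inf, MonoidHom.mem_ker, MonoidHom.mem_ker] at hx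
      rw [MonoidHom.mem_ker, MonoidHom.mul_apply, hx.1, hx.2, one_mul]
    · rw [hf, hf']
      ext x
      rfl
  smul_mem' := by
    intro c f hf
    obtain ⟨g, hg, hf⟩ := hf
    refine ⟨g ^ c.val, ?_, ?_⟩
    · unfold OK at hg ⊢
      refine Subgroup.isOpen_mono ?_ hg
      intro x hx
      rw [MonoidHom.mem_ker] at hx
      rw [MonoidHom.mem_ker, MonoidHom.pow_apply, hx, one_pow]
    · rw [hf]
      ext x
      rw [MonoidHom.pow_apply, toAdd_pow, Pi.smul_apply, smul_eq_mul, nsmul_eq_mul,
        ZMod.natCast_zmod_val]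

theorem ab_basis_coe (X : Type) [Group X] [TopologicalSpace X] [IsTopologicalGroup X] (p : ℕ)
    [Fact p.Prime] : ((ab_basis_V X p : Submodule (ZMod p) (X → ZMod p)) : Set (X → ZMod p)) =
      (fun (g : X →* Multiplicative (ZMod p)) (x : X) => Multiplicative.toAdd (g x)) ''
        {g : X →* Multiplicative (ZMod p) | OK g} := by
  ext f
  constructor
  · rintro ⟨g, hg, hf⟩
    exact ⟨g, hg, hf.symm⟩
  · rintro ⟨g, hg, hf⟩
    exact ⟨g, hg, hf.symm⟩

theorem ab_basis {X : Type} [Group X] [TopologicalSpace X] [IsTopologicalGroup X] [CompactSpace X]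
    [T2Space X] [TotallyDisconnectedSpace X] (p : ℕ) [Fact p.Prime] (hCB : CB X) (hB : Big p X) :
    ∃ χ : ℕ → (X →* Multiplicative (ZMod p)), (∀ n, OK (χ n)) ∧
      (∀ (k : ℕ) (v : ℕ → Multiplicative (ZMod p)), ∃ x, ∀ n < k, χ n x = v n) ∧
      ∀ g : X →* Multiplicative (ZMod p), OK g → ∀ x, (∀ n, χ n x = 1) → g x = 1 := by
  have hinj : Function.Injective
      (fun (g : X →* Multiplicative (ZMod p)) (x : X) => Multiplicative.toAdd (g x)) := by
    intro g g' h
    ext x
    exact congrFun h x
  have hc : Countable (ab_basis_V X p) := by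
    have h1 : ((ab_basis_V X p : Submodule (ZMod p) (X → ZMod p)) : Set (X → ZMod p)).Countable := by
      rw [ab_basis_coe]
      exact (hom_countable p hCB).image _
    exact h1.to_subtype
  have hi : Infinite (ab_basis_V X p) := by
    have h1 : ((ab_basis_V X p : Submodule (ZMod p) (X → ZMod p)) : Set (X → ZMod p)).Infinite := by
      rw [ab_basis_coe]
      exact (hom_infinite p hB).image hinj.injOn
    exact h1.to_subtype
  obtain ⟨χ, h1, h2, h3⟩ := ab_alg p (ab_basis_V X p) (fun f hf x y => by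
    obtain ⟨g, -, hg⟩ := hf
    rw [hg]
    show Multiplicative.toAdd (g (x * y)) = _
    rw [map_mul, toAdd_mul]) hc hi
  choose g hg hχ using h1
  refine ⟨g, hg, ?_, ?_⟩
  · intro k v
    obtain ⟨x, hx⟩ := h2 k (fun n => Multiplicative.toAdd (v n))
    refine ⟨x, fun n hn => ?_⟩
    have h4 := hx n hn
    rw [hχ n] at h4
    exact Multiplicative.toAdd.injective h4
  · intro f hf x hx
    have h4 := h3 (fun x => Multiplicative.toAdd (f x)) ⟨f, hf, rfl⟩ x (fun n => by
      rw [hχ n]
      show Multiplicative.toAdd (g n x) = 0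
      rw [hx n, toAdd_one])
    exact Multiplicative.toAdd.injective h4

end Pool.Agent.Helper691.NS
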