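import Pool.Agent.Helper691.NS.Defs

set_option autoImplicit false
open Filter Topology

namespace Pool.Agent.Helper691.NS

/-- membership predicate on the group algebra -/
def wreath_aug_P (p : ℕ) (H : Type) [CommGroup H]
    (W : Subgroup (RegularWreathProduct (Multiplicative (ZMod p)) H))
    (F : MonoidAlgebra (ZMod p) H) : Prop :=
  (⟨fun x => Multiplicative.ofAdd (F.coeff x), 1⟩ :
    RegularWreathProduct (Multiplicative (ZMod p)) H) ∈ W

theorem wreath_aug_add (p : ℕ) (H : Type) [CommGroup H]
    (W : Subgroup (RegularWreathProduct (Multiplicative (ZMod p)) H))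
    (F G : MonoidAlgebra (ZMod p) H) (hF : wreath_aug_P p H W F) (hG : wreath_aug_P p H W G) :
    wreath_aug_P p H W (F + G) := by
  have h := W.mul_mem hF hG
  unfold wreath_aug_P
  convert h using 1
  apply RegularWreathProduct.ext
  · funext x
    simp [RegularWreathProduct.mul_left]
  · simp [RegularWreathProduct.mul_right]

theorem wreath_aug_zero (p : ℕ) (H : Type) [CommGroup H]
    (W : Subgroup (RegularWreathProduct (Multiplicative (ZMod p)) H)) :
    wreath_aug_P p H W 0 := by
  have h := W.one_mem
  unfold wreath_aug_P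
  convert h using 1
  apply RegularWreathProduct.ext
  · funext x
    simp
  · simp

theorem wreath_aug_nsmul (p : ℕ) (H : Type) [CommGroup H]
    (W : Subgroup (RegularWreathProduct (Multiplicative (ZMod p)) H))
    (F : MonoidAlgebra (ZMod p) H) (hF : wreath_aug_P p H W F) (n : ℕ) :
    wreath_aug_P p H W (n • F) := by
  induction n with
  | zero => rw [zero_smul]; exact wreath_aug_zero p H W
  | succ n ih => rw [succ_nsmul]; exact wreath_aug_add p H W _ _ ih hF

theorem wreath_aug_tr (p : ℕ) (H : Type) [CommGroup H]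
    (W : Subgroup (RegularWreathProduct (Multiplicative (ZMod p)) H)) (hW : W.Normal)
    (F : MonoidAlgebra (ZMod p) H) (hF : wreath_aug_P p H W F) (h : H) :
    wreath_aug_P p H W (MonoidAlgebra.single h 1 * F) := by
  have h1 := hW.conj_mem _ hF (⟨1, h⟩ : RegularWreathProduct (Multiplicative (ZMod p)) H)
  unfold wreath_aug_P
  convert h1 using 1
  apply RegularWreathProduct.ext
  · funext x
    simp [RegularWreathProduct.mul_left, RegularWreathProduct.inv_left,
      MonoidAlgebra.coeff_single_mul_apply]
  · simp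

theorem wreath_aug_mul (p : ℕ) [Fact p.Prime] (H : Type) [CommGroup H]
    (W : Subgroup (RegularWreathProduct (Multiplicative (ZMod p)) H)) (hW : W.Normal)
    (F : MonoidAlgebra (ZMod p) H) (hF : wreath_aug_P p H W F) (G : MonoidAlgebra (ZMod p) H) :
    wreath_aug_P p H W (G * F) := by
  induction G using MonoidAlgebra.induction_linear with
  | zero => rw [zero_mul]; exact wreath_aug_zero p H W
  | add a b ha hb => rw [add_mul]; exact wreath_aug_add p H W _ _ ha hb
  | single h c =>
    have h1 : (MonoidAlgebra.single h c : MonoidAlgebra (ZMod p) H) =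
        c.val • MonoidAlgebra.single h 1 := by
      rw [MonoidAlgebra.smul_single, nsmul_eq_mul, mul_one, ZMod.natCast_zmod_val]
    rw [h1, smul_mul_assoc]
    exact wreath_aug_nsmul p H W _ (wreath_aug_tr p H W hW F hF h) _

theorem wreath_aug (p : ℕ) [Fact p.Prime] (H : Type) [CommGroup H] [Fintype H]
    (hH : ∀ h : H, h ^ p = 1) (W : Subgroup (RegularWreathProduct (Multiplicative (ZMod p)) H))
    (hW : W.Normal) (hr : ∀ w ∈ W, w.right = 1) (hs : ∃ w ∈ W, ∏ x, w.left x ≠ 1)
    (f : H → Multiplicative (ZMod p)) :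
    (⟨f, 1⟩ : RegularWreathProduct (Multiplicative (ZMod p)) H) ∈ W := by
  classical
  obtain ⟨w, hw, hprod⟩ := hs
  let toA : (H → ZMod p) → MonoidAlgebra (ZMod p) H := fun g =>
    ∑ x, MonoidAlgebra.single x (g x)
  have htoA : ∀ g x, (toA g).coeff x = g x := by
    intro g x
    simp only [toA]
    rw [MonoidAlgebra.coeff_sum, Finsupp.finsetSum_apply]
    simp [Finsupp.single_apply]
  let F0 := toA fun x => (w.left x).toAdd
  have hF0 : wreath_aug_P p H W F0 := by
    unfold wreath_aug_P
    convert hw using 1
    apply RegularWreathProduct.ext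
    · funext x
      change Multiplicative.ofAdd (F0.coeff x) = w.left x
      simp only [F0]
      rw [htoA]
      simp
    · exact (hr w hw).symm
  set a : ZMod p := ∑ x, (w.left x).toAdd with ha
  have ha0 : a ≠ 0 := by
    intro h0
    apply hprod
    have : (∏ x, w.left x).toAdd = 0 := by rw [toAdd_prod]; exact h0
    exact this
  have : CharP (MonoidAlgebra (ZMod p) H) p :=
    charP_of_injective_algebraMap (algebraMap (ZMod p) (MonoidAlgebra (ZMod p) H)).injective p
  have hpow : F0 ^ p = MonoidAlgebra.single 1 a := by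
    simp only [F0, toA]
    rw [sum_pow_char]
    simp only [MonoidAlgebra.single_pow, hH, ZMod.pow_card]
    rw [ha]
    exact (map_sum (MonoidAlgebra.singleAddHom (1 : H)) _ _).symm
  have hinv : ∃ U : MonoidAlgebra (ZMod p) H, U * F0 = 1 := by
    obtain ⟨k, hk⟩ : ∃ k, p = k + 1 := ⟨p - 1, by have := (Fact.out : p.Prime).pos; omega⟩
    refine ⟨MonoidAlgebra.single 1 a⁻¹ * F0 ^ (p - 1), ?_⟩
    rw [mul_assoc, ← pow_succ, Nat.sub_add_cancel (Fact.out : p.Prime).one_le, hpow,
      MonoidAlgebra.single_mul_single, one_mul, inv_mul_cancel₀ ha0, MonoidAlgebra.one_def]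
  obtain ⟨U, hU⟩ := hinv
  have hall : ∀ G, wreath_aug_P p H W G := by
    intro G
    have := wreath_aug_mul p H W hW F0 hF0 (G * U)
    rwa [mul_assoc, hU, mul_one] at this
  have h2 := hall (toA fun x => (f x).toAdd)
  unfold wreath_aug_P at h2
  convert h2 using 1
  apply RegularWreathProduct.ext
  · funext x
    change f x = Multiplicative.ofAdd ((toA fun x => Multiplicative.toAdd (f x)).coeff x)
    rw [htoA]
    simp
  · rfl

end Pool.Agent.Helper691.NS
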