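import Pool.Agent.Helper691.NS.Defs

set_option autoImplicit false
open Filter Topology

namespace Pool.Agent.Helper691.NS

theorem wreath_sum (A H : Type) [CommGroup A] [CommGroup H] [Fintype H] :
    ∃ σ : RegularWreathProduct A H →* A × H, Function.Surjective σ ∧
      ∀ w, σ w = (∏ x, w.left x, w.right) := by
  classical
  refine ⟨MonoidHom.mk' (fun w => (∏ x, w.left x, w.right)) ?_, ?_, fun w => rfl⟩
  · intro a b
    ext1
    · change ∏ x, (a * b).left x = (∏ x, a.left x) * ∏ x, b.left x
      rw [RegularWreathProduct.mul_left]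
      simp only [Pi.mul_apply]
      rw [Finset.prod_mul_distrib]
      congr 1
      exact Fintype.prod_equiv (Equiv.mulLeft a.right⁻¹) _ _ (fun x => rfl)
    · rfl
  · rintro ⟨a, h⟩
    refine ⟨⟨Pi.mulSingle 1 a, h⟩, ?_⟩
    ext1
    · change ∏ x, (Pi.mulSingle 1 a : H → A) x = a
      rw [Finset.prod_pi_mulSingle']
      simp
    · rfl

end Pool.Agent.Helper691.NS
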