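import Pool.Agent.Helper691.NS.Defs
import Pool.Agent.Helper691.NS.Wreath_aug
import Pool.Agent.Helper691.NS.Wreath_sum

set_option autoImplicit false
open Filter Topology

namespace Pool.Agent.Helper691.NS

theorem big_aux_onto {U : Type} [Group U] (N : Subgroup U) (p : ℕ) [hp : Fact p.Prime]
    (χ : U →* Multiplicative (ZMod p)) (hχN : ∃ x ∈ N, χ x ≠ 1) (c : Multiplicative (ZMod p)) :
    ∃ n ∈ N, χ n = c := by
  have hcard : Nat.card (Multiplicative (ZMod p)) = p := by
    rw [Nat.card_congr Multiplicative.toAdd, Nat.card_zmod]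
  haveI : Fact (Nat.card (Multiplicative (ZMod p))).Prime := ⟨by rw [hcard]; exact hp.out⟩
  rcases (N.map χ).eq_bot_or_eq_top_of_prime_card with h | h
  · exfalso
    obtain ⟨x, hx, hne⟩ := hχN
    apply hne
    have : χ x ∈ N.map χ := ⟨x, hx, rfl⟩
    rw [h] at this
    exact Subgroup.mem_bot.1 this
  · have : c ∈ N.map χ := by rw [h]; trivial
    obtain ⟨n, hn, rfl⟩ := this
    exact ⟨n, hn, rfl⟩

theorem big_aux_open {U : Type} [Group U] [TopologicalSpace U] [IsTopologicalGroup U]
    (N : Subgroup U) {A B : Type} [Group A] [Group B] (θ : U →* A) (hθ : OK θ) (ψ : N →* B)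
    (h : ∀ n : N, θ n = 1 → ψ n = 1) : OK ψ := by
  have h1 : (IsOpen (((θ.comp N.subtype).ker : Subgroup N) : Set N)) := by
    have h2 : (((θ.comp N.subtype).ker : Subgroup N) : Set N)
        = Subtype.val ⁻¹' (θ.ker : Set U) := by
      ext n
      simp [MonoidHom.mem_ker]
    rw [h2]
    exact hθ.preimage continuous_subtype_val
  refine Subgroup.isOpen_mono (H₁ := (θ.comp N.subtype).ker) ?_ h1
  intro n hn
  rw [MonoidHom.mem_ker] at hn ⊢
  exact h n hn

theorem big_aux_exp (p : ℕ) [hp : Fact p.Prime] (c : Multiplicative (ZMod p)) : c ^ p = 1 := by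
  have hcard : Nat.card (Multiplicative (ZMod p)) = p := by
    rw [Nat.card_congr Multiplicative.toAdd, Nat.card_zmod]
  have := pow_card_eq_one' (x := c)
  rwa [hcard] at this

theorem big_aux_exp2 (p M : ℕ) [hp : Fact p.Prime] (c : Multiplicative (Fin M → ZMod p)) :
    c ^ p = 1 := by
  apply Multiplicative.toAdd.injective
  rw [toAdd_pow, toAdd_one]
  funext i
  simp

theorem big_aux {U : Type} [Group U] [TopologicalSpace U] [IsTopologicalGroup U]
    (N : Subgroup U) (hN : N.Normal) (p : ℕ) [Fact p.Prime] (k m : ℕ)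
    (hm : p ^ (p ^ (2 * (k + 1))) * p ^ (2 * (k + 1)) ≤ m) (hL : LiftProp U m)
    (χ : U →* Multiplicative (ZMod p)) (hχ : OK χ) (hχN : ∃ x ∈ N, χ x ≠ 1) :
    ∃ (A : Type) (_ : CommGroup A) (_ : Finite A) (ψ : N →* A),
      (∀ a : A, a ^ p = 1) ∧ k ≤ Nat.card A ∧ Function.Surjective ψ ∧ OK ψ := by
  have hp : p.Prime := Fact.out
  have hpp : 0 < p := hp.pos
  set M := 2 * (k + 1) with hM
  have hcardA : Nat.card (Multiplicative (Fin M → ZMod p)) = p ^ M := by
    rw [Nat.card_congr Multiplicative.toAdd]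
    simp
  have hcardC : Nat.card (Multiplicative (ZMod p)) = p := by
    rw [Nat.card_congr Multiplicative.toAdd, Nat.card_zmod]
  -- step 1
  have hA0 : Nat.card (Multiplicative (Fin M → ZMod p)) ≤ m := by
    rw [hcardA]
    refine le_trans ?_ hm
    exact Nat.le_mul_of_pos_left _ (by positivity)
  obtain ⟨θ, hθs, hθo, -⟩ := hL (Multiplicative (Fin M → ZMod p)) Unit 1 1 hA0
    (fun _ => ⟨1, rfl⟩) (fun _ => ⟨1, rfl⟩) (by
      unfold OK
      have : (1 : U →* Unit).ker = ⊤ := by
        ext x; simp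
      rw [this]; exact isOpen_univ)
  by_cases hk : k ≤ Nat.card (N.map θ)
  · refine ⟨N.map θ, inferInstance, inferInstance, θ.subgroupMap N, ?_, hk,
      θ.subgroupMap_surjective N, ?_⟩
    · intro a
      apply Subtype.ext
      rw [Subgroup.coe_pow, Subgroup.coe_one]
      exact big_aux_exp2 p M _
    · refine big_aux_open N θ hθo _ ?_
      intro n hn
      apply Subtype.ext
      exact hn
  push Not at hk
  set W₀ := N.map θ with hW₀
  let H := (Multiplicative (Fin M → ZMod p)) ⧸ W₀
  letI : CommGroup H := inferInstance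
  haveI : Finite H := inferInstance
  letI : Fintype H := Fintype.ofFinite H
  have hprod : Nat.card H * Nat.card W₀ = p ^ M := by
    rw [← hcardA]
    exact (Subgroup.card_eq_card_quotient_mul_card_subgroup W₀).symm
  have hkp : k < p ^ (k + 1) := by
    calc k < k + 1 := Nat.lt_succ_self k
      _ < p ^ (k + 1) := Nat.lt_pow_self hp.one_lt
  have hkH : k ≤ Nat.card H := by
    by_contra hcon
    push Not at hcon
    have h1 : Nat.card H * Nat.card W₀ ≤ k * k := Nat.mul_le_mul hcon.le hk.le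
    have h2 : p ^ M = p ^ (k + 1) * p ^ (k + 1) := by rw [← pow_add]; congr 1; omega
    have h3 : k * k < p ^ (k + 1) * p ^ (k + 1) := Nat.mul_self_lt_mul_self hkp
    rw [hprod, h2] at h1
    omega
  have hHle : Nat.card H ≤ p ^ M := by
    rw [← hprod]
    exact Nat.le_mul_of_pos_right _ Nat.card_pos
  have hHexp : ∀ y : H, y ^ p = 1 := by
    intro y
    obtain ⟨a, rfl⟩ := QuotientGroup.mk'_surjective W₀ y
    rw [← map_pow, big_aux_exp2, map_one]
  let h : U →* H := (QuotientGroup.mk' W₀).comp θ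
  have hhs : Function.Surjective h := (QuotientGroup.mk'_surjective W₀).comp hθs
  have hhN : ∀ n ∈ N, h n = 1 := by
    intro n hn
    have : θ n ∈ W₀ := ⟨n, hn, rfl⟩
    exact (QuotientGroup.eq_one_iff (θ n)).2 this
  have hφs : Function.Surjective (χ.prod h) := by
    rintro ⟨c, y⟩
    obtain ⟨u, hu⟩ := hhs y
    obtain ⟨n, hn, hnc⟩ := big_aux_onto N p χ hχN (c * (χ u)⁻¹)
    refine ⟨n * u, ?_⟩
    rw [MonoidHom.prod_apply]
    apply Prod.ext
    · simp [hnc]
    · simp [hhN n hn, hu]
  have hφo : OK (χ.prod h) := by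
    unfold OK
    have h1 : IsOpen (((χ.ker ⊓ θ.ker : Subgroup U)) : Set U) := by
      rw [Subgroup.coe_inf]
      exact hχ.inter hθo
    refine Subgroup.isOpen_mono ?_ h1
    intro x hx
    obtain ⟨hx1, hx2⟩ := Subgroup.mem_inf.1 hx
    rw [MonoidHom.mem_ker] at hx1 hx2
    rw [MonoidHom.mem_ker, MonoidHom.prod_apply, hx1]
    have : h x = 1 := by
      show (QuotientGroup.mk' W₀) (θ x) = 1
      rw [hx2, map_one]
    rw [this]; rfl
  obtain ⟨σ, hσs, hσ⟩ := wreath_sum (Multiplicative (ZMod p)) H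
  have hcardW : Nat.card (RegularWreathProduct (Multiplicative (ZMod p)) H) ≤ m := by
    rw [RegularWreathProduct.card, hcardC]
    refine le_trans ?_ hm
    exact Nat.mul_le_mul (Nat.pow_le_pow_right hpp hHle) hHle
  obtain ⟨ψ, hψs, hψo, hψ⟩ := hL (RegularWreathProduct (Multiplicative (ZMod p)) H)
    (Multiplicative (ZMod p) × H) σ (χ.prod h) hcardW hσs hφs hφo
  have hψ' : ∀ u, σ (ψ u) = (χ u, h u) := fun u => DFunLike.congr_fun hψ u
  have hright : ∀ n ∈ N, (ψ n).right = 1 := by
    intro n hn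
    have h1 := hψ' n
    rw [hσ] at h1
    have h2 := congrArg Prod.snd h1
    simp only at h2
    rw [h2, hhN n hn]
  have hWn : (N.map ψ).Normal := hN.map ψ hψs
  have haug := wreath_aug p H hHexp (N.map ψ) hWn
    (by
      rintro w ⟨n, hn, rfl⟩
      exact hright n hn)
    (by
      obtain ⟨x, hx, hne⟩ := hχN
      refine ⟨ψ x, ⟨x, hx, rfl⟩, ?_⟩
      have h1 := hψ' x
      rw [hσ] at h1
      have h2 := congrArg Prod.fst h1
      simp only at h2
      rw [h2]
      exact hne)
  let ρ : N →* (H → Multiplicative (ZMod p)) :=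
    { toFun := fun n => (ψ n).left
      map_one' := by simp
      map_mul' := by
        intro a b
        funext x
        have ha := hright a a.2
        simp [ha] }
  refine ⟨H → Multiplicative (ZMod p), inferInstance, inferInstance, ρ, ?_, ?_, ?_, ?_⟩
  · intro f
    funext x
    rw [Pi.pow_apply, big_aux_exp]
    rfl
  · rw [Nat.card_fun, hcardC]
    exact hkH.trans (Nat.lt_pow_self hp.one_lt).le
  · intro f
    obtain ⟨n, hn, hnf⟩ := haug f
    refine ⟨⟨n, hn⟩, ?_⟩
    show (ψ n).left = f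
    rw [hnf]
  · refine big_aux_open N ψ hψo _ ?_
    intro n hn
    show (ψ n).left = 1
    rw [hn]
    rfl

end Pool.Agent.Helper691.NS
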