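import Pool.Agent.Helper691.NS.Defs

set_option autoImplicit false
open Filter Topology

namespace Pool.Agent.Helper691.NS

theorem small_normal {E : Type} [Group E] [TopologicalSpace E] [IsTopologicalGroup E] [CompactSpace E]
    [T2Space E] [TotallyDisconnectedSpace E] (W : Set E) (hW : IsOpen W) (h1 : (1 : E) ∈ W) :
    ∃ V : Subgroup E, V.Normal ∧ IsOpen (V : Set E) ∧ (V : Set E) ⊆ W := by
  obtain ⟨H, hH⟩ := ProfiniteGrp.exist_openNormalSubgroup_sub_open_nhds_of_one hW h1
  exact ⟨H.toSubgroup, H.isNormal', H.isOpen', hH⟩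

end Pool.Agent.Helper691.NS
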