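import Pool.Agent.Helper691.NS.Defs
import Pool.Agent.Helper691.NS.Small_normal

set_option autoImplicit false
open Filter Topology

namespace Pool.Agent.Helper691.NS

theorem ext_sup {E : Type} [Group E] [TopologicalSpace E] [IsTopologicalGroup E] [CompactSpace E]
    [T2Space E] [TotallyDisconnectedSpace E] (N : Subgroup E) {B : Type} [Group B] (φ : N →* B)
    (hφ : OK φ) :
    ∃ V₀ : Subgroup E, V₀.Normal ∧ IsOpen (V₀ : Set E) ∧
      ∀ V : Subgroup E, V.Normal → IsOpen (V : Set E) → V ≤ V₀ →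
      ∃ φ' : ↥(N ⊔ V) →* B, OK φ' ∧
        (∀ x : N, φ' ⟨x.1, Subgroup.mem_sup_left x.2⟩ = φ x) ∧
        ∀ v : V, φ' ⟨v.1, Subgroup.mem_sup_right v.2⟩ = 1 := by
  obtain ⟨W, hW, hWe⟩ := isOpen_induced_iff.1 hφ
  have h1W : (1 : E) ∈ W := by
    have h : (1 : N) ∈ (φ.ker : Set N) := φ.ker.one_mem
    rw [← hWe] at h
    exact h
  obtain ⟨V₀, hV₀n, hV₀o, hV₀W⟩ := small_normal W hW h1W
  refine ⟨V₀, hV₀n, hV₀o, ?_⟩
  intro V hVn hVo hVV
  have := hVn
  have hkey : ∀ a b : N, (QuotientGroup.mk (a : E) : E ⧸ V) = QuotientGroup.mk (b : E) → φ a = φ b := by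
    intro a b hab
    rw [QuotientGroup.eq] at hab
    have h2 : (a⁻¹ * b : N) ∈ (φ.ker : Set N) := by
      rw [← hWe]
      exact hV₀W (hVV hab)
    have h3 : φ (a⁻¹ * b) = 1 := h2
    rw [map_mul, map_inv, inv_mul_eq_one] at h3
    exact h3
  have hex : ∀ z : ↥(N ⊔ V), ∃ m : N, (QuotientGroup.mk (m : E) : E ⧸ V) = QuotientGroup.mk (z : E) := by
    intro z
    have h2 : (z : E) ∈ ((N ⊔ V : Subgroup E) : Set E) := z.2
    rw [Subgroup.mul_normal N V] at h2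
    obtain ⟨m, hm, v, hv, hz⟩ := Set.mem_mul.1 h2
    refine ⟨⟨m, hm⟩, ?_⟩
    rw [QuotientGroup.eq, ← hz]
    simpa using hv
  choose m hm using hex
  set φ' : ↥(N ⊔ V) →* B := MonoidHom.mk' (fun z => φ (m z)) (by
    intro z w
    rw [← map_mul]
    refine hkey _ _ ?_
    rw [hm, Subgroup.coe_mul, Subgroup.coe_mul, QuotientGroup.mk_mul, QuotientGroup.mk_mul, hm, hm]) with hφ'
  have hval : ∀ z, φ' z = φ (m z) := fun z => rfl
  have hv1 : ∀ v : V, φ' ⟨v.1, Subgroup.mem_sup_right v.2⟩ = 1 := by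
    intro v
    rw [hval, ← map_one φ]
    refine hkey _ _ ?_
    rw [hm]
    rw [QuotientGroup.eq]
    simp
  refine ⟨φ', ?_, ?_, hv1⟩
  · have hle : V.subgroupOf (N ⊔ V) ≤ φ'.ker := by
      intro z hz
      rw [Subgroup.mem_subgroupOf] at hz
      exact hv1 ⟨z.1, hz⟩
    refine Subgroup.isOpen_mono hle ?_
    exact hVo.preimage continuous_subtype_val
  · intro x
    rw [hval]
    exact hkey _ _ (hm _)

end Pool.Agent.Helper691.NS
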