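import Pool.Agent.Helper691.NS.Defs
import Pool.Agent.Helper691.NS.Small_normal
import Pool.Agent.Helper691.NS.Ext_sup
import Pool.Agent.Helper691.NS.Big_aux

set_option autoImplicit false
open Filter Topology

namespace Pool.Agent.Helper691.NS

theorem big_of_has {E : Type} [Group E] [TopologicalSpace E] [IsTopologicalGroup E] [CompactSpace E]
    [T2Space E] [TotallyDisconnectedSpace E] (N : Subgroup E) (hN : N.Normal) (h : NLift N)
    (p : ℕ) (hp : p.Prime) (hH : Has p N) : Big p N := by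
  classical
  intro k
  obtain ⟨χ, hχs, hχ⟩ := hH
  haveI : Fact p.Prime := ⟨hp⟩
  obtain ⟨V₀, hV₀n, hV₀o, hext⟩ := ext_sup N χ hχ
  obtain ⟨V, hVn, hVo, hVle, hLift⟩ := h (p ^ (p ^ (2 * (k + 1))) * p ^ (2 * (k + 1))) V₀ hV₀n hV₀o
  obtain ⟨χ', hχ', hχ'N, hχ'V⟩ := hext V hVn hVo hVle
  have hle : N ≤ N ⊔ V := le_sup_left
  have hN' : (N.subgroupOf (N ⊔ V)).Normal := hN.subgroupOf (N ⊔ V)
  have hne : ∃ c : Multiplicative (ZMod p), c ≠ 1 := by
    refine ⟨Multiplicative.ofAdd 1, fun hc => ?_⟩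
    have h1 : (1 : ZMod p) = 0 := by
      have := congrArg Multiplicative.toAdd hc
      simpa using this
    exact one_ne_zero h1
  obtain ⟨c, hc⟩ := hne
  obtain ⟨n, hn⟩ := hχs c
  have hχN : ∃ x ∈ N.subgroupOf (N ⊔ V), χ' x ≠ 1 := by
    refine ⟨⟨n.1, Subgroup.mem_sup_left n.2⟩, ?_, ?_⟩
    · rw [Subgroup.mem_subgroupOf]
      exact n.2
    · rw [hχ'N n, hn]
      exact hc
  obtain ⟨A, iA, fA, ψ, hA1, hA2, hA3, hA4⟩ := big_aux (N.subgroupOf (N ⊔ V)) hN' p k _ le_rfl hLift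
    χ' hχ' hχN
  let j : N →* (N.subgroupOf (N ⊔ V)) :=
    (Subgroup.subgroupOfEquivOfLe hle).symm.toMonoidHom
  have hjs : Function.Surjective j := (Subgroup.subgroupOfEquivOfLe hle).symm.surjective
  have hjc : Continuous j := by
    have hj1 : ∀ x : N, ((j x : N.subgroupOf (N ⊔ V)) : ↥(N ⊔ V)).1 = x.1 := fun x => rfl
    refine Continuous.subtype_mk (Continuous.subtype_mk continuous_subtype_val _) _
  refine ⟨A, iA, fA, ψ.comp j, hA1, hA2, ?_, ?_⟩
  · intro a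
    obtain ⟨y, hy⟩ := hA3 a
    obtain ⟨x, hx⟩ := hjs y
    exact ⟨x, by rw [MonoidHom.comp_apply, hx, hy]⟩
  · have e : ((ψ.comp j).ker : Set N) = j ⁻¹' (ψ.ker : Set _) := by
      ext x
      simp [MonoidHom.mem_ker]
    show IsOpen ((ψ.comp j).ker : Set N)
    rw [e]
    exact hA4.preimage hjc

end Pool.Agent.Helper691.NS
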