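import Pool.Agent.Helper691.NS.Defs

set_option autoImplicit false
open Filter Topology

namespace Pool.Agent.Helper691.NS

theorem blocks2_one (J : Type) [Countable J] [Nonempty J] (b : ℕ) :
    ∃ (I : Type) (k : I → ℕ) (e : (Σ i, Fin (k i)) ≃ J), (∀ i, 0 < k i) ∧ Function.Injective k ∧
      ∀ i, b ≤ k i ∨ (Finite J ∧ Nat.card J = k i) := by
  classical
  rcases finite_or_infinite J with hf | hi
  · refine ⟨Unit, fun _ => Nat.card J, (Equiv.uniqueSigma (fun _ : Unit => Fin (Nat.card J))).trans
      (Finite.equivFin J).symm, ?_, ?_, ?_⟩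
    · intro _
      exact Nat.card_pos
    · intro x y _
      rfl
    · intro _
      exact Or.inr ⟨hf, rfl⟩
  · have hinf : Infinite (Σ n : ℕ, Fin (n + 1 + b)) := by
      apply Infinite.of_injective (fun n : ℕ => (⟨n, ⟨0, by omega⟩⟩ : Σ n : ℕ, Fin (n + 1 + b)))
      intro x y hxy
      exact congrArg Sigma.fst hxy
    obtain ⟨e⟩ : Nonempty ((Σ n : ℕ, Fin (n + 1 + b)) ≃ J) := nonempty_equiv_of_countable
    refine ⟨ℕ, fun n => n + 1 + b, e, ?_, ?_, ?_⟩
    · intro n
      show 0 < n + 1 + b
      omega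
    · intro x y hxy
      have h : x + 1 + b = y + 1 + b := hxy
      omega
    · intro n
      left
      show b ≤ n + 1 + b
      omega

theorem blocks2 (J : Type) [Countable J] (r : Setoid J) (b : J → ℕ) :
    ∃ (I : Type) (rep : I → J) (k : I → ℕ) (e : (Σ i, Fin (k i)) ≃ J),
      (∀ i, 0 < k i) ∧ (∀ i c, r (rep i) (e ⟨i, c⟩)) ∧
      (∀ i j, i ≠ j → r (rep i) (rep j) → k i ≠ k j) ∧
      ∀ i, b (rep i) ≤ k i ∨ ({j | r (rep i) j}.Finite ∧ {j | r (rep i) j}.ncard = k i) := by
  classical
  have hne : ∀ c : Quotient r, Nonempty {j : J // (Quotient.mk r j) = c} := fun c =>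
    ⟨⟨Quotient.out c, Quotient.out_eq c⟩⟩
  have hone := fun c : Quotient r => by
    haveI := hne c
    exact blocks2_one {j : J // (Quotient.mk r j) = c} (b (Quotient.out c))
  choose I k e h1 h2 h3 using hone
  refine ⟨Σ c, I c, fun x => Quotient.out x.1, fun x => k x.1 x.2,
    ((Equiv.sigmaAssoc (fun c i => Fin (k c i))).trans (Equiv.sigmaCongrRight e)).trans
      (Equiv.sigmaFiberEquiv (fun j => Quotient.mk r j)), ?_, ?_, ?_, ?_⟩
  · intro x
    exact h1 x.1 x.2
  · rintro ⟨c, i⟩ x
    show r (Quotient.out c) ((e c ⟨i, x⟩).1)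
    apply Quotient.exact
    rw [(e c ⟨i, x⟩).2]
    exact Quotient.out_eq c
  · rintro ⟨c, i⟩ ⟨c', i'⟩ hne' hr
    have hcc : c = c' := by
      have h4 : Quotient.mk r (Quotient.out c) = Quotient.mk r (Quotient.out c') := Quotient.sound hr
      rw [Quotient.out_eq, Quotient.out_eq] at h4
      exact h4
    subst hcc
    intro hk
    apply hne'
    have h5 : i = i' := h2 c hk
    rw [h5]
  · rintro ⟨c, i⟩
    have hset : {j | r (Quotient.out c) j} = {j : J | (Quotient.mk r j) = c} := by
      ext j
      constructor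
      · intro h
        have h4 : Quotient.mk r (Quotient.out c) = Quotient.mk r j := Quotient.sound h
        rw [Quotient.out_eq] at h4
        exact h4.symm
      · intro h
        show r (Quotient.out c) j
        apply Quotient.exact
        rw [Quotient.out_eq]
        exact h.symm
    rcases h3 c i with h | ⟨hf, hc⟩
    · exact Or.inl h
    · right
      show ({j | r (Quotient.out c) j}.Finite ∧ {j | r (Quotient.out c) j}.ncard = k c i)
      rw [hset]
      refine ⟨?_, ?_⟩
      · exact Set.finite_coe_iff.mp hf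
      · rw [← hc]
        exact (Nat.card_coe_set_eq _).symm

end Pool.Agent.Helper691.NS
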