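import Pool.Agent.Helper691.NS.Defs

set_option autoImplicit false
open Filter Topology

namespace Pool.Agent.Helper691.NS

theorem cb_fin {n : ℕ} {G : Type} [Group G] [TopologicalSpace G] [IsTopologicalGroup G] [CompactSpace G]
    [T2Space G] [TotallyDisconnectedSpace G] (ι : Fin n → G) (hG : FreeFin n G ι) : CB G := by
  have hc : {V : Subgroup G | V.Normal ∧ IsOpen (V : Set G)}.Countable := by
    have h1 : ∀ m : ℕ, {φ : G →* Equiv.Perm (Fin m) | OK φ}.Countable := by
      intro m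
      refine Set.countable_of_injective_of_countable_image
        (f := fun (φ : G →* Equiv.Perm (Fin m)) (i : Fin n) => φ (ι i)) ?_ (Set.to_countable _)
      intro φ hφ ψ hψ h
      exact hG.uniq _ φ ψ hφ hψ fun i => congrFun h i
    have h2 : (⋃ m : ℕ, (fun φ : G →* Equiv.Perm (Fin m) => φ.ker) '' {φ | OK φ}).Countable :=
      Set.countable_iUnion fun m => (h1 m).image _
    refine h2.mono ?_
    rintro V ⟨hV1, hV2⟩
    have hfin : Finite (G ⧸ V) := Subgroup.quotient_finite_of_isOpen V hV2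
    rw [Set.mem_iUnion]
    set e : G ⧸ V ≃ Fin (Nat.card (G ⧸ V)) := Finite.equivFin _ with he
    set φ : G →* Equiv.Perm (Fin (Nat.card (G ⧸ V))) :=
      (Equiv.permCongrHom e).toMonoidHom.comp (MulAction.toPermHom G (G ⧸ V)) with hφ
    have hker : φ.ker = V := by
      have h3 : φ.ker = (MulAction.toPermHom G (G ⧸ V)).ker := by
        ext g
        rw [MonoidHom.mem_ker, MonoidHom.mem_ker, hφ]
        show (Equiv.permCongrHom e) (MulAction.toPermHom G (G ⧸ V) g) = 1 ↔ _
        rw [map_eq_one_iff _ (Equiv.permCongrHom e).injective]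
      rw [h3, ← Subgroup.normalCore_eq_ker, Subgroup.normalCore_eq_self]
    refine ⟨Nat.card (G ⧸ V), φ, ?_, hker⟩
    show IsOpen (φ.ker : Set G)
    rw [hker]
    exact hV2
  obtain ⟨u, hu⟩ := hc.exists_eq_range ⟨⊤, Subgroup.normal_top, isOpen_univ⟩
  refine ⟨u, fun k => ?_, fun V hV1 hV2 => ?_⟩
  · have h1 : u k ∈ {V : Subgroup G | V.Normal ∧ IsOpen (V : Set G)} := by
      rw [hu]
      exact ⟨k, rfl⟩
    exact h1
  · have h1 : V ∈ {V : Subgroup G | V.Normal ∧ IsOpen (V : Set G)} := ⟨hV1, hV2⟩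
    rw [hu] at h1
    obtain ⟨k, hk⟩ := h1
    exact ⟨k, hk.le⟩

end Pool.Agent.Helper691.NS
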