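import Pool.Agent.Helper691.NS.Defs

set_option autoImplicit false
open Filter Topology

namespace Pool.Agent.Helper691.NS

theorem cb_omega {F : Type} [Group F] [TopologicalSpace F] [IsTopologicalGroup F] [CompactSpace F]
    [T2Space F] [TotallyDisconnectedSpace F] (κ : ℕ → F) (hF : FreeOmega F κ) : CB F := by
  classical
  have hex : ∀ t : (Σ m : ℕ, List (Equiv.Perm (Fin m))),
      ∃ φ : F →* Equiv.Perm (Fin t.1), OK φ ∧ ∀ i, φ (κ i) = t.2.getD i 1 := by
    intro t
    refine hF.ex (Equiv.Perm (Fin t.1)) (fun i => t.2.getD i 1) ?_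
    filter_upwards [eventually_ge_atTop t.2.length] with k hk
    simp [List.getD_eq_getElem?_getD, List.getElem?_eq_none hk]
  choose Φ hOK hval using hex
  obtain ⟨g, hg⟩ := exists_surjective_nat (Σ m : ℕ, List (Equiv.Perm (Fin m)))
  refine ⟨fun n => (Φ (g n)).ker, fun n => ⟨MonoidHom.normal_ker _, hOK _⟩, ?_⟩
  intro V hVn hVo
  haveI := hVn
  haveI : Finite (F ⧸ V) := Subgroup.quotient_finite_of_isOpen V hVo
  let e : F ⧸ V ≃ Fin (Nat.card (F ⧸ V)) := Finite.equivFin (F ⧸ V)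
  let φ : F →* Equiv.Perm (Fin (Nat.card (F ⧸ V))) :=
    (e.permCongrHom.toMonoidHom).comp (MulAction.toPermHom F (F ⧸ V))
  have hker : φ.ker = V := by
    ext x
    rw [MonoidHom.mem_ker]
    have h1 : φ x = 1 ↔ MulAction.toPermHom F (F ⧸ V) x = 1 := by
      have : φ x = e.permCongrHom (MulAction.toPermHom F (F ⧸ V) x) := rfl
      rw [this]
      exact map_eq_one_iff e.permCongrHom e.permCongrHom.injective
    rw [h1, ← MonoidHom.mem_ker, ← Subgroup.normalCore_eq_ker, Subgroup.normalCore_eq_self]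
  have hφOK : OK φ := by
    unfold OK
    rw [hker]
    exact hVo
  have hev : ∀ᶠ k in atTop, φ (κ k) = 1 := by
    have hV : (V : Set F) ∈ 𝓝 (1 : F) := hVo.mem_nhds V.one_mem
    filter_upwards [hF.conv hV] with k hk
    rw [← MonoidHom.mem_ker, hker]
    exact hk
  obtain ⟨N, hN⟩ := eventually_atTop.1 hev
  obtain ⟨n, hn⟩ := hg ⟨Nat.card (F ⧸ V), (List.range N).map (fun k => φ (κ k))⟩
  refine ⟨n, ?_⟩
  show (Φ (g n)).ker ≤ V
  rw [hn]
  have heq : Φ ⟨Nat.card (F ⧸ V), (List.range N).map (fun k => φ (κ k))⟩ = φ := by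
    refine hF.uniq _ _ _ (hOK _) hφOK ?_
    intro i
    rw [hval]
    show ((List.range N).map (fun k => φ (κ k))).getD i 1 = φ (κ i)
    by_cases hi : i < N
    · simp [List.getD_eq_getElem?_getD, hi]
    · rw [hN i (not_lt.1 hi)]
      simp [List.getD_eq_getElem?_getD, hi]
  rw [heq, hker]

end Pool.Agent.Helper691.NS
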