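import Pool.Agent.Helper691.NS.Defs
import Pool.Agent.Helper691.NS.Small_normal

set_option autoImplicit false
open Filter Topology

namespace Pool.Agent.Helper691.NS

theorem cb_sub {F : Type} [Group F] [TopologicalSpace F] [IsTopologicalGroup F] [CompactSpace F]
    [T2Space F] [TotallyDisconnectedSpace F] (h : CB F) (N : Subgroup F) : CB N := by
  obtain ⟨u, hu, hV⟩ := h
  refine ⟨fun n => (u n).subgroupOf N, fun n => ⟨?_, ?_⟩, ?_⟩
  · have := (hu n).1
    exact Subgroup.normal_subgroupOf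
  · exact (hu n).2.preimage continuous_subtype_val
  · intro V _ hVo
    obtain ⟨W, hW, hWV⟩ := isOpen_induced_iff.1 hVo
    have hmem : ∀ x : N, (x : F) ∈ W ↔ x ∈ V := fun x => Set.ext_iff.1 hWV x
    have h1 : (1 : F) ∈ W := (hmem 1).2 (one_mem V)
    obtain ⟨V', hn, ho, hsub⟩ := small_normal W hW h1
    obtain ⟨n, hn'⟩ := hV V' hn ho
    exact ⟨n, fun x hx => (hmem x).1 (hsub (hn' hx))⟩

end Pool.Agent.Helper691.NS
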