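import Pool.Agent.Helper691.NS.Defs
import Pool.Agent.Helper691.NS.Small_normal

set_option autoImplicit false
open Filter Topology

namespace Pool.Agent.Helper691.NS

theorem conj_core {G : Type} [Group G] [TopologicalSpace G] [IsTopologicalGroup G] [CompactSpace G]
    [T2Space G] [TotallyDisconnectedSpace G] (M : Subgroup G) (hMn : M.Normal) (hMc : IsClosed (M : Set G))
    (L : Subgroup M) (hL : IsOpen (L : Set M)) (hLn : L.Normal) (hLt : L ≠ ⊤) :
    ∃ (t : Finset (Subgroup M)), L ∈ t ∧
      (∀ L' ∈ t, ∃ g : G, ∀ x : M, x ∈ L' ↔ ∃ y : M, y ∈ L ∧ (x : G) = g * y * g⁻¹) ∧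
      ∃ K : Subgroup G, K.Normal ∧ IsClosed (K : Set G) ∧ K ≤ M ∧ K ≠ M ∧
        ∀ x : M, (x : G) ∈ K ↔ ∀ L' ∈ t, x ∈ L' := by
  classical
  haveI : CompactSpace M := isCompact_iff_compactSpace.mp hMc.isCompact
  -- an open normal subgroup inside L
  obtain ⟨W, hW, hWL⟩ := isOpen_induced_iff.mp hL
  have h1W : (1 : G) ∈ W := by
    have : (1 : M) ∈ (Subtype.val ⁻¹' W : Set M) := by rw [hWL]; exact L.one_mem
    simpa using this
  obtain ⟨V, hVn, hVo, hVW⟩ := small_normal W hW h1W
  set N : Subgroup M := V.subgroupOf M with hN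
  have hNo : IsOpen (N : Set M) := hVo.preimage continuous_subtype_val
  haveI : Finite (M ⧸ N) := Subgroup.quotient_finite_of_isOpen N hNo
  have hNL : N ≤ L := by
    intro x hx
    have : x ∈ (Subtype.val ⁻¹' W : Set M) := hVW (Subgroup.mem_subgroupOf.mp hx)
    rw [hWL] at this
    exact this
  haveI hNn : N.Normal := by
    rw [hN]; infer_instance
  let cj : G → Subgroup M := fun g => L.map (MulAut.conjNormal g).toMonoidHom
  have hmem : ∀ g : G, ∀ x : M, x ∈ cj g ↔ ∃ y : M, y ∈ L ∧ (x : G) = g * y * g⁻¹ := by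
    intro g x
    constructor
    · rintro ⟨y, hy, rfl⟩
      exact ⟨y, hy, by simp [MulAut.conjNormal_apply]⟩
    · rintro ⟨y, hy, hxy⟩
      refine ⟨y, hy, ?_⟩
      apply Subtype.ext
      rw [hxy]
      simp [MulAut.conjNormal_apply]
  have hNcj : ∀ g, N ≤ cj g := by
    intro g x hx
    rw [hmem]
    have hxV : (x : G) ∈ V := Subgroup.mem_subgroupOf.mp hx
    refine ⟨⟨g⁻¹ * x * g, ?_⟩, ?_, ?_⟩
    · have := hMn.conj_mem x x.2 g⁻¹
      simpa using this
    · apply hNL
      rw [hN, Subgroup.mem_subgroupOf]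
      have := hVn.conj_mem x hxV g⁻¹
      simpa using this
    · simp [mul_assoc]
  have hfin : (Set.range cj).Finite := by
    have hsub : Set.range cj ⊆ Set.range (fun H : Subgroup (M ⧸ N) => H.comap (QuotientGroup.mk' N)) := by
      rintro _ ⟨g, rfl⟩
      refine ⟨(cj g).map (QuotientGroup.mk' N), ?_⟩
      simp only
      rw [Subgroup.comap_map_eq, QuotientGroup.ker_mk']
      exact sup_eq_left.mpr (hNcj g)
    exact (Set.finite_range _).subset hsub
  have hclosed : ∀ g, IsClosed (cj g : Set M) := by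
    intro g
    exact Subgroup.isClosed_of_isOpen _ (Subgroup.isOpen_mono (hNcj g) hNo)
  have hcj1 : cj 1 = L := by
    ext x
    rw [hmem]
    constructor
    · rintro ⟨y, hy, hxy⟩
      have : x = y := Subtype.ext (by simpa using hxy)
      rwa [this]
    · intro hx
      exact ⟨x, hx, by simp⟩
  refine ⟨hfin.toFinset, ?_, ?_, ?_⟩
  · rw [Set.Finite.mem_toFinset]
    exact ⟨1, hcj1⟩
  · intro L' hL'
    rw [Set.Finite.mem_toFinset] at hL'
    obtain ⟨g, rfl⟩ := hL'
    exact ⟨g, hmem g⟩
  · let I : Subgroup M := ⨅ g : G, cj g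
    have hI : ∀ x : M, x ∈ I ↔ ∀ g, x ∈ cj g := by
      intro x; exact Subgroup.mem_iInf
    have hKmem : ∀ x : M, (x : G) ∈ I.map M.subtype ↔ x ∈ I := by
      intro x
      constructor
      · rintro ⟨y, hy, hxy⟩
        have : y = x := Subtype.ext hxy
        rwa [← this]
      · intro hx
        exact ⟨x, hx, rfl⟩
    refine ⟨I.map M.subtype, ?_, ?_, ?_, ?_, ?_⟩
    · constructor
      rintro _ ⟨x, hx, rfl⟩ g
      have hgx : g * (x : G) * g⁻¹ ∈ M := hMn.conj_mem x x.2 g
      have key : (⟨g * (x : G) * g⁻¹, hgx⟩ : M) ∈ I := by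
        rw [hI]
        intro h
        have h1 := (hmem (g⁻¹ * h) x).mp ((hI x).mp hx (g⁻¹ * h))
        obtain ⟨y, hy, hxy⟩ := h1
        rw [hmem]
        refine ⟨y, hy, ?_⟩
        simp only [hxy]
        group
      exact (hKmem ⟨g * (x : G) * g⁻¹, hgx⟩).mpr key
    · have : IsClosed (I : Set M) := by
        have e : (I : Set M) = ⋂ g : G, (cj g : Set M) := by
          simp [I, Subgroup.coe_iInf]
        rw [e]
        exact isClosed_iInter hclosed
      have h2 := hMc.isClosedEmbedding_subtypeVal.isClosedMap _ this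
      exact h2
    · rintro _ ⟨x, _, rfl⟩
      exact x.2
    · intro hEq
      apply hLt
      rw [eq_top_iff]
      intro x _
      have h1 : (x : G) ∈ I.map M.subtype := by rw [hEq]; exact x.2
      have h2 := (hI x).mp ((hKmem x).mp h1) 1
      rwa [hcj1] at h2
    · intro x
      rw [hKmem, hI]
      constructor
      · intro h L' hL'
        rw [Set.Finite.mem_toFinset] at hL'
        obtain ⟨g, rfl⟩ := hL'
        exact h g
      · intro h g
        exact h _ (by rw [Set.Finite.mem_toFinset]; exact ⟨g, rfl⟩)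

end Pool.Agent.Helper691.NS
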