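import Pool.Agent.Helper691.NS.Defs

set_option autoImplicit false
open Filter Topology

namespace Pool.Agent.Helper691.NS

theorem simp_list_sup {M : Type} [Group M] {L K : Subgroup M} (hL : MaxNormal L) (hK : K.Normal)
    (h : ¬ K ≤ L) : K ⊔ L = ⊤ := by
  by_contra hne
  have hLn := hL.1
  have hn : (K ⊔ L).Normal := Subgroup.sup_normal K L
  have := hL.2.2 (K ⊔ L) hn le_sup_right hne
  exact h (le_sup_left.trans this.le)

theorem simp_list_comm {M : Type} [Group M] {L K Z : Subgroup M} (hZ : Z.Normal)
    (h : ∀ l ∈ L, ∀ k ∈ K, l * k * l⁻¹ * k⁻¹ ∈ Z) (hL : L ⊔ Z = ⊤) (hK : K ⊔ Z = ⊤) :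
    commutator M ≤ Z := by
  rw [commutator_def, Subgroup.commutator_le]
  intro a _ b _
  have ha : a ∈ L ⊔ Z := by rw [hL]; trivial
  have hb : b ∈ K ⊔ Z := by rw [hK]; trivial
  obtain ⟨l, hl, z, hz, rfl⟩ := Subgroup.mem_sup_of_normal_right.1 ha
  obtain ⟨k, hk, z', hz', rfl⟩ := Subgroup.mem_sup_of_normal_right.1 hb
  have h1 := h l hl k hk
  rw [commutatorElement_def]
  rw [← QuotientGroup.eq_one_iff] at h1 hz hz' ⊢
  rw [← h1]
  simp only [QuotientGroup.mk_mul, QuotientGroup.mk_inv, hz, hz', mul_one]

theorem simp_list_inf {M : Type} [Group M] (t : Finset (Subgroup M))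
    (ht : ∀ L ∈ t, L.Normal) : (t.inf id).Normal := by
  classical
  induction t using Finset.induction_on with
  | empty => rw [Finset.inf_empty]; infer_instance
  | insert L t' _ ih =>
    rw [Finset.inf_insert]
    have h1 : L.Normal := ht L (Finset.mem_insert_self _ _)
    have h2 := ih fun K hK => ht K (Finset.mem_insert_of_mem hK)
    exact Subgroup.normal_inf_normal L (t'.inf id)

theorem simp_list {M : Type} [Group M] (t : Finset (Subgroup M))
    (ht : ∀ L ∈ t, MaxNormal L ∧ ¬ commutator M ≤ L) (Z : Subgroup M) (hZ : MaxNormal Z)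
    (h : t.inf id ≤ Z) : Z ∈ t := by
  classical
  induction t using Finset.induction_on with
  | empty =>
    rw [Finset.inf_empty, top_le_iff] at h
    exact absurd h hZ.2.1
  | insert L t' _ ih =>
    obtain ⟨hL, hLc⟩ := ht L (Finset.mem_insert_self _ _)
    have ht' : ∀ K ∈ t', MaxNormal K ∧ ¬ commutator M ≤ K :=
      fun K hK => ht K (Finset.mem_insert_of_mem hK)
    have hKn : (t'.inf id).Normal := simp_list_inf t' fun K hK => (ht' K hK).1.1
    rw [Finset.inf_insert] at h
    set K := t'.inf id with hK
    have h : L ⊓ K ≤ Z := h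
    by_cases hKZ : K ≤ Z
    · exact Finset.mem_insert_of_mem (ih ht' hKZ)
    · have hKZ' := simp_list_sup hZ hKn hKZ
      by_cases hLZ : L ≤ Z
      · have := hL.2.2 Z hZ.1 hLZ hZ.2.1
        rw [this]; exact Finset.mem_insert_self _ _
      · have hLZ' := simp_list_sup hZ hL.1 hLZ
        exfalso
        have hLn := hL.1
        have hc : commutator M ≤ Z := by
          refine simp_list_comm hZ.1 (fun l hl k hk => h ⟨?_, ?_⟩) hLZ' hKZ'
          · have e : l * k * l⁻¹ * k⁻¹ = l * (k * l⁻¹ * k⁻¹) := by group
            rw [e]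
            exact L.mul_mem hl (hLn.conj_mem _ (L.inv_mem hl) k)
          · exact K.mul_mem (hKn.conj_mem _ hk l) (K.inv_mem hk)
        have hKL : ¬ K ≤ L := fun hkl => hKZ fun x hx => h ⟨hkl hx, hx⟩
        have hKL' := simp_list_sup hL hKn hKL
        have hcn : (commutator M).Normal := inferInstance
        have hcL := simp_list_sup hL hcn hLc
        have hle : commutator M ≤ ⁅K, K⁆ ⊔ L := by
          have hn : (⁅K, K⁆ ⊔ L).Normal := Subgroup.sup_normal _ _
          refine simp_list_comm (L := K) (K := K) hn (fun l hl k hk => ?_) ?_ ?_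
          · have := Subgroup.commutator_mem_commutator hl hk
            rw [commutatorElement_def] at this
            exact Subgroup.mem_sup_left this
          · rw [eq_top_iff, ← hKL']
            exact sup_le le_sup_left (le_sup_right.trans le_sup_right)
          · rw [eq_top_iff, ← hKL']
            exact sup_le le_sup_left (le_sup_right.trans le_sup_right)
        have htop : (⊤ : Subgroup M) ≤ ⁅K, K⁆ ⊔ L := by
          rw [← hcL]
          exact sup_le hle le_sup_right
        refine hKZ fun x hx => ?_
        have hx' : x ∈ ⁅K, K⁆ ⊔ L := htop (Subgroup.mem_top x)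
        obtain ⟨c, hc1, l, hl, rfl⟩ := Subgroup.mem_sup_of_normal_right.1 hx'
        have hcK : c ∈ K := (Subgroup.commutator_le_left K K) hc1
        have hlK : l ∈ K := by
          have := K.mul_mem (K.inv_mem hcK) hx
          rwa [inv_mul_cancel_left] at this
        have hlZ : l ∈ Z := h ⟨hl, hlK⟩
        have hcZ : c ∈ Z := by
          refine hc ?_
          rw [commutator_def]
          exact Subgroup.commutator_mono le_top le_top hc1
        exact Z.mul_mem hcZ hlZ

end Pool.Agent.Helper691.NS
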