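import Pool.Agent.Helper691.NS.Defs
import Pool.Agent.Helper691.NS.Simp_list

set_option autoImplicit false
open Filter Topology

namespace Pool.Agent.Helper691.NS

theorem coord_ker_max {X T : Type} [Group X] [Group T] (hT : IsSimpleGroup T) (g : X →* T)
    (hg : Function.Surjective g) : MaxNormal g.ker := by
  refine ⟨inferInstance, ?_, ?_⟩
  · intro h
    obtain ⟨t, ht⟩ := exists_ne (1 : T)
    obtain ⟨x, hx⟩ := hg t
    have : x ∈ g.ker := by rw [h]; trivial
    rw [MonoidHom.mem_ker, hx] at this
    exact ht this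
  · intro K hK hle hne
    have hn : (K.map g).Normal := hK.map g hg
    rcases hn.eq_bot_or_eq_top with h | h
    · apply le_antisymm _ hle
      intro x hx
      have : g x ∈ K.map g := Subgroup.mem_map_of_mem g hx
      rw [h] at this
      exact Subgroup.mem_bot.1 this
    · exfalso
      apply hne
      rw [eq_top_iff]
      intro x _
      have : g x ∈ K.map g := by rw [h]; trivial
      obtain ⟨k, hk, hkx⟩ := this
      have h1 : k⁻¹ * x ∈ g.ker := by
        rw [MonoidHom.mem_ker, map_mul, map_inv, hkx]; simp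
      have := K.mul_mem hk (hle h1)
      simpa using this

theorem coord_ker (S : Type) [Group S] (hS : IsSimpleGroup S) (hna : ∃ a b : S, a * b ≠ b * a)
    (k : ℕ) (T : Type) [Group T] (hT : IsSimpleGroup T) (g : (Fin k → S) →* T)
    (hg : Function.Surjective g) :
    ∃ c : Fin k, ∀ x : Fin k → S, g x = 1 ↔ x c = 1 := by
  classical
  let L : Fin k → Subgroup (Fin k → S) := fun c => (Pi.evalMonoidHom (fun _ : Fin k => S) c).ker
  have hL : ∀ c x, x ∈ L c ↔ x c = 1 := fun c x => Iff.rfl
  have hsurj : ∀ c, Function.Surjective (Pi.evalMonoidHom (fun _ : Fin k => S) c) := by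
    intro c s
    exact ⟨fun _ => s, rfl⟩
  obtain ⟨a, b, hab⟩ := hna
  have hmem := simp_list (Finset.univ.image L) (by
    intro Z hZ
    obtain ⟨c, _, rfl⟩ := Finset.mem_image.1 hZ
    refine ⟨coord_ker_max hS _ (hsurj c), ?_⟩
    intro hle
    have h1 : (fun _ => a : Fin k → S) * (fun _ => b : Fin k → S) * (fun _ => a : Fin k → S)⁻¹ *
        (fun _ => b : Fin k → S)⁻¹ ∈ commutator (Fin k → S) := by
      rw [commutator_def]
      have h0 := Subgroup.commutator_mem_commutator (Subgroup.mem_top (fun _ => a : Fin k → S))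
        (Subgroup.mem_top (fun _ => b : Fin k → S))
      exact h0
    have h2 := (hL c _).1 (hle h1)
    apply hab
    have h3 : a * b * a⁻¹ * b⁻¹ = 1 := h2
    have h4 : a * b * a⁻¹ = b := by
      have := mul_eq_one_iff_eq_inv.1 h3
      simpa using this
    have h5 : a * b = b * a := by
      calc a * b = a * b * a⁻¹ * a := by group
        _ = b * a := by rw [h4]
    exact h5) g.ker (coord_ker_max hT g hg) (by
    intro x hx
    have h1 : x = 1 := by
      funext c
      have h2 : (Finset.univ.image L).inf id ≤ L c :=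
        Finset.inf_le (Finset.mem_image_of_mem L (Finset.mem_univ c))
      exact (hL c x).1 (h2 hx)
    rw [h1]; exact one_mem _)
  obtain ⟨c, _, hc⟩ := Finset.mem_image.1 hmem
  refine ⟨c, fun x => ?_⟩
  rw [← MonoidHom.mem_ker, ← hc]
  exact hL c x

end Pool.Agent.Helper691.NS
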