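import Mathlib

set_option autoImplicit false
open Filter Topology

namespace Pool.Agent.Helper691.NS

/-- the kernel of the homomorphism is open (continuity into a discrete group) -/
def OK {X : Type} [Group X] [TopologicalSpace X] {A : Type} [Group A] (f : X →* A) : Prop :=
  IsOpen (f.ker : Set X)

/-- maximal (proper) normal subgroups -/
def MaxNormal {A : Type} [Group A] (L : Subgroup A) : Prop :=
  L.Normal ∧ L ≠ ⊤ ∧ ∀ K : Subgroup A, K.Normal → L ≤ K → K ≠ ⊤ → K = L

/-- the intersection of all maximal normal subgroups -/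
def Mel (A : Type) [Group A] : Subgroup A := sInf {L | MaxNormal L}

/-- every finite Melnikov embedding problem has a surjective solution -/
def EP (X : Type) [Group X] [TopologicalSpace X] : Prop :=
  ∀ (A B : Type) [Group A] [Group B] [Finite A] [Finite B] (α : A →* B) (φ : X →* B),
    Function.Surjective α → α.ker ≤ Mel A → Function.Surjective φ → OK φ →
    ∃ ψ : X →* A, Function.Surjective ψ ∧ OK ψ ∧ α.comp ψ = φ

/-- every finite embedding problem with target of order at most `m` has a surjective solution -/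
def LiftProp (X : Type) [Group X] [TopologicalSpace X] (m : ℕ) : Prop :=
  ∀ (A B : Type) [Group A] [Group B] [Finite A] [Finite B] (α : A →* B) (φ : X →* B),
    Nat.card A ≤ m → Function.Surjective α → Function.Surjective φ → OK φ →
    ∃ ψ : X →* A, Function.Surjective ψ ∧ OK ψ ∧ α.comp ψ = φ

/-- arbitrarily small open normal thickenings of `N` lift everything of size at most `m` -/
def NLift {E : Type} [Group E] [TopologicalSpace E] (N : Subgroup E) : Prop :=
  ∀ (m : ℕ) (V₀ : Subgroup E), V₀.Normal → IsOpen (V₀ : Set E) →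
    ∃ V : Subgroup E, V.Normal ∧ IsOpen (V : Set E) ∧ V ≤ V₀ ∧ LiftProp (↥(N ⊔ V)) m

/-- there is a surjection onto the cyclic group of order `p` with open kernel -/
def Has (p : ℕ) (X : Type) [Group X] [TopologicalSpace X] : Prop :=
  ∃ ψ : X →* Multiplicative (ZMod p), Function.Surjective ψ ∧ OK ψ

/-- there are arbitrarily large finite elementary abelian `p`-quotients -/
def Big (p : ℕ) (X : Type) [Group X] [TopologicalSpace X] : Prop :=
  ∀ k : ℕ, ∃ (A : Type) (_ : CommGroup A) (_ : Finite A) (ψ : X →* A),
    (∀ a : A, a ^ p = 1) ∧ k ≤ Nat.card A ∧ Function.Surjective ψ ∧ OK ψ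

/-- countable basis of open normal subgroups at the identity -/
def CB (X : Type) [Group X] [TopologicalSpace X] : Prop :=
  ∃ u : ℕ → Subgroup X, (∀ n, (u n).Normal ∧ IsOpen (u n : Set X)) ∧
    ∀ V : Subgroup X, V.Normal → IsOpen (V : Set X) → ∃ n, u n ≤ V

/-- `ι` freely generates `G` as a profinite group -/
structure FreeFin (n : ℕ) (G : Type) [Group G] [TopologicalSpace G] (ι : Fin n → G) : Prop where
  ex : ∀ (H : Type) [Group H] [Finite H] (f : Fin n → H),
    ∃ φ : G →* H, OK φ ∧ ∀ i, φ (ι i) = f i
  uniq : ∀ (H : Type) [Group H] [Finite H] (φ ψ : G →* H), OK φ → OK ψ →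
    (∀ i, φ (ι i) = ψ (ι i)) → φ = ψ

/-- `κ` freely generates `F` as a profinite group, converging to `1` -/
structure FreeOmega (F : Type) [Group F] [TopologicalSpace F] (κ : ℕ → F) : Prop where
  conv : Tendsto κ atTop (𝓝 1)
  ex : ∀ (H : Type) [Group H] [Finite H] (f : ℕ → H), (∀ᶠ k in atTop, f k = 1) →
    ∃ φ : F →* H, OK φ ∧ ∀ i, φ (κ i) = f i
  uniq : ∀ (H : Type) [Group H] [Finite H] (φ ψ : F →* H), OK φ → OK ψ →
    (∀ i, φ (κ i) = ψ (κ i)) → φ = ψ

/-- every finite quotient with trivial `Mel` factors through `π` -/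
def MelUniv {X : Type} [Group X] [TopologicalSpace X] {P : Type} [Group P] (π : X →* P) : Prop :=
  ∀ (D : Type) [Group D] [Finite D] (g : X →* D), Function.Surjective g → OK g →
    Mel D = ⊥ → π.ker ≤ g.ker

/-- the commutator subgroup is a minimal normal subgroup -/
def Good (T : Type) [Group T] : Prop :=
  Nonempty T ∧ commutator T ≠ ⊥ ∧
    ∀ K : Subgroup T, K.Normal → K ≤ commutator T → K = ⊥ ∨ K = commutator T

/-- 2-generated groups whose commutator subgroup is a minimal normal subgroup -/
def Good2 (T : Type) [Group T] : Prop :=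
  (∃ a b : T, Subgroup.closure {a, b} = ⊤) ∧ commutator T ≠ ⊥ ∧
    ∀ K : Subgroup T, K.Normal → K ≤ commutator T → K = ⊥ ∨ K = commutator T

/-- complete list (without repetition) of the nonabelian finite simple quotients of `X` -/
def Spec (X : Type) [Group X] [TopologicalSpace X] (J : Type) (S : J → Type)
    [∀ j, Group (S j)] : Prop :=
  ∃ f : ∀ j, X →* S j, (∀ j, Function.Surjective (f j)) ∧ (∀ j, OK (f j)) ∧
    (∀ i j, (f i).ker = (f j).ker → i = j) ∧
    ∀ (T : Type) [Group T] [Finite T] (g : X →* T), IsSimpleGroup T → (∃ a b : T, a * b ≠ b * a) →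
      Function.Surjective g → OK g → ∃ j, (f j).ker = g.ker

/-- minimal closed normal subgroup surjecting onto all the commutator subgroups -/
structure MinSub {G : Type} [Group G] [TopologicalSpace G] [IsTopologicalGroup G] {I : Type}
    (T : I → Type) [∀ i, Group (T i)] (τ : ∀ i, G →* T i) (M : Subgroup G) : Prop where
  nor : M.Normal
  clo : IsClosed (M : Set G)
  com : M ≤ (commutator G).topologicalClosure
  map : ∀ i, M.map (τ i) = commutator (T i)
  min : ∀ K : Subgroup G, K.Normal → IsClosed (K : Set G) → K ≤ M → K ≠ M →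
    ∃ i, K ≤ (τ i).ker

end Pool.Agent.Helper691.NS
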