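import Pool.Agent.Helper691.NS.Defs

set_option autoImplicit false
open Filter Topology

namespace Pool.Agent.Helper691.NS

theorem exists_maxNormal {A : Type} [Group A] [Finite A] (N : Subgroup A) (hN : N.Normal)
    (h : N ≠ ⊤) : ∃ L : Subgroup A, MaxNormal L ∧ N ≤ L := by
  have hfin : {K : Subgroup A | K.Normal ∧ K ≠ ⊤}.Finite := Set.toFinite _
  obtain ⟨L, hNL, hL⟩ := hfin.exists_le_maximal (show N ∈ {K : Subgroup A | K.Normal ∧ K ≠ ⊤} from ⟨hN, h⟩)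
  refine ⟨L, ⟨hL.prop.1, hL.prop.2, ?_⟩, hNL⟩
  intro K hK hLK hKt
  exact le_antisymm (hL.le_of_ge ⟨hK, hKt⟩ hLK) hLK

end Pool.Agent.Helper691.NS
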