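import Pool.Agent.Helper691.NS.Defs
import Pool.Agent.Helper691.NS.Small_normal
import Pool.Agent.Helper691.NS.Ext_sup
import Pool.Agent.Helper691.NS.Exists_maxNormal

set_option autoImplicit false
open Filter Topology

namespace Pool.Agent.Helper691.NS

theorem ep_of_nlift {E : Type} [Group E] [TopologicalSpace E] [IsTopologicalGroup E] [CompactSpace E]
    [T2Space E] [TotallyDisconnectedSpace E] (N : Subgroup E) (hN : N.Normal) (h : NLift N) : EP N := by
  intro A B _ _ _ _ α φ hα hk hφ hok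
  obtain ⟨V₀, hV₀n, hV₀o, hV₀⟩ := ext_sup N φ hok
  obtain ⟨V, hVn, hVo, hVV, hL⟩ := h (Nat.card A) V₀ hV₀n hV₀o
  obtain ⟨φ', hφ'o, hφ'N, hφ'V⟩ := hV₀ V hVn hVo hVV
  have hφ's : Function.Surjective φ' := by
    intro b
    obtain ⟨x, hx⟩ := hφ b
    exact ⟨_, (hφ'N x).trans hx⟩
  obtain ⟨ψ', hψ's, hψ'o, hψ'⟩ := hL A B α φ' le_rfl hα hφ's hφ'o
  let inc : N →* ↥(N ⊔ V) := Subgroup.inclusion le_sup_left
  have hinc : ∀ x : N, inc x = ⟨x.1, Subgroup.mem_sup_left x.2⟩ := fun x => rfl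
  have hcomp : ∀ x : N, α (ψ' (inc x)) = φ x := by
    intro x
    have h1 : α (ψ' (inc x)) = φ' (inc x) := by
      rw [← hψ']; rfl
    rw [h1, hinc, hφ'N]
  have hcont : Continuous (fun x : N => (inc x : ↥(N ⊔ V))) := by
    refine Continuous.subtype_mk continuous_subtype_val _
  refine ⟨ψ'.comp inc, ?_, ?_, ?_⟩
  · rw [← MonoidHom.range_eq_top]
    by_contra hne
    have hnorm : (ψ'.comp inc).range.Normal := by
      have h1 : (ψ'.comp inc).range = ((N.subgroupOf (N ⊔ V)).map ψ') := by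
        ext a
        constructor
        · rintro ⟨x, rfl⟩
          exact Subgroup.mem_map_of_mem ψ' (show (inc x) ∈ N.subgroupOf (N ⊔ V) from x.2)
        · rintro ⟨y, hy, rfl⟩
          exact ⟨⟨y.1, hy⟩, rfl⟩
      rw [h1]
      have h2 : (N.subgroupOf (N ⊔ V)).Normal := hN.subgroupOf _
      exact h2.map ψ' hψ's
    obtain ⟨L, hLm, hLr⟩ := exists_maxNormal _ hnorm hne
    apply hLm.2.1
    rw [eq_top_iff]
    intro a _
    obtain ⟨x, hx⟩ := hφ (α a)
    have h3 : (ψ' (inc x))⁻¹ * a ∈ α.ker := by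
      rw [MonoidHom.mem_ker, map_mul, map_inv, hcomp, hx]
      simp
    have h4 : (ψ' (inc x))⁻¹ * a ∈ L := by
      have h5 := hk h3
      unfold Mel at h5
      exact (Subgroup.mem_sInf.1 h5) L hLm
    have h6 : ψ' (inc x) ∈ L := hLr ⟨x, rfl⟩
    have h7 := L.mul_mem h6 h4
    simpa using h7
  · unfold OK at *
    have h8 : (((ψ'.comp inc).ker : Subgroup N) : Set N) = (fun x : N => (inc x : ↥(N ⊔ V))) ⁻¹' (ψ'.ker : Set ↥(N ⊔ V)) := by
      ext x
      simp [MonoidHom.mem_ker]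
    rw [h8]
    exact hψ'o.preimage hcont
  · ext x
    exact hcomp x

end Pool.Agent.Helper691.NS
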