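import Pool.Agent.Helper691.NS.Defs
import Pool.Agent.Helper691.NS.Exists_maxNormal

set_option autoImplicit false
open Filter Topology

namespace Pool.Agent.Helper691.NS

theorem mel_bot_of_surj_mem {G : Type} [Group G] (A B : Subgroup G) (hB : B.Normal) {x : G}
    (hx : x ∈ A ⊔ B) : ∃ a ∈ A, ∃ b ∈ B, x = a * b := by
  have h1 : x ∈ ((A ⊔ B : Subgroup G) : Set G) := hx
  rw [Subgroup.mul_normal] at h1
  obtain ⟨a, ha, b, hb, hab⟩ := h1
  exact ⟨a, ha, b, hb, hab.symm⟩

theorem mel_bot_of_surj_top {G : Type} [Group G] {M0 N : Subgroup G} (hM : MaxNormal M0)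
    (hN : N.Normal) {x : G} (hx : x ∈ N) (hx0 : x ∉ M0) : M0 ⊔ N = ⊤ := by
  by_contra hne
  have := hM.1
  have := hN
  have h1 := hM.2.2 (M0 ⊔ N) inferInstance le_sup_left hne
  apply hx0
  rw [← h1]
  exact (le_sup_right : N ≤ M0 ⊔ N) hx

theorem mel_bot_of_surj_ex {G : Type} [Group G] (h : Mel G = ⊥) {x : G} (hx : x ≠ 1) :
    ∃ M : Subgroup G, MaxNormal M ∧ x ∉ M := by
  by_contra hcon
  push Not at hcon
  apply hx
  have h1 : x ∈ Mel G := by
    unfold Mel
    rw [Subgroup.mem_sInf]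
    exact fun M hM => hcon M hM
  rw [h] at h1
  exact Subgroup.mem_bot.mp h1

theorem mel_bot_of_surj_key {G : Type} [Group G] [Finite G] (K : Subgroup G) (hK : K.Normal)
    (h : Mel G = ⊥) (g : G) (hg : ∀ M : Subgroup G, MaxNormal M → K ≤ M → g ∈ M) : g ∈ K := by
  have hfin : {L : Subgroup G | L.Normal ∧ L ⊔ K = ⊤}.Finite := Set.toFinite _
  have hne : {L : Subgroup G | L.Normal ∧ L ⊔ K = ⊤}.Nonempty :=
    ⟨⊤, inferInstance, top_sup_eq K⟩
  obtain ⟨L, hL⟩ := hfin.exists_minimal hne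
  obtain ⟨⟨hLn, hLK⟩, hmin⟩ := hL
  have hdisj : L ⊓ K = ⊥ := by
    rw [Subgroup.eq_bot_iff_forall]
    intro x hx
    by_contra hx1
    obtain ⟨M0, hM0, hxM⟩ := mel_bot_of_surj_ex h hx1
    have := hM0.1
    have := hLn
    have := hK
    have htop : M0 ⊔ (L ⊓ K) = ⊤ := mel_bot_of_surj_top hM0 inferInstance hx hxM
    have hle : L ≤ (L ⊓ M0) ⊔ K := by
      intro l hl
      have h1 : l ∈ M0 ⊔ (L ⊓ K) := by rw [htop]; trivial
      obtain ⟨m, hm, z, hz, hmz⟩ := mel_bot_of_surj_mem M0 (L ⊓ K) inferInstance h1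
      have hmL : m ∈ L := by
        have : m = l * z⁻¹ := by rw [hmz]; group
        rw [this]
        exact L.mul_mem hl (L.inv_mem hz.1)
      rw [hmz]
      exact mul_mem ((le_sup_left : L ⊓ M0 ≤ (L ⊓ M0) ⊔ K) ⟨hmL, hm⟩)
        ((le_sup_right : K ≤ (L ⊓ M0) ⊔ K) hz.2)
    have hmem : (L ⊓ M0) ∈ {L : Subgroup G | L.Normal ∧ L ⊔ K = ⊤} := by
      refine ⟨inferInstance, top_unique ?_⟩
      rw [← hLK]
      exact sup_le hle le_sup_right
    have := hmin hmem inf_le_left
    exact hxM (this hx.1).2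
  have hgtop : g ∈ L ⊔ K := by rw [hLK]; trivial
  obtain ⟨l, hl, k, hk, hgk⟩ := mel_bot_of_surj_mem L K hK hgtop
  by_cases hl1 : l = 1
  · rw [hgk, hl1, one_mul]
    exact hk
  · exfalso
    obtain ⟨M0, hM0, hlM⟩ := mel_bot_of_surj_ex h hl1
    have := hM0.1
    have := hLn
    have := hK
    have hlM1 : l ∉ (L ⊓ M0) ⊔ K := by
      intro hmem
      obtain ⟨a, ha, b, hb, hab⟩ := mel_bot_of_surj_mem (L ⊓ M0) K hK hmem
      have hbL : b ∈ L := by
        have : b = a⁻¹ * l := by rw [hab]; group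
        rw [this]
        exact L.mul_mem (L.inv_mem ha.1) hl
      have hb1 : b ∈ L ⊓ K := ⟨hbL, hb⟩
      rw [hdisj] at hb1
      have hb2 : b = 1 := Subgroup.mem_bot.mp hb1
      rw [hb2, mul_one] at hab
      rw [hab] at hlM
      exact hlM ha.2
    have hM1n : ((L ⊓ M0) ⊔ K).Normal := inferInstance
    have hM1t : (L ⊓ M0) ⊔ K ≠ ⊤ := by
      intro htop
      apply hlM1
      rw [htop]
      trivial
    obtain ⟨M2, hM2, hM12⟩ := exists_maxNormal _ hM1n hM1t
    have := hM2.1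
    have hKM2 : K ≤ M2 := le_sup_right.trans hM12
    have hgM2 := hg M2 hM2 hKM2
    have hlM2 : l ∈ M2 := by
      have : l = g * k⁻¹ := by rw [hgk]; group
      rw [this]
      exact M2.mul_mem hgM2 (M2.inv_mem (hKM2 hk))
    have htop : M0 ⊔ (L ⊓ M2) = ⊤ :=
      mel_bot_of_surj_top hM0 (N := L ⊓ M2) inferInstance ⟨hl, hlM2⟩ hlM
    have hLM2 : L ≤ M2 := by
      intro y hy
      have h1 : y ∈ M0 ⊔ (L ⊓ M2) := by rw [htop]; trivial
      obtain ⟨m, hm, z, hz, hmz⟩ := mel_bot_of_surj_mem M0 (L ⊓ M2) inferInstance h1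
      have hmL : m ∈ L := by
        have : m = y * z⁻¹ := by rw [hmz]; group
        rw [this]
        exact L.mul_mem hy (L.inv_mem hz.1)
      rw [hmz]
      exact M2.mul_mem (hM12 ((le_sup_left : L ⊓ M0 ≤ (L ⊓ M0) ⊔ K) ⟨hmL, hm⟩)) hz.2
    apply hM2.2.1
    apply top_unique
    rw [← hLK]
    exact sup_le hLM2 hKM2

theorem mel_bot_of_surj {G H : Type} [Group G] [Group H] [Finite G] (f : G →* H)
    (hf : Function.Surjective f) (h : Mel G = ⊥) : Mel H = ⊥ := by
  rw [Subgroup.eq_bot_iff_forall]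
  intro y hy
  obtain ⟨g, rfl⟩ := hf y
  have hg : g ∈ f.ker := by
    apply mel_bot_of_surj_key f.ker inferInstance h g
    intro M hM hKM
    have hback : ∀ x : G, f x ∈ M.map f → x ∈ M := by
      rintro x ⟨m, hm, hmx⟩
      have hk : m⁻¹ * x ∈ f.ker := by
        rw [MonoidHom.mem_ker, map_mul, map_inv, hmx, inv_mul_cancel]
      have : x = m * (m⁻¹ * x) := by group
      rw [this]
      exact M.mul_mem hm (hKM hk)
    have hmax : MaxNormal (M.map f) := by
      refine ⟨hM.1.map f hf, ?_, ?_⟩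
      · intro htop
        apply hM.2.1
        apply top_unique
        intro x _
        apply hback
        rw [htop]
        trivial
      · intro Z hZ hMZ hZt
        have hc1 : (Z.comap f).Normal := hZ.comap f
        have hc2 : M ≤ Z.comap f := Subgroup.map_le_iff_le_comap.mp hMZ
        have hc3 : Z.comap f ≠ ⊤ := by
          intro htop
          apply hZt
          apply top_unique
          intro z _
          obtain ⟨x, rfl⟩ := hf z
          have : x ∈ Z.comap f := by rw [htop]; trivial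
          exact this
        have hc4 := hM.2.2 _ hc1 hc2 hc3
        rw [← hc4, Subgroup.map_comap_eq_self_of_surjective hf]
    apply hback
    have hy' : f g ∈ sInf {L | MaxNormal L} := hy
    rw [Subgroup.mem_sInf] at hy'
    exact hy' _ hmax
  exact hg

end Pool.Agent.Helper691.NS
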