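import Pool.Agent.Helper691.NS.Defs

set_option autoImplicit false
open Filter Topology

namespace Pool.Agent.Helper691.NS

theorem mel_map_le_comap {A C : Type} [Group A] [Group C] (q : C →* A)
    (hq : Function.Surjective q) (L : Subgroup A) (hL : MaxNormal L) : MaxNormal (L.comap q) := by
  obtain ⟨hn, hne, hmax⟩ := hL
  haveI := hn
  have hLL : (L.comap q).map q = L := Subgroup.map_comap_eq_self_of_surjective hq L
  have hker : q.ker ≤ L.comap q := by
    intro x hx
    rw [Subgroup.mem_comap, (MonoidHom.mem_ker).mp hx]
    exact L.one_mem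
  refine ⟨Subgroup.Normal.comap hn q, ?_, ?_⟩
  · intro h
    apply hne
    rw [← hLL, h, Subgroup.map_top_of_surjective q hq]
  · intro K hK hle hKt
    have hKK : (K.map q).comap q = K := Subgroup.comap_map_eq_self (hker.trans hle)
    have h1 : K.map q = L := by
      apply hmax _ (Subgroup.Normal.map hK q hq)
      · rw [← hLL]; exact Subgroup.map_mono hle
      · intro h
        apply hKt
        rw [← hKK, h, Subgroup.comap_top]
    rw [← hKK, h1]

theorem mel_map_le {A C : Type} [Group A] [Group C] (q : C →* A) (hq : Function.Surjective q) :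
    (Mel C).map q ≤ Mel A := by
  rintro _ ⟨c, hc, rfl⟩
  unfold Mel
  rw [Subgroup.mem_sInf]
  intro L hL
  have h1 : MaxNormal (L.comap q) := mel_map_le_comap q hq L hL
  have hc' : c ∈ sInf {L : Subgroup C | MaxNormal L} := hc
  rw [Subgroup.mem_sInf] at hc'
  exact hc' _ h1

end Pool.Agent.Helper691.NS
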