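import Pool.Agent.Helper691.NS.Defs

set_option autoImplicit false
open Filter Topology

namespace Pool.Agent.Helper691.NS

theorem mel_of_ker {C D : Type} [Group C] [Group D] (r : C →* D) (hr : Function.Surjective r)
    (hrk : r.ker = Mel C) : Mel D = ⊥ := by
  rw [eq_bot_iff]
  intro d hd
  obtain ⟨c, rfl⟩ := hr d
  rw [Subgroup.mem_bot, ← MonoidHom.mem_ker, hrk]
  unfold Mel
  rw [Subgroup.mem_sInf]
  intro L hL
  have hLm : L ∈ {L : Subgroup C | MaxNormal L} := hL
  obtain ⟨hn, hne, hmax⟩ := (show MaxNormal L from hL)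
  have hker : r.ker ≤ L := by
    rw [hrk]
    exact sInf_le hLm
  have hLL : (L.map r).comap r = L := Subgroup.comap_map_eq_self hker
  have hM : MaxNormal (L.map r) := by
    refine ⟨Subgroup.Normal.map hn r hr, ?_, ?_⟩
    · intro h
      apply hne
      rw [← hLL, h, Subgroup.comap_top]
    · intro K hK hle hKt
      have hKK : (K.comap r).map r = K := Subgroup.map_comap_eq_self_of_surjective hr K
      have h1 : K.comap r = L := by
        apply hmax _ (Subgroup.Normal.comap hK r)
        · rw [← hLL]; exact Subgroup.comap_mono hle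
        · intro h
          apply hKt
          rw [← hKK, h, Subgroup.map_top_of_surjective r hr]
      rw [← hKK, h1]
  have hd' : r c ∈ sInf {L : Subgroup D | MaxNormal L} := hd
  rw [Subgroup.mem_sInf] at hd'
  have h2 : r c ∈ L.map r := hd' _ hM
  rw [← Subgroup.mem_comap, hLL] at h2
  exact h2

end Pool.Agent.Helper691.NS
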