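import Pool.Agent.Helper691.NS.Defs
import Pool.Agent.Helper691.NS.Mel_map_le
import Pool.Agent.Helper691.NS.Mel_of_ker
import Pool.Agent.Helper691.NS.Mel_bot_of_surj

set_option autoImplicit false
open Filter Topology

namespace Pool.Agent.Helper691.NS

theorem mel_map_eq {A C : Type} [Group A] [Group C] [Finite C] (q : C →* A)
    (hq : Function.Surjective q) : (Mel C).map q = Mel A := by
  apply le_antisymm (mel_map_le q hq)
  haveI hCn : (Mel C).Normal := by
    constructor
    intro n hn g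
    have hn' : n ∈ sInf {L : Subgroup C | MaxNormal L} := hn
    show g * n * g⁻¹ ∈ sInf {L : Subgroup C | MaxNormal L}
    rw [Subgroup.mem_sInf] at hn' ⊢
    intro L hL
    exact hL.1.conj_mem n (hn' L hL) g
  haveI hZn : ((Mel C).map q).Normal := Subgroup.Normal.map hCn q hq
  have h1 : Mel (C ⧸ Mel C) = ⊥ :=
    mel_of_ker (QuotientGroup.mk' (Mel C)) (QuotientGroup.mk'_surjective _)
      (QuotientGroup.ker_mk' _)
  have hle : Mel C ≤ ((Mel C).map q).comap q := Subgroup.le_comap_map q (Mel C)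
  have hsurj : Function.Surjective (QuotientGroup.map (Mel C) ((Mel C).map q) q hle) := by
    intro y
    obtain ⟨a, rfl⟩ := QuotientGroup.mk_surjective y
    obtain ⟨c, rfl⟩ := hq a
    exact ⟨(c : C ⧸ Mel C), rfl⟩
  haveI : Finite (C ⧸ Mel C) := Quotient.finite _
  have h2 : Mel (A ⧸ (Mel C).map q) = ⊥ := mel_bot_of_surj _ hsurj h1
  have h3 := mel_map_le (QuotientGroup.mk' ((Mel C).map q)) (QuotientGroup.mk'_surjective _)
  rw [h2] at h3
  intro a ha
  have h4 : QuotientGroup.mk' ((Mel C).map q) a ∈ (⊥ : Subgroup (A ⧸ (Mel C).map q)) :=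
    h3 (Subgroup.mem_map_of_mem _ ha)
  rw [Subgroup.mem_bot] at h4
  exact (QuotientGroup.eq_one_iff a).mp h4

end Pool.Agent.Helper691.NS
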