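import Pool.Agent.Helper691.NS.Defs
import Pool.Agent.Helper691.NS.Mel_map_le
import Pool.Agent.Helper691.NS.Mel_of_ker
import Pool.Agent.Helper691.NS.Mel_bot_of_surj
import Pool.Agent.Helper691.NS.Mel_map_eq

set_option autoImplicit false
open Filter Topology

namespace Pool.Agent.Helper691.NS

theorem fiber {A C D Y : Type} [Group A] [Group C] [Group D] [Group Y] [Finite C]
    (q : C →* A) (r : C →* D) (β : Y →* A) (δ : Y →* D) (hq : Function.Surjective q)
    (hr : Function.Surjective r) (hrk : r.ker = Mel C) (hβ : Function.Surjective β)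
    (hδ : Function.Surjective δ)
    (compat : ∀ y c, r c = δ y → (q c)⁻¹ * β y ∈ Mel A) :
    (q.prod r).range = (β.prod δ).range := by
  apply le_antisymm
  · haveI hZn : ((δ.ker).map β).Normal := Subgroup.Normal.map inferInstance β hβ
    have hinv : Function.RightInverse (Function.surjInv hδ) δ := Function.rightInverse_surjInv hδ
    have hk : δ.ker ≤ ((QuotientGroup.mk' ((δ.ker).map β)).comp β).ker := by
      intro y hy
      rw [MonoidHom.mem_ker, MonoidHom.comp_apply]
      exact (QuotientGroup.eq_one_iff (β y)).mpr (Subgroup.mem_map_of_mem β hy)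
    let h : D →* A ⧸ (δ.ker).map β :=
      δ.liftOfRightInverse (Function.surjInv hδ) hinv ⟨_, hk⟩
    have hh : ∀ y, h (δ y) = QuotientGroup.mk' ((δ.ker).map β) (β y) := fun y =>
      δ.liftOfRightInverse_comp_apply (Function.surjInv hδ) hinv ⟨_, hk⟩ y
    have hsurj : Function.Surjective h := by
      intro a
      obtain ⟨b, rfl⟩ := QuotientGroup.mk'_surjective ((δ.ker).map β) a
      obtain ⟨y, rfl⟩ := hβ b
      exact ⟨δ y, hh y⟩
    haveI : Finite D := Finite.of_surjective r hr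
    have h1 : Mel D = ⊥ := mel_of_ker r hr hrk
    have h2 : Mel (A ⧸ (δ.ker).map β) = ⊥ := mel_bot_of_surj h hsurj h1
    have h3 := mel_map_le (QuotientGroup.mk' ((δ.ker).map β)) (QuotientGroup.mk'_surjective _)
    rw [h2] at h3
    rintro _ ⟨c, rfl⟩
    obtain ⟨y, hy⟩ := hδ (r c)
    have h4 := compat y c hy.symm
    have h5 : QuotientGroup.mk' ((δ.ker).map β) ((q c)⁻¹ * β y) ∈
        (⊥ : Subgroup (A ⧸ (δ.ker).map β)) := h3 (Subgroup.mem_map_of_mem _ h4)
    rw [Subgroup.mem_bot] at h5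
    have h6 : (q c)⁻¹ * β y ∈ (δ.ker).map β := (QuotientGroup.eq_one_iff _).mp h5
    obtain ⟨y', hy', hy''⟩ := h6
    have hy1 : δ y' = 1 := hy'
    refine ⟨y * y'⁻¹, ?_⟩
    rw [MonoidHom.prod_apply, MonoidHom.prod_apply, Prod.mk.injEq]
    refine ⟨?_, ?_⟩
    · rw [map_mul, map_inv, hy'']
      group
    · rw [map_mul, map_inv, hy1, inv_one, mul_one, hy]
  · rintro _ ⟨y, rfl⟩
    obtain ⟨c, hc⟩ := hr (δ y)
    have h1 := compat y c hc
    rw [← mel_map_eq q hq] at h1
    obtain ⟨m, hm, hm'⟩ := h1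
    have hrm : r m = 1 := by
      rw [← MonoidHom.mem_ker, hrk]; exact hm
    refine ⟨c * m, ?_⟩
    rw [MonoidHom.prod_apply, MonoidHom.prod_apply, Prod.mk.injEq]
    refine ⟨?_, ?_⟩
    · rw [map_mul, hm']
      group
    · rw [map_mul, hrm, mul_one, hc]

end Pool.Agent.Helper691.NS
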