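import Pool.Agent.Helper691.NS.Defs

set_option autoImplicit false
open Filter Topology

namespace Pool.Agent.Helper691.NS

theorem transfer {X Y P : Type} [Group X] [TopologicalSpace X] [IsTopologicalGroup X]
    [CompactSpace X] [Group Y] [TopologicalSpace Y] [Group P] [TopologicalSpace P]
    [IsTopologicalGroup P] [T2Space P]
    (πX : X →* P) (πY : Y →* P) (hX : Function.Surjective πX) (hY : Function.Surjective πY)
    (cX : Continuous πX) (cY : Continuous πY) {D : Type} [Group D] (g : X →* D)
    (hg : Function.Surjective g) (hgo : OK g) (hk : πX.ker ≤ g.ker) :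
    ∃ δ : Y →* D, Function.Surjective δ ∧ OK δ ∧ ∀ x y, πX x = πY y → g x = δ y := by
  have hinv : Function.RightInverse (Function.surjInv hX) πX := Function.rightInverse_surjInv hX
  let gh : P →* D := πX.liftOfRightInverse (Function.surjInv hX) hinv ⟨g, hk⟩
  have hgh : ∀ x, gh (πX x) = g x := fun x =>
    πX.liftOfRightInverse_comp_apply (Function.surjInv hX) hinv ⟨g, hk⟩ x
  have hqm : Topology.IsQuotientMap πX := (cX.isClosedMap).isQuotientMap cX hX
  have hopen : IsOpen (gh.ker : Set P) := by
    rw [← hqm.isOpen_preimage]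
    have : πX ⁻¹' (gh.ker : Set P) = (g.ker : Set X) := by
      ext x
      simp only [Set.mem_preimage, SetLike.mem_coe, MonoidHom.mem_ker, hgh]
    rw [this]
    exact hgo
  refine ⟨gh.comp πY, ?_, ?_, ?_⟩
  · intro d
    obtain ⟨x, rfl⟩ := hg d
    obtain ⟨y, hy⟩ := hY (πX x)
    exact ⟨y, by rw [MonoidHom.comp_apply, hy, hgh]⟩
  · have : ((gh.comp πY).ker : Set Y) = πY ⁻¹' (gh.ker : Set P) := by
      ext y
      simp only [Set.mem_preimage, SetLike.mem_coe, MonoidHom.mem_ker, MonoidHom.comp_apply]
    unfold OK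
    rw [this]
    exact hopen.preimage cY
  · intro x y hxy
    rw [MonoidHom.comp_apply, ← hxy, hgh]

end Pool.Agent.Helper691.NS
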