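import Pool.Agent.Helper691.NS.Defs
import Pool.Agent.Helper691.NS.Mel_map_le
import Pool.Agent.Helper691.NS.Mel_of_ker
import Pool.Agent.Helper691.NS.Mel_bot_of_surj
import Pool.Agent.Helper691.NS.Mel_map_eq
import Pool.Agent.Helper691.NS.Fiber
import Pool.Agent.Helper691.NS.Transfer

set_option autoImplicit false
open Filter Topology

namespace Pool.Agent.Helper691.NS

theorem ep_step {X Y P : Type} [Group X] [TopologicalSpace X] [IsTopologicalGroup X]
    [CompactSpace X] [Group Y] [TopologicalSpace Y] [IsTopologicalGroup Y] [Group P]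
    [TopologicalSpace P] [IsTopologicalGroup P] [T2Space P]
    (πX : X →* P) (πY : Y →* P) (hX : Function.Surjective πX) (hY : Function.Surjective πY)
    (cX : Continuous πX) (cY : Continuous πY) (hEP : EP Y) (hU : MelUniv πX)
    {A C : Type} [Group A] [Group C] [Finite A] [Finite C]
    (qX : X →* A) (qY : Y →* A) (hqX : Function.Surjective qX) (hqY : Function.Surjective qY)
    (oX : OK qX) (oY : OK qY)
    (compat : ∀ x y, πX x = πY y → (qX x)⁻¹ * qY y ∈ Mel A)
    (rX : X →* C) (hrX : Function.Surjective rX) (orX : OK rX) (ρ : C →* A)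
    (hρ : ρ.comp rX = qX) :
    ∃ ψ : Y →* C, Function.Surjective ψ ∧ OK ψ ∧ ρ.comp ψ = qY ∧
      ∀ x y, πX x = πY y → (rX x)⁻¹ * ψ y ∈ Mel C := by
  haveI hCn : (Mel C).Normal := by
    constructor
    intro n hn g
    have hn' : n ∈ sInf {L : Subgroup C | MaxNormal L} := hn
    show g * n * g⁻¹ ∈ sInf {L : Subgroup C | MaxNormal L}
    rw [Subgroup.mem_sInf] at hn' ⊢
    intro L hL
    exact hL.1.conj_mem n (hn' L hL) g
  have hr : Function.Surjective (QuotientGroup.mk' (Mel C)) := QuotientGroup.mk'_surjective _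
  have hrk : (QuotientGroup.mk' (Mel C)).ker = Mel C := QuotientGroup.ker_mk' _
  generalize hrdef : QuotientGroup.mk' (Mel C) = r at hr hrk
  haveI : Finite (C ⧸ Mel C) := Quotient.finite _
  have hMD : Mel (C ⧸ Mel C) = ⊥ := mel_of_ker r hr hrk
  have hgs : Function.Surjective (r.comp rX) := by
    intro d
    obtain ⟨c, rfl⟩ := hr d
    obtain ⟨x, rfl⟩ := hrX c
    exact ⟨x, rfl⟩
  have hgo : OK (r.comp rX) := by
    refine Subgroup.isOpen_mono ?_ orX
    intro x hx
    rw [MonoidHom.mem_ker] at hx ⊢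
    rw [MonoidHom.comp_apply, hx, map_one]
  have hk : πX.ker ≤ (r.comp rX).ker := hU _ _ hgs hgo hMD
  obtain ⟨δ, hδs, hδo, hδ⟩ := transfer πX πY hX hY cX cY (r.comp rX) hgs hgo hk
  have hρx : ∀ x, ρ (rX x) = qX x := fun x => by rw [← hρ]; rfl
  have hρs : Function.Surjective ρ := by
    intro a
    obtain ⟨x, rfl⟩ := hqX a
    exact ⟨rX x, hρx x⟩
  have hcompat : ∀ y c, r c = δ y → (ρ c)⁻¹ * qY y ∈ Mel A := by
    intro y c hc
    obtain ⟨x, hx⟩ := hX (πY y)
    have h1 : r (rX x) = r c := by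
      rw [hc]; exact hδ x y hx
    have h2 : c⁻¹ * rX x ∈ Mel C := by
      rw [← hrk, MonoidHom.mem_ker, map_mul, map_inv, h1, inv_mul_cancel]
    have h3 : ρ (c⁻¹ * rX x) ∈ Mel A := mel_map_le ρ hρs (Subgroup.mem_map_of_mem ρ h2)
    rw [map_mul, map_inv, hρx] at h3
    have h4 := compat x y hx
    have h5 := (Mel A).mul_mem h3 h4
    have h6 : (ρ c)⁻¹ * qX x * ((qX x)⁻¹ * qY y) = (ρ c)⁻¹ * qY y := by group
    rw [h6] at h5
    exact h5
  have hR := fiber ρ r qY δ hρs hr hrk hqY hδs hcompat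
  have hαk : ((ρ.prod r).rangeRestrict).ker ≤ Mel C := by
    intro c hc
    rw [MonoidHom.ker_rangeRestrict, MonoidHom.mem_ker, MonoidHom.prod_apply, Prod.mk_eq_one] at hc
    rw [← hrk]
    exact hc.2
  have hmem : ∀ y, (qY.prod δ) y ∈ (ρ.prod r).range := by
    intro y
    rw [hR]
    exact ⟨y, rfl⟩
  have hφs : Function.Surjective ((qY.prod δ).codRestrict (ρ.prod r).range hmem) := by
    rintro ⟨z, hz⟩
    have hz' := hz
    rw [hR] at hz'
    obtain ⟨y, rfl⟩ := hz'
    exact ⟨y, rfl⟩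
  have hφo : OK ((qY.prod δ).codRestrict (ρ.prod r).range hmem) := by
    have h1 : IsOpen ((qY.ker ⊓ δ.ker : Subgroup Y) : Set Y) := by
      rw [Subgroup.coe_inf]
      exact IsOpen.inter oY hδo
    refine Subgroup.isOpen_mono ?_ h1
    intro y hy
    obtain ⟨hy1, hy2⟩ := hy
    have hy1' : qY y = 1 := hy1
    have hy2' : δ y = 1 := hy2
    rw [MonoidHom.mem_ker]
    apply Subtype.ext
    show (qY y, δ y) = 1
    rw [hy1', hy2']
    rfl
  obtain ⟨ψ, hψs, hψo, hψ⟩ := hEP C (ρ.prod r).range (ρ.prod r).rangeRestrict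
    ((qY.prod δ).codRestrict (ρ.prod r).range hmem) (ρ.prod r).rangeRestrict_surjective hαk hφs hφo
  have hψy : ∀ y, (ρ (ψ y), r (ψ y)) = (qY y, δ y) := by
    intro y
    have := DFunLike.congr_fun hψ y
    have := congrArg Subtype.val this
    exact this
  refine ⟨ψ, hψs, hψo, ?_, ?_⟩
  · ext y
    exact (Prod.mk.inj (hψy y)).1
  · intro x y hxy
    have h1 : r (ψ y) = δ y := (Prod.mk.inj (hψy y)).2
    have h2 : r (rX x) = δ y := hδ x y hxy
    rw [← hrk, MonoidHom.mem_ker, map_mul, map_inv, h1, h2, inv_mul_cancel]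

end Pool.Agent.Helper691.NS
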