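import Pool.Agent.Helper691.NS.Defs

set_option autoImplicit false
open Filter Topology

namespace Pool.Agent.Helper691.NS

theorem fin_gen {n : ℕ} {G : Type} [Group G] [TopologicalSpace G] [IsTopologicalGroup G]
    (ι : Fin n → G) (hG : FreeFin n G ι) (H : Type) [Group H] [Finite H] (φ : G →* H)
    (hφ : OK φ) : Subgroup.closure (Set.range fun i => φ (ι i)) = φ.range := by
  apply le_antisymm
  · rw [Subgroup.closure_le]
    rintro _ ⟨i, rfl⟩
    exact ⟨ι i, rfl⟩
  · obtain ⟨K, hK⟩ : ∃ K : Subgroup H, K = Subgroup.closure (Set.range fun i => φ (ι i)) :=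
      ⟨_, rfl⟩
    rw [← hK]
    have hmem : ∀ i, φ (ι i) ∈ K := fun i => by
      rw [hK]; exact Subgroup.subset_closure ⟨i, rfl⟩
    obtain ⟨φ', h1, h2⟩ := hG.ex K (fun i => ⟨φ (ι i), hmem i⟩)
    have hker : (K.subtype.comp φ').ker = φ'.ker := by
      ext x
      rw [MonoidHom.mem_ker, MonoidHom.mem_ker, MonoidHom.comp_apply]
      constructor
      · intro h
        exact Subtype.ext h
      · intro h
        rw [h]; rfl
    have h3 : OK (K.subtype.comp φ') := by
      unfold OK
      rw [hker]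
      exact h1
    have h4 := hG.uniq H (K.subtype.comp φ') φ h3 hφ (fun i => by
      rw [MonoidHom.comp_apply, h2]; rfl)
    rintro _ ⟨g, rfl⟩
    rw [← h4]
    exact (φ' g).2

end Pool.Agent.Helper691.NS
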