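import Pool.Agent.Helper691.NS.Defs

set_option autoImplicit false
open Filter Topology

namespace Pool.Agent.Helper691.NS

theorem indep_prime' {X : Type} [Group X] {T : Type} [Group T] (f : X →* T)
    (hf : Function.Surjective f) (hT : IsSimpleGroup T) (hna : ∃ a b : T, a * b ≠ b * a)
    (A B : Subgroup X) (hA : A.Normal) (hB : B.Normal) (h : A ⊓ B ≤ f.ker) :
    A ≤ f.ker ∨ B ≤ f.ker := by
  have hAn : (A.map f).Normal := hA.map f hf
  have hBn : (B.map f).Normal := hB.map f hf
  rcases hT.eq_bot_or_eq_top_of_normal _ hAn with h1 | h1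
  · left; exact (Subgroup.map_eq_bot_iff A).mp h1
  · rcases hT.eq_bot_or_eq_top_of_normal _ hBn with h2 | h2
    · right; exact (Subgroup.map_eq_bot_iff B).mp h2
    · exfalso
      obtain ⟨a, b, hab⟩ := hna
      apply hab
      obtain ⟨x, hx, rfl⟩ : a ∈ A.map f := by rw [h1]; trivial
      obtain ⟨y, hy, rfl⟩ : b ∈ B.map f := by rw [h2]; trivial
      have hc : x * y * x⁻¹ * y⁻¹ ∈ A ⊓ B := by
        refine ⟨?_, ?_⟩
        · have : x * y * x⁻¹ * y⁻¹ = x * (y * x⁻¹ * y⁻¹) := by group
          rw [this]
          exact A.mul_mem hx (hA.conj_mem _ (A.inv_mem hx) y)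
        · exact B.mul_mem (hB.conj_mem _ hy x) (B.inv_mem hy)
      have h3 := h hc
      rw [MonoidHom.mem_ker, map_mul, map_mul, map_mul, map_inv, map_inv] at h3
      have := mul_inv_eq_one.mp h3
      exact mul_inv_eq_iff_eq_mul.mp this

theorem indep {X : Type} [Group X] {J : Type} (S : J → Type) [∀ j, Group (S j)]
    (f : ∀ j, X →* S j) (hf : ∀ j, Function.Surjective (f j)) (hS : ∀ j, IsSimpleGroup (S j))
    (hna : ∀ j, ∃ a b : S j, a * b ≠ b * a) (hker : ∀ i j, (f i).ker = (f j).ker → i = j)
    {A : Type} [CommGroup A] (g : X →* A) (hg : Function.Surjective g) (t : Finset J)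
    (v : ∀ j, S j) (a : A) : ∃ x, (∀ j ∈ t, f j x = v j) ∧ g x = a := by
  classical
  -- prime property over finite families
  have prime : ∀ (j : J) (t : Finset J) (B : Subgroup X), B.Normal →
      (t.inf fun i => (f i).ker) ⊓ B ≤ (f j).ker →
      (∃ i ∈ t, (f i).ker ≤ (f j).ker) ∨ B ≤ (f j).ker := by
    intro j t
    induction t using Finset.induction_on with
    | empty =>
      intro B hB h
      right
      simpa using h
    | insert i t hi ih =>
      intro B hB h
      rw [Finset.inf_insert, inf_assoc] at h
      have hn : ∀ t : Finset J, (t.inf fun i => (f i).ker).Normal := by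
        intro t
        induction t using Finset.induction_on with
        | empty => simp only [Finset.inf_empty]; infer_instance
        | insert i t hi ih =>
          rw [Finset.inf_insert]
          haveI := ih
          exact Subgroup.normal_inf_normal _ _
      have hn2 : ((t.inf fun i => (f i).ker) ⊓ B).Normal := by
        haveI := hn t
        haveI := hB
        exact Subgroup.normal_inf_normal _ _
      rcases indep_prime' (f j) (hf j) (hS j) (hna j) _ _ inferInstance hn2 h with h1 | h1
      · exact Or.inl ⟨i, Finset.mem_insert_self _ _, h1⟩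
      · rcases ih B hB h1 with ⟨i', hi', h2⟩ | h2
        · exact Or.inl ⟨i', Finset.mem_insert_of_mem hi', h2⟩
        · exact Or.inr h2
  induction t using Finset.induction_on generalizing a with
  | empty =>
    obtain ⟨x, hx⟩ := hg a
    exact ⟨x, by simp, hx⟩
  | insert j t hj ih =>
    obtain ⟨x, hx1, hx2⟩ := ih a
    have hn : ∀ t : Finset J, (t.inf fun i => (f i).ker).Normal := by
      intro t
      induction t using Finset.induction_on with
      | empty => simp only [Finset.inf_empty]; infer_instance
      | insert i t hi ih =>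
        rw [Finset.inf_insert]
        haveI := ih
        exact Subgroup.normal_inf_normal _ _
    have hKn : ((t.inf fun i => (f i).ker) ⊓ g.ker).Normal := by
      haveI := hn t
      exact Subgroup.normal_inf_normal _ _
    have hmem : ∀ y, y ∈ ((t.inf fun i => (f i).ker) ⊓ g.ker : Subgroup X) ↔
        (∀ i ∈ t, f i y = 1) ∧ g y = 1 := by
      intro y
      rw [Subgroup.mem_inf, Finset.inf_eq_iInf]
      simp [Subgroup.mem_iInf, MonoidHom.mem_ker]
    rcases (hS j).eq_bot_or_eq_top_of_normal _ (hKn.map (f j) (hf j)) with h1 | h1
    · exfalso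
      have h2 := (Subgroup.map_eq_bot_iff _).mp h1
      rcases prime j t g.ker inferInstance h2 with ⟨i, hi, h3⟩ | h3
      · -- ker f i ≤ ker f j, both maximal normal
        have h4 : (f j).ker ≤ (f i).ker := by
          have hmn : ((f j).ker.map (f i)).Normal :=
            Subgroup.Normal.map inferInstance (f i) (hf i)
          rcases (hS i).eq_bot_or_eq_top_of_normal _ hmn with h5 | h5
          · exact (Subgroup.map_eq_bot_iff _).mp h5
          · exfalso
            have h6 : (f j).ker = ⊤ := by
              rw [eq_top_iff]
              intro y _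
              obtain ⟨z, hz, hzy⟩ : f i y ∈ (f j).ker.map (f i) := by rw [h5]; trivial
              have h7 : z⁻¹ * y ∈ (f i).ker := by
                rw [MonoidHom.mem_ker, map_mul, map_inv, hzy, inv_mul_cancel]
              have h8 := (f j).ker.mul_mem hz (h3 h7)
              rwa [mul_inv_cancel_left] at h8
            obtain ⟨a, b, hab⟩ := hna j
            apply hab
            obtain ⟨a', rfl⟩ := hf j a
            obtain ⟨b', rfl⟩ := hf j b
            have ha : a' ∈ (f j).ker := by rw [h6]; trivial
            have hb : b' ∈ (f j).ker := by rw [h6]; trivial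
            rw [MonoidHom.mem_ker] at ha hb
            rw [ha, hb]
        have := hker i j (le_antisymm h3 h4)
        subst this
        exact hj hi
      · obtain ⟨a, b, hab⟩ := hna j
        apply hab
        obtain ⟨a', rfl⟩ := hf j a
        obtain ⟨b', rfl⟩ := hf j b
        have : a' * b' * (b' * a')⁻¹ ∈ g.ker := by
          rw [MonoidHom.mem_ker, map_mul, map_inv, map_mul, map_mul, mul_comm (g b') (g a'),
            mul_inv_cancel]
        have h4 := h3 this
        rw [MonoidHom.mem_ker, map_mul, map_inv] at h4
        have := mul_inv_eq_one.mp h4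
        rwa [map_mul, map_mul] at this
    · obtain ⟨k, hk, hk2⟩ : (f j x)⁻¹ * v j ∈
          (((t.inf fun i => (f i).ker) ⊓ g.ker : Subgroup X)).map (f j) := by
        rw [h1]; trivial
      obtain ⟨hk3, hk4⟩ := (hmem k).mp hk
      refine ⟨x * k, ?_, ?_⟩
      · intro i hi
        rw [Finset.mem_insert] at hi
        rcases hi with rfl | hi
        · rw [map_mul, hk2, mul_inv_cancel_left]
        · rw [map_mul, hk3 i hi, mul_one, hx1 i hi]
      · rw [map_mul, hk4, mul_one, hx2]

end Pool.Agent.Helper691.NS
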