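import Pool.Agent.Helper691.NS.Defs

set_option autoImplicit false
open Filter Topology

namespace Pool.Agent.Helper691.NS

theorem indep_primes {X : Type} [Group X] (t : Finset ℕ) (ht : ∀ p ∈ t, p.Prime)
    (A : ℕ → Type) [∀ p, CommGroup (A p)] [∀ p, Finite (A p)]
    (hA : ∀ p ∈ t, ∀ a : A p, a ^ p = 1) (g : ∀ p, X →* A p)
    (hg : ∀ p ∈ t, Function.Surjective (g p)) (v : ∀ p, A p) :
    ∃ x, ∀ p ∈ t, g p x = v p := by
  classical
  induction t using Finset.induction_on with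
  | empty => exact ⟨1, fun p hp => absurd hp (Finset.notMem_empty p)⟩
  | insert p t' hp ih =>
    obtain ⟨x', hx'⟩ := ih (fun q hq => ht q (Finset.mem_insert_of_mem hq))
      (fun q hq => hA q (Finset.mem_insert_of_mem hq)) (fun q hq => hg q (Finset.mem_insert_of_mem hq))
    obtain ⟨y, hy⟩ := hg p (Finset.mem_insert_self _ _) (v p)
    have hpp := ht p (Finset.mem_insert_self _ _)
    have hcop : Nat.Coprime (∏ q ∈ t', q) p := by
      apply Nat.Coprime.prod_left
      intro q hq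
      have hqp := ht q (Finset.mem_insert_of_mem hq)
      exact (Nat.coprime_primes hqp hpp).2 (fun e => hp (e ▸ hq))
    obtain ⟨a, ha1, ha2⟩ := Nat.chineseRemainder hcop 1 0
    obtain ⟨b, hb1, hb2⟩ := Nat.chineseRemainder hcop 0 1
    refine ⟨x' ^ a * y ^ b, fun q hq => ?_⟩
    rw [map_mul, map_pow, map_pow]
    rcases Finset.mem_insert.1 hq with rfl | hq'
    · have h1 : g q x' ^ a = g q x' ^ 0 := pow_eq_pow_of_modEq ha2 (hA q hq _)
      have h2 : g q y ^ b = g q y ^ 1 := pow_eq_pow_of_modEq hb2 (hA q hq _)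
      rw [h1, h2, pow_zero, pow_one, one_mul, hy]
    · have hdvd : q ∣ ∏ q ∈ t', q := Finset.dvd_prod_of_mem _ hq'
      have h1 : g q x' ^ a = g q x' ^ 1 := pow_eq_pow_of_modEq (ha1.of_dvd hdvd) (hA q hq _)
      have h2 : g q y ^ b = g q y ^ 0 := pow_eq_pow_of_modEq (hb1.of_dvd hdvd) (hA q hq _)
      rw [h1, h2, pow_zero, pow_one, mul_one, hx' q hq']

end Pool.Agent.Helper691.NS
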