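import Pool.Agent.Helper691.NS.Defs
import Pool.Agent.Helper691.NS.Indep
import Pool.Agent.Helper691.NS.Indep_primes

set_option autoImplicit false
open Filter Topology

namespace Pool.Agent.Helper691.NS

theorem fin_joint_pow {q : ℕ} (c : Multiplicative (ZMod q)) : c ^ q = 1 := by
  apply Multiplicative.toAdd.injective
  rw [toAdd_pow, toAdd_one, nsmul_eq_mul, CharP.cast_eq_zero, zero_mul]

theorem fin_joint_zpow {q : ℕ} (c : Multiplicative (ZMod q)) (m : ℤ) (h : (q : ℤ) ∣ m) :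
    c ^ m = 1 := by
  obtain ⟨d, rfl⟩ := h
  rw [zpow_mul, zpow_natCast, fin_joint_pow, one_zpow]

theorem fin_joint_zpow1 {q : ℕ} (c : Multiplicative (ZMod q)) (m : ℤ) (h : (q : ℤ) ∣ 1 - m) :
    c ^ m = c := by
  have h1 := fin_joint_zpow c (1 - m) h
  have h2 : m = 1 - (1 - m) := by ring
  rw [h2, zpow_sub, h1, inv_one, mul_one, zpow_one]

theorem fin_joint_surj {X : Type} [Group X]
    (R : Set ℕ) (hR : ∀ p ∈ R, p.Prime) (χ : ∀ q : R, ℕ → X →* Multiplicative (ZMod q))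
    (hχ : ∀ (q : R) (k : ℕ) (v : ℕ → Multiplicative (ZMod q)), ∃ x, ∀ n < k, χ q n x = v n)
    (k : ℕ) (w : ∀ q : R, ℕ → Multiplicative (ZMod q)) (t' : Finset R) :
    ∃ x, ∀ q ∈ t', ∀ n < k, χ q n x = w q n := by
  classical
  induction t' using Finset.induction_on with
  | empty => exact ⟨1, fun q hq => absurd hq (Finset.notMem_empty q)⟩
  | insert p s hp ih =>
    obtain ⟨x₁, hx₁⟩ := ih
    obtain ⟨x₂, hx₂⟩ := hχ p k (w p)
    have hcop : Nat.Coprime (∏ q ∈ s, (q : ℕ)) (p : ℕ) := by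
      apply Nat.Coprime.prod_left
      intro q hq
      rw [Nat.coprime_primes (hR _ q.2) (hR _ p.2)]
      intro h
      have : q = p := Subtype.ext h
      subst this
      exact hp hq
    obtain ⟨a, b, hab⟩ := (Nat.isCoprime_iff_coprime.mpr hcop)
    refine ⟨x₁ ^ (b * ((p : ℕ) : ℤ)) * x₂ ^ (a * ((∏ q ∈ s, (q : ℕ) : ℕ) : ℤ)), ?_⟩
    intro q hq n hn
    rw [map_mul, map_zpow, map_zpow]
    rw [Finset.mem_insert] at hq
    rcases hq with rfl | hq
    · rw [hx₂ n hn, fin_joint_zpow _ (b * _) (Dvd.intro_left _ rfl), one_mul]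
      apply fin_joint_zpow1
      exact ⟨b, by linear_combination -hab⟩
    · have hd : ((q : ℕ) : ℤ) ∣ ((∏ q ∈ s, (q : ℕ) : ℕ) : ℤ) :=
        Int.natCast_dvd_natCast.mpr (Finset.dvd_prod_of_mem (fun q : R => (q : ℕ)) hq)
      rw [hx₁ q hq n hn, fin_joint_zpow _ (a * _) (Dvd.dvd.mul_left hd a), mul_one]
      apply fin_joint_zpow1
      have h2 : 1 - b * ((p : ℕ) : ℤ) = a * ((∏ q ∈ s, (q : ℕ) : ℕ) : ℤ) := by
        linear_combination -hab
      rw [h2]
      exact Dvd.dvd.mul_left hd a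

theorem fin_joint {X : Type} [Group X] {J : Type} (S : J → Type) [∀ j, Group (S j)]
    (f : ∀ j, X →* S j) (hf : ∀ j, Function.Surjective (f j)) (hS : ∀ j, IsSimpleGroup (S j))
    (hna : ∀ j, ∃ a b : S j, a * b ≠ b * a) (hker : ∀ i j, (f i).ker = (f j).ker → i = j)
    (R : Set ℕ) (hR : ∀ p ∈ R, p.Prime) (χ : ∀ q : R, ℕ → X →* Multiplicative (ZMod q))
    (hχ : ∀ (q : R) (k : ℕ) (v : ℕ → Multiplicative (ZMod q)), ∃ x, ∀ n < k, χ q n x = v n)
    (t : Finset J) (t' : Finset R) (k : ℕ) (v : ∀ j, S j)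
    (w : ∀ q : R, ℕ → Multiplicative (ZMod q)) :
    ∃ x, (∀ j ∈ t, f j x = v j) ∧ ∀ q ∈ t', ∀ n < k, χ q n x = w q n := by
  classical
  let g : X →* (∀ q : {q // q ∈ t'}, Fin k → Multiplicative (ZMod (q.1 : ℕ))) :=
    { toFun := fun x q n => χ q.1 n x
      map_one' := by
        funext q n
        exact map_one _
      map_mul' := by
        intro x y
        funext q n
        exact map_mul _ _ _ }
  have hg : Function.Surjective g := by
    intro b
    obtain ⟨x, hx⟩ := fin_joint_surj R hR χ hχ k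
      (fun q n => if h : q ∈ t' ∧ n < k then b ⟨q, h.1⟩ ⟨n, h.2⟩ else 1) t'
    refine ⟨x, ?_⟩
    funext q n
    have h1 := hx q.1 q.2 n n.2
    simp only [q.2, n.2, true_and, dif_pos] at h1
    exact h1
  obtain ⟨x, hx1, hx2⟩ := indep S f hf hS hna hker g hg t v (fun q n => w q.1 n)
  refine ⟨x, hx1, fun q hq n hn => ?_⟩
  exact congrFun (congrFun hx2 ⟨q, hq⟩) ⟨n, hn⟩

end Pool.Agent.Helper691.NS
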