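import Pool.Agent.Helper691.NS.Defs

set_option autoImplicit false
open Filter Topology

namespace Pool.Agent.Helper691.NS

theorem wreath_sub {E : Type} [Group E] [TopologicalSpace E] [IsTopologicalGroup E]
    (U : Subgroup E) [U.Normal]
    {A : Type} [Group A] (Ψ : E →* RegularWreathProduct A (E ⧸ U)) (hΨ : OK Ψ)
    (hr : ∀ f, (Ψ f).right = (QuotientGroup.mk f : E ⧸ U)) :
    ∃ ψ : U →* A, OK ψ ∧ (∀ u : U, ψ u = (Ψ u).left 1) ∧
      ∀ (s : E ⧸ U → E), (∀ x, (QuotientGroup.mk (s x) : E ⧸ U) = x) →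
      ∀ (f : E) (x : E ⧸ U)
        (h : (s x)⁻¹ * f * s ((QuotientGroup.mk f : E ⧸ U)⁻¹ * x) ∈ U),
        ψ ⟨(s x)⁻¹ * f * s ((QuotientGroup.mk f : E ⧸ U)⁻¹ * x), h⟩ =
          ((Ψ (s x)).left x)⁻¹ * (Ψ f).left x *
            (Ψ (s ((QuotientGroup.mk f : E ⧸ U)⁻¹ * x))).left
              ((QuotientGroup.mk f : E ⧸ U)⁻¹ * x) := by
  have hone : ∀ u : U, (Ψ (u : E)).right = 1 := by
    intro u
    rw [hr]
    exact (QuotientGroup.eq_one_iff (u : E)).mpr u.2
  let ψ : U →* A := MonoidHom.mk' (fun u => (Ψ (u : E)).left 1) (by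
    intro u v
    rw [Subgroup.coe_mul, map_mul, RegularWreathProduct.mul_left, Pi.mul_apply, hone u, inv_one,
      one_mul])
  refine ⟨ψ, ?_, fun u => rfl, ?_⟩
  · have h1 : IsOpen ((Ψ.ker.subgroupOf U : Subgroup U) : Set U) := by
      have : ((Ψ.ker.subgroupOf U : Subgroup U) : Set U) =
          (fun u : U => (u : E)) ⁻¹' (Ψ.ker : Set E) := rfl
      rw [this]
      exact IsOpen.preimage continuous_subtype_val hΨ
    refine Subgroup.isOpen_mono ?_ h1
    intro u hu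
    rw [Subgroup.mem_subgroupOf, MonoidHom.mem_ker] at hu
    rw [MonoidHom.mem_ker]
    show (Ψ (u : E)).left 1 = 1
    rw [hu]
    rfl
  · intro s hs f x h
    show (Ψ ((s x)⁻¹ * f * s ((QuotientGroup.mk f : E ⧸ U)⁻¹ * x))).left 1 = _
    rw [map_mul, map_mul, map_inv]
    simp only [RegularWreathProduct.mul_left, RegularWreathProduct.mul_right,
      RegularWreathProduct.inv_left, RegularWreathProduct.inv_right, Pi.mul_apply, hr, hs,
      Pi.inv_apply, inv_inv, mul_one, mul_inv_rev]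

end Pool.Agent.Helper691.NS
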