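import Pool.Agent.Helper691.NS.Defs
import Pool.Agent.Helper691.NS.Wreath_sub

set_option autoImplicit false
open Filter Topology

namespace Pool.Agent.Helper691.NS

/-- the map of wreath products induced by a homomorphism -/
def fl_core_W {A B Q : Type} [Group A] [Group B] [Group Q] (α : A →* B) :
    RegularWreathProduct A Q →* RegularWreathProduct B Q where
  toFun w := ⟨fun x => α (w.left x), w.right⟩
  map_one' := by
    refine RegularWreathProduct.ext ?_ rfl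
    funext x
    exact map_one α
  map_mul' v w := by
    refine RegularWreathProduct.ext ?_ rfl
    funext x
    exact map_mul α _ _


theorem fl_core {n : ℕ} {G : Type} [Group G] [TopologicalSpace G] [IsTopologicalGroup G]
    (ι : Fin n → G) (hG : FreeFin n G ι) (U : Subgroup G) [U.Normal]
    (hUo : IsOpen (U : Set G)) [Finite (G ⧸ U)] (i : G ⧸ U → Fin n) (d : G ⧸ U → ℕ)
    (hd : ∀ x, x ≠ 1 → d ((QuotientGroup.mk (ι (i x)) : G ⧸ U)⁻¹ * x) < d x)
    (s : G ⧸ U → G) (hs1 : s 1 = 1) (hs : ∀ x, (QuotientGroup.mk (s x) : G ⧸ U) = x)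
    (hrec : ∀ x, x ≠ 1 → s x = ι (i x) * s ((QuotientGroup.mk (ι (i x)) : G ⧸ U)⁻¹ * x))
    {A B : Type} [Group A] [Group B] [Finite A] [Finite B] (α : A →* B) (φ : U →* B)
    (Φ : G →* RegularWreathProduct B (G ⧸ U)) (hΦo : OK Φ)
    (hΦr : ∀ f, (Φ f).right = (QuotientGroup.mk f : G ⧸ U))
    (hΦl : ∀ (f : G) (x : G ⧸ U)
        (h : (s x)⁻¹ * f * s ((QuotientGroup.mk f : G ⧸ U)⁻¹ * x) ∈ U),
        (Φ f).left x = φ ⟨(s x)⁻¹ * f * s ((QuotientGroup.mk f : G ⧸ U)⁻¹ * x), h⟩)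
    (a : Fin n → G ⧸ U → A) (ha : ∀ j x, α (a j x) = (Φ (ι j)).left x)
    (ha1 : ∀ x, x ≠ 1 → a (i x) x = 1) :
    ∃ ψ : U →* A, OK ψ ∧ α.comp ψ = φ ∧ ∀ j x, a j x ∈ ψ.range := by
  obtain ⟨Ψ, hΨo, hΨι⟩ := hG.ex (RegularWreathProduct A (G ⧸ U))
    (fun j => ⟨a j, (QuotientGroup.mk (ι j) : G ⧸ U)⟩)
  have hker : Ψ.ker ≤ ((fl_core_W α).comp Ψ).ker := by
    intro f hf
    rw [MonoidHom.mem_ker] at hf ⊢
    rw [MonoidHom.comp_apply, hf, map_one]
  have h1 : (fl_core_W α).comp Ψ = Φ := by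
    refine hG.uniq _ _ _ (Subgroup.isOpen_mono hker hΨo) hΦo ?_
    intro j
    rw [MonoidHom.comp_apply, hΨι]
    refine RegularWreathProduct.ext ?_ ?_
    · funext x
      exact ha j x
    · exact (hΦr (ι j)).symm
  have hr : ∀ f, (Ψ f).right = (QuotientGroup.mk f : G ⧸ U) := by
    intro f
    rw [← hΦr f, ← h1]
    rfl
  have hl : ∀ f x, α ((Ψ f).left x) = (Φ f).left x := by
    intro f x
    rw [← h1]
    rfl
  obtain ⟨ψ, hψo, hψl, hψs⟩ := wreath_sub U Ψ hΨo hr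
  refine ⟨ψ, hψo, ?_, ?_⟩
  · ext u
    rw [MonoidHom.comp_apply, hψl, hl]
    have hu : (QuotientGroup.mk (u : G) : G ⧸ U) = 1 := (QuotientGroup.eq_one_iff _).2 u.2
    have e : (s 1)⁻¹ * (u : G) * s ((QuotientGroup.mk (u : G) : G ⧸ U)⁻¹ * 1) = u := by
      rw [hu, inv_one, one_mul, hs1, inv_one, one_mul, mul_one]
    rw [hΦl u 1 (by rw [e]; exact u.2)]
    congr 1
    exact Subtype.ext e
  · have hg : ∀ m : ℕ, ∀ x : G ⧸ U, d x < m → (Ψ (s x)).left x = 1 := by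
      intro m
      induction m with
      | zero => intro x hx; omega
      | succ m ih =>
        intro x hx
        by_cases hx1 : x = 1
        · rw [hx1, hs1, map_one]
          rfl
        · have h2 := ih _ (lt_of_lt_of_le (hd x hx1) (Nat.lt_succ_iff.1 hx))
          rw [hrec x hx1, map_mul, RegularWreathProduct.mul_left, Pi.mul_apply, hr, hΨι]
          show a (i x) x * _ = 1
          rw [ha1 x hx1, one_mul]
          exact h2
    have hg' : ∀ x : G ⧸ U, (Ψ (s x)).left x = 1 := fun x => hg (d x + 1) x (Nat.lt_succ_self _)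
    intro j x
    have h : (s x)⁻¹ * (ι j) * s ((QuotientGroup.mk (ι j) : G ⧸ U)⁻¹ * x) ∈ U := by
      rw [← QuotientGroup.eq_one_iff, QuotientGroup.mk_mul, QuotientGroup.mk_mul,
        QuotientGroup.mk_inv, hs, hs]
      group
    refine ⟨⟨_, h⟩, ?_⟩
    rw [hψs s hs (ι j) x h, hg', hg', hΨι]
    show 1⁻¹ * a j x * 1 = a j x
    rw [inv_one, one_mul, mul_one]

end Pool.Agent.Helper691.NS
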