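import Pool.Agent.Helper691.NS.Defs

set_option autoImplicit false
open Filter Topology

namespace Pool.Agent.Helper691.NS

theorem pigeon {Q B : Type} [Finite Q] [Finite B] (n k : ℕ) (hn : 1 < n) (i : Q → Fin n)
    (o : Q) (b : Fin n → Q → B) (hk : Nat.card B * k ≤ Nat.card Q) :
    ∃ (b₀ : B) (e : Fin k → Fin n × Q), Function.Injective e ∧
      (∀ j, b (e j).1 (e j).2 = b₀) ∧
      ∀ j, ¬ ((e j).2 ≠ o ∧ (e j).1 = i (e j).2) := by
  classical
  have := Fintype.ofFinite Q
  have := Fintype.ofFinite B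
  rw [Nat.card_eq_fintype_card, Nat.card_eq_fintype_card] at hk
  set S : Finset (Fin n × Q) := Finset.univ.filter (fun p => ¬ (p.2 ≠ o ∧ p.1 = i p.2)) with hS
  have hcompl : (Finset.univ.filter (fun p : Fin n × Q => (p.2 ≠ o ∧ p.1 = i p.2))).card ≤
      Fintype.card Q - 1 := by
    have h1 : (Finset.univ.filter (fun p : Fin n × Q => (p.2 ≠ o ∧ p.1 = i p.2))).card ≤
        (Finset.univ.erase o).card := by
      apply Finset.card_le_card_of_injOn (fun p => p.2)
      · intro p hp
        rw [Finset.mem_coe, Finset.mem_filter] at hp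
        rw [Finset.mem_coe, Finset.mem_erase]
        exact ⟨hp.2.1, Finset.mem_univ _⟩
      · intro p hp q hq h
        rw [Finset.mem_coe, Finset.mem_filter] at hp hq
        have h2 : p.2 = q.2 := h
        refine Prod.ext ?_ h2
        rw [hp.2.2, hq.2.2, h2]
    rw [Finset.card_erase_of_mem (Finset.mem_univ o), Finset.card_univ] at h1
    exact h1
  have htot := Finset.card_filter_add_card_filter_not
    (s := (Finset.univ : Finset (Fin n × Q))) (fun p : Fin n × Q => (p.2 ≠ o ∧ p.1 = i p.2))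
  rw [Finset.card_univ, Fintype.card_prod, Fintype.card_fin] at htot
  have hQ : 0 < Fintype.card Q := Fintype.card_pos_iff.2 ⟨o⟩
  have h2Q : 2 * Fintype.card Q ≤ n * Fintype.card Q := Nat.mul_le_mul_right _ hn
  have hlt : (Finset.univ : Finset B).card * k < S.card := by
    rw [Finset.card_univ]
    have h3 : S.card = (Finset.univ.filter
      (fun p : Fin n × Q => ¬ (p.2 ≠ o ∧ p.1 = i p.2))).card := rfl
    omega
  obtain ⟨b₀, -, hb⟩ := Finset.exists_lt_card_fiber_of_mul_lt_card_of_maps_to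
    (s := S) (t := (Finset.univ : Finset B)) (f := fun p => b p.1 p.2)
    (fun p _ => Finset.mem_univ _) hlt
  set R := S.filter (fun p => b p.1 p.2 = b₀) with hR
  have hRm : ∀ p ∈ R, p ∈ S ∧ b p.1 p.2 = b₀ := fun p hp => Finset.mem_filter.1 hp
  have hSm : ∀ p ∈ S, ¬ (p.2 ≠ o ∧ p.1 = i p.2) := fun p hp => (Finset.mem_filter.1 hp).2
  refine ⟨b₀, fun j => (R.equivFin.symm (Fin.castLE hb.le j)).1, ?_, ?_, ?_⟩
  · intro j1 j2 h
    have h1 := R.equivFin.symm.injective (Subtype.ext h)
    exact Fin.castLE_injective hb.le h1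
  · intro j
    exact (hRm _ (R.equivFin.symm (Fin.castLE hb.le j)).2).2
  · intro j
    exact hSm _ (hRm _ (R.equivFin.symm (Fin.castLE hb.le j)).2).1

end Pool.Agent.Helper691.NS
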