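import Pool.Agent.Helper691.NS.Defs

set_option autoImplicit false
open Filter Topology

namespace Pool.Agent.Helper691.NS

theorem tree_word {Q : Type} [Group Q] [Finite Q] {n : ℕ} (q : Fin n → Q)
    (hq : Subgroup.closure (Set.range q) = ⊤) (x : Q) :
    ∃ l : List (Fin n), (l.map q).prod = x := by
  have hpow : ∀ y : Q, (∃ l : List (Fin n), (l.map q).prod = y) → ∀ k : ℕ,
      ∃ l : List (Fin n), (l.map q).prod = y ^ k := by
    intro y hy k
    induction k with
    | zero => exact ⟨[], by simp⟩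
    | succ k ih =>
      obtain ⟨l1, h1⟩ := ih
      obtain ⟨l2, h2⟩ := hy
      exact ⟨l1 ++ l2, by rw [List.map_append, List.prod_append, h1, h2, pow_succ]⟩
  have hx : x ∈ Subgroup.closure (Set.range q) := by rw [hq]; exact Subgroup.mem_top x
  induction hx using Subgroup.closure_induction with
  | mem y hy =>
    obtain ⟨i, rfl⟩ := hy
    exact ⟨[i], by simp⟩
  | one => exact ⟨[], by simp⟩
  | mul y z _ _ hy hz =>
    obtain ⟨l1, h1⟩ := hy
    obtain ⟨l2, h2⟩ := hz
    exact ⟨l1 ++ l2, by rw [List.map_append, List.prod_append, h1, h2]⟩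
  | inv y _ hy =>
    have h1 := hpow y hy (orderOf y - 1)
    have h2 : y ^ (orderOf y - 1) = y⁻¹ := by
      have h3 : 0 < orderOf y := orderOf_pos y
      rw [eq_inv_iff_mul_eq_one, ← pow_succ, Nat.sub_add_cancel h3, pow_orderOf_eq_one]
    rw [h2] at h1
    exact h1

theorem tree {Q : Type} [Group Q] [Finite Q] {n : ℕ} (q : Fin n → Q) (hn : 0 < n)
    (hq : Subgroup.closure (Set.range q) = ⊤) :
    ∃ (i : Q → Fin n) (d : Q → ℕ), ∀ x, x ≠ 1 → d ((q (i x))⁻¹ * x) < d x := by
  classical
  have hex : ∀ x : Q, ∃ m : ℕ, ∃ l : List (Fin n), l.length = m ∧ (l.map q).prod = x := by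
    intro x
    obtain ⟨l, hl⟩ := tree_word q hq x
    exact ⟨l.length, l, rfl, hl⟩
  have hstep : ∀ x : Q, ∃ i : Fin n, x ≠ 1 →
      Nat.find (hex ((q i)⁻¹ * x)) < Nat.find (hex x) := by
    intro x
    by_cases hx : x = 1
    · exact ⟨⟨0, hn⟩, fun h => absurd hx h⟩
    · obtain ⟨l, hl, hlx⟩ := Nat.find_spec (hex x)
      cases l with
      | nil =>
        exfalso
        apply hx
        rw [← hlx]
        simp
      | cons i l' =>
        refine ⟨i, fun _ => ?_⟩
        have h1 : Nat.find (hex ((q i)⁻¹ * x)) ≤ l'.length := by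
          apply Nat.find_min'
          refine ⟨l', rfl, ?_⟩
          rw [← hlx]
          simp
        rw [← hl, List.length_cons]
        omega
  choose i hi using hstep
  exact ⟨i, fun x => Nat.find (hex x), fun x hx => hi x hx⟩

end Pool.Agent.Helper691.NS
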