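import Pool.Agent.Helper691.NS.Defs

set_option autoImplicit false
open Filter Topology

namespace Pool.Agent.Helper691.NS

theorem tree_section {E : Type} [Group E] (U : Subgroup E) [U.Normal] {n : ℕ} (ι : Fin n → E)
    (i : E ⧸ U → Fin n) (d : E ⧸ U → ℕ)
    (hd : ∀ x, x ≠ 1 → d ((QuotientGroup.mk (ι (i x)) : E ⧸ U)⁻¹ * x) < d x) :
    ∃ s : E ⧸ U → E, s 1 = 1 ∧ (∀ x, (QuotientGroup.mk (s x) : E ⧸ U) = x) ∧
      ∀ x, x ≠ 1 → s x = ι (i x) * s ((QuotientGroup.mk (ι (i x)) : E ⧸ U)⁻¹ * x) := by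
  classical
  have wf : WellFounded (fun a b : E ⧸ U => d a < d b) := (measure d).wf
  obtain ⟨F, hF⟩ : ∃ F : ∀ x : E ⧸ U, (∀ y : E ⧸ U, d y < d x → E) → E, F = fun x rec =>
      if hx : x = 1 then 1
      else ι (i x) * rec ((QuotientGroup.mk (ι (i x)) : E ⧸ U)⁻¹ * x) (hd x hx) := ⟨_, rfl⟩
  have hfix : ∀ x, wf.fix F x = F x (fun y _ => wf.fix F y) := fun x => wf.fix_eq F x
  have h1 : wf.fix F 1 = 1 := by
    rw [hfix, hF]
    exact dif_pos rfl
  have h2 : ∀ x, x ≠ 1 →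
      wf.fix F x = ι (i x) * wf.fix F ((QuotientGroup.mk (ι (i x)) : E ⧸ U)⁻¹ * x) := by
    intro x hx
    rw [hfix x, hF]
    exact dif_neg hx
  refine ⟨wf.fix F, h1, ?_, h2⟩
  intro x
  induction x using wf.induction with
  | _ x ih =>
    by_cases hx : x = 1
    · rw [hx, h1]
      rfl
    · rw [h2 x hx, QuotientGroup.mk_mul, ih _ (hd x hx), mul_inv_cancel_left]

end Pool.Agent.Helper691.NS
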