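import Pool.Agent.Helper691.NS.Defs

set_option autoImplicit false
open Filter Topology

namespace Pool.Agent.Helper691.NS

theorem wreath_hom {E : Type} [Group E] [TopologicalSpace E] [IsTopologicalGroup E]
    (U : Subgroup E) [U.Normal] (hU : IsOpen (U : Set E)) [Finite (E ⧸ U)] {B : Type} [Group B]
    (φ : U →* B) (hφ : OK φ) (s : E ⧸ U → E)
    (hs : ∀ x, (QuotientGroup.mk (s x) : E ⧸ U) = x) :
    ∃ Φ : E →* RegularWreathProduct B (E ⧸ U), OK Φ ∧
      (∀ f, (Φ f).right = (QuotientGroup.mk f : E ⧸ U)) ∧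
      ∀ (f : E) (x : E ⧸ U)
        (h : (s x)⁻¹ * f * s ((QuotientGroup.mk f : E ⧸ U)⁻¹ * x) ∈ U),
        (Φ f).left x = φ ⟨(s x)⁻¹ * f * s ((QuotientGroup.mk f : E ⧸ U)⁻¹ * x), h⟩ := by
  have hmem : ∀ (f : E) (x : E ⧸ U),
      (s x)⁻¹ * f * s ((QuotientGroup.mk f : E ⧸ U)⁻¹ * x) ∈ U := by
    intro f x
    rw [← QuotientGroup.eq_one_iff]
    rw [QuotientGroup.mk_mul, QuotientGroup.mk_mul, QuotientGroup.mk_inv, hs, hs]
    group
  let Φ : E →* RegularWreathProduct B (E ⧸ U) := MonoidHom.mk'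
    (fun f => ⟨fun x => φ ⟨_, hmem f x⟩, (QuotientGroup.mk f : E ⧸ U)⟩) (by
      intro f g
      apply RegularWreathProduct.ext
      · funext x
        simp only [RegularWreathProduct.mul_left, Pi.mul_apply]
        rw [← map_mul]
        congr 1
        apply Subtype.ext
        simp only [Subgroup.coe_mul]
        have e : (QuotientGroup.mk (f * g) : E ⧸ U)⁻¹ * x =
            (QuotientGroup.mk g : E ⧸ U)⁻¹ * ((QuotientGroup.mk f : E ⧸ U)⁻¹ * x) := by
          rw [QuotientGroup.mk_mul]; group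
        rw [e]
        group
      · simp only [RegularWreathProduct.mul_right, QuotientGroup.mk_mul])
  have hΦl : ∀ f x, (Φ f).left x = φ ⟨_, hmem f x⟩ := fun f x => rfl
  have hΦr : ∀ f, (Φ f).right = (QuotientGroup.mk f : E ⧸ U) := fun f => rfl
  refine ⟨Φ, ?_, hΦr, fun f x h => hΦl f x⟩
  let V : Set E := (fun u : U => (u : E)) '' (φ.ker : Set U)
  have hV : IsOpen V := (hU.isOpenMap_subtype_val) _ hφ
  let N : Set E := (U : Set E) ∩ ⋂ x : E ⧸ U, (fun f => (s x)⁻¹ * f * s x) ⁻¹' V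
  have hN : IsOpen N := by
    apply hU.inter
    apply isOpen_iInter_of_finite
    intro x
    exact hV.preimage (by fun_prop)
  have h1N : (1 : E) ∈ N := by
    refine ⟨U.one_mem, ?_⟩
    rw [Set.mem_iInter]
    intro x
    show (s x)⁻¹ * 1 * s x ∈ V
    rw [mul_one, inv_mul_cancel]
    exact ⟨1, φ.ker.one_mem, rfl⟩
  apply Subgroup.isOpen_of_mem_nhds (g := 1)
  apply Filter.mem_of_superset (hN.mem_nhds h1N)
  rintro f ⟨hf, hf'⟩
  show Φ f = 1
  have hf1 : (QuotientGroup.mk f : E ⧸ U) = 1 := (QuotientGroup.eq_one_iff f).mpr hf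
  apply RegularWreathProduct.ext
  · funext x
    rw [hΦl]
    have h2 := Set.mem_iInter.mp hf' x
    obtain ⟨u, hu, hux⟩ := h2
    have hux' : (u : E) = (s x)⁻¹ * f * s x := hux
    have h3 : (⟨_, hmem f x⟩ : U) = u := by
      apply Subtype.ext
      rw [hux']
      simp only
      rw [hf1, inv_one, one_mul]
    rw [h3]
    exact hu
  · rw [hΦr]; exact hf1

end Pool.Agent.Helper691.NS
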