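import Pool.Agent.Helper691.NS.Defs
import Pool.Agent.Helper691.NS.Wreath_hom
import Pool.Agent.Helper691.NS.Wreath_sub
import Pool.Agent.Helper691.NS.Fl_core
import Pool.Agent.Helper691.NS.Tree
import Pool.Agent.Helper691.NS.Tree_section
import Pool.Agent.Helper691.NS.Pigeon
import Pool.Agent.Helper691.NS.Fin_gen

set_option autoImplicit false
open Filter Topology

namespace Pool.Agent.Helper691.NS

theorem fin_lift {n : ℕ} (hn : 1 < n) {G : Type} [Group G] [TopologicalSpace G]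
    [IsTopologicalGroup G] [CompactSpace G] (ι : Fin n → G) (hG : FreeFin n G ι)
    (U : Subgroup G) (hU : U.Normal) (hUo : IsOpen (U : Set G)) (m : ℕ)
    (hm : m * m ≤ U.index) : LiftProp U m := by
  classical
  have hfin : Finite (G ⧸ U) := Subgroup.quotient_finite_of_isOpen U hUo
  have hgen : Subgroup.closure (Set.range fun j => (QuotientGroup.mk (ι j) : G ⧸ U)) = ⊤ := by
    have h1 := fin_gen ι hG (G ⧸ U) (QuotientGroup.mk' U) (by
      show IsOpen ((QuotientGroup.mk' U).ker : Set G)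
      rw [QuotientGroup.ker_mk']
      exact hUo)
    rw [MonoidHom.range_eq_top.2 (QuotientGroup.mk'_surjective U)] at h1
    exact h1
  obtain ⟨i, d, hd⟩ := tree (fun j => (QuotientGroup.mk (ι j) : G ⧸ U)) (by omega) hgen
  obtain ⟨s, hs1, hs, hrec⟩ := tree_section U ι i d hd
  intro A B _ _ _ _ α φ hA hα hφ hφo
  obtain ⟨Φ, hΦo, hΦr, hΦl⟩ := wreath_hom U hUo φ hφo s hs
  have hb1 : ∀ x, x ≠ 1 → (Φ (ι (i x))).left x = 1 := by
    intro x hx
    have h1 : (s x)⁻¹ * ι (i x) * s ((QuotientGroup.mk (ι (i x)) : G ⧸ U)⁻¹ * x) = 1 := by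
      rw [mul_assoc, ← hrec x hx, inv_mul_cancel]
    have h2 : (s x)⁻¹ * ι (i x) * s ((QuotientGroup.mk (ι (i x)) : G ⧸ U)⁻¹ * x) ∈ U := by
      rw [h1]
      exact U.one_mem
    rw [hΦl (ι (i x)) x h2]
    have h3 : (⟨(s x)⁻¹ * ι (i x) * s ((QuotientGroup.mk (ι (i x)) : G ⧸ U)⁻¹ * x), h2⟩ : U) =
        1 := Subtype.ext h1
    rw [h3, map_one]
  have hcB : Nat.card B ≤ m := (Nat.card_le_card_of_surjective α hα).trans hA
  have hcK : Nat.card α.ker ≤ m :=
    (Nat.card_le_card_of_injective _ (Subtype.val_injective (p := fun x => x ∈ α.ker))).trans hA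
  obtain ⟨b₀, e, he, heb, hne⟩ := pigeon n (Nat.card α.ker) hn i 1
    (fun j x => (Φ (ι j)).left x) ((Nat.mul_le_mul hcB hcK).trans hm)
  obtain ⟨a₀, ha₀⟩ := hα b₀
  obtain ⟨c⟩ : Nonempty (Fin (Nat.card α.ker) ≃ α.ker) := ⟨(Finite.equivFin α.ker).symm⟩
  obtain ⟨a, hadef⟩ : ∃ a : Fin n → G ⧸ U → A, a = fun j x =>
      if h : ∃ t, e t = (j, x) then a₀ * (c h.choose : A)
      else if x ≠ 1 ∧ j = i x then 1 else (hα ((Φ (ι j)).left x)).choose := ⟨_, rfl⟩
  have ha : ∀ j x, α (a j x) = (Φ (ι j)).left x := by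
    intro j x
    rw [hadef]
    simp only
    split_ifs with h1 h2
    · have h3 := h1.choose_spec
      have h4 := heb h1.choose
      rw [h3] at h4
      have h5 : α (c h1.choose : A) = 1 := (c h1.choose).2
      rw [map_mul, h5, mul_one, ha₀]
      exact h4.symm
    · rw [map_one, h2.2, hb1 x h2.1]
    · exact (hα ((Φ (ι j)).left x)).choose_spec
  have ha1 : ∀ x, x ≠ 1 → a (i x) x = 1 := by
    intro x hx
    rw [hadef]
    simp only
    have h1 : ¬ ∃ t, e t = (i x, x) := by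
      rintro ⟨t, ht⟩
      refine hne t ⟨?_, ?_⟩
      · rw [ht]; exact hx
      · rw [ht]
    rw [dif_neg h1]
    simp [hx]
  have hae : ∀ t, a (e t).1 (e t).2 = a₀ * (c t : A) := by
    intro t
    rw [hadef]
    simp only
    have h1 : ∃ t', e t' = ((e t).1, (e t).2) := ⟨t, rfl⟩
    rw [dif_pos h1]
    have h2 : h1.choose = t := he (h1.choose_spec)
    rw [h2]
  obtain ⟨ψ, hψo, hψ, hψr⟩ := fl_core ι hG U hUo i d hd s hs1 hs hrec α φ Φ hΦo hΦr hΦl a ha ha1
  refine ⟨ψ, ?_, hψo, hψ⟩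
  have hk : ∀ κ ∈ α.ker, a₀ * κ ∈ ψ.range := by
    intro κ hκ
    obtain ⟨t, ht⟩ := c.surjective ⟨κ, hκ⟩
    have h1 := hψr (e t).1 (e t).2
    rw [hae t, ht] at h1
    exact h1
  have h0 : a₀ ∈ ψ.range := by
    have := hk 1 (α.ker.one_mem)
    rwa [mul_one] at this
  have hker : ∀ κ ∈ α.ker, κ ∈ ψ.range := by
    intro κ hκ
    have := ψ.range.mul_mem (ψ.range.inv_mem h0) (hk κ hκ)
    rwa [inv_mul_cancel_left] at this
  intro y
  obtain ⟨u, hu⟩ := hφ (α y)
  have h1 : α (ψ u) = α y := by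
    rw [← hu, ← hψ]
    rfl
  have h2 : (ψ u)⁻¹ * y ∈ α.ker := by
    rw [MonoidHom.mem_ker, map_mul, map_inv, h1, inv_mul_cancel]
  have h3 := ψ.range.mul_mem ⟨u, rfl⟩ (hker _ h2)
  rw [mul_inv_cancel_left] at h3
  exact h3

end Pool.Agent.Helper691.NS
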