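import Pool.Agent.Helper691.NS.Defs

set_option autoImplicit false
open Filter Topology

namespace Pool.Agent.Helper691.NS

theorem gs_gen_pow (S : Type) [Group S] (k : ℕ) [NeZero k] (a : S)
    (x : RegularWreathProduct S (Multiplicative (ZMod k)))
    (hx1 : x.left = Pi.mulSingle 1 a) (hx2 : x.right = Multiplicative.ofAdd 1) (j : ℕ)
    (hj : j ≤ k) :
    (x ^ j).right = Multiplicative.ofAdd (j : ZMod k) ∧
    ∀ i < k, (x ^ j).left (Multiplicative.ofAdd (i : ZMod k)) = if i < j then a else 1 := by
  induction j with
  | zero =>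
    refine ⟨?_, ?_⟩
    · simp
    · intro i hi
      simp
  | succ j ih =>
    obtain ⟨h1, h2⟩ := ih (by omega)
    rw [pow_succ]
    refine ⟨?_, ?_⟩
    · rw [RegularWreathProduct.mul_right, h1, hx2, ← ofAdd_add, Nat.cast_succ]
    · intro i hi
      rw [RegularWreathProduct.mul_left, Pi.mul_apply, h2 i hi, h1, hx1]
      by_cases hij : i = j
      · subst hij
        rw [inv_mul_cancel, Pi.mulSingle_eq_same]
        simp
      · have hne : (Multiplicative.ofAdd (j : ZMod k))⁻¹ * Multiplicative.ofAdd (i : ZMod k) ≠ 1 := by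
          intro h
          rw [inv_mul_eq_one] at h
          have h' : (j : ZMod k) = i := Multiplicative.ofAdd.injective h
          rw [ZMod.natCast_eq_natCast_iff', Nat.mod_eq_of_lt (by omega), Nat.mod_eq_of_lt hi] at h'
          exact hij h'.symm
        rw [Pi.mulSingle_eq_of_ne hne, mul_one]
        split_ifs <;> first | rfl | omega

end Pool.Agent.Helper691.NS
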