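import Pool.Agent.Helper691.NS.Defs
import Pool.Agent.Helper691.NS.Indep
import Pool.Agent.Helper691.NS.Gs_gen_pow

set_option autoImplicit false
open Filter Topology

namespace Pool.Agent.Helper691.NS

def gen_core_io (S : Type) [Group S] (C : Type) [Group C] : (C → S) →* RegularWreathProduct S C where
  toFun f := ⟨f, 1⟩
  map_one' := rfl
  map_mul' f g := by
    apply RegularWreathProduct.ext
    · funext y
      simp
    · simp

theorem gen_core_io_left {S C : Type} [Group S] [Group C] (f : C → S) :
    (gen_core_io S C f).left = f := rfl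

theorem gen_core_io_right {S C : Type} [Group S] [Group C] (f : C → S) :
    (gen_core_io S C f).right = 1 := rfl

theorem gen_core_conj {S C : Type} [Group S] [Group C] (w : RegularWreathProduct S C) (f : C → S) :
    w * gen_core_io S C f * w⁻¹ =
      gen_core_io S C (fun y => w.left y * f (w.right⁻¹ * y) * (w.left y)⁻¹) := by
  apply RegularWreathProduct.ext
  · funext y
    simp [gen_core_io_left, gen_core_io_right]
  · simp [gen_core_io_right]

theorem gen_core_rep (k : ℕ) [NeZero k] (z : Multiplicative (ZMod k)) :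
    ∃ i < k, Multiplicative.ofAdd ((i : ℕ) : ZMod k) = z := by
  refine ⟨(Multiplicative.toAdd z).val, ZMod.val_lt _, ?_⟩
  rw [ZMod.natCast_zmod_val]
  rfl

theorem gen_core (S : Type) [Group S] (hS : IsSimpleGroup S) (hna : ∃ a b : S, a * b ≠ b * a)
    (k : ℕ) [NeZero k] (m : ℕ) (hm : 0 < m) (a : S)
    (v : Fin m → Multiplicative (ZMod k) → S) (h1 : v ⟨0, hm⟩ 1 = 1)
    (h2 : ∀ c, c ≠ 1 → v ⟨0, hm⟩ c ≠ 1)
    (hgen : Subgroup.closure
      ({a} ∪ Set.range (fun p : Fin m × Multiplicative (ZMod k) => v p.1 p.2)) = ⊤) :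
    ∃ F : Fin (m + 1) → RegularWreathProduct S (Multiplicative (ZMod k)),
      Subgroup.closure (Set.range F) = ⊤ := by
  classical
  obtain ⟨x, hx1, hx2⟩ : ∃ x : RegularWreathProduct S (Multiplicative (ZMod k)),
      x.left = Pi.mulSingle 1 a ∧ x.right = Multiplicative.ofAdd 1 := ⟨⟨_, _⟩, rfl, rfl⟩
  have hkpos : 0 < k := Nat.pos_of_ne_zero (NeZero.ne k)
  have hpow := gs_gen_pow S k a x hx1 hx2
  refine ⟨Fin.cons x (fun j => gen_core_io S _ (v j)), ?_⟩
  set T := Subgroup.closure (Set.range (Fin.cons x (fun j => gen_core_io S _ (v j)) :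
    Fin (m + 1) → RegularWreathProduct S (Multiplicative (ZMod k)))) with hT
  have hxT : x ∈ T := Subgroup.subset_closure ⟨0, by simp⟩
  have hvT : ∀ j, gen_core_io S _ (v j) ∈ T := fun j => Subgroup.subset_closure ⟨j.succ, by simp⟩
  set X : Subgroup (Multiplicative (ZMod k) → S) :=
    T.comap (gen_core_io S (Multiplicative (ZMod k))) with hX
  have hvX : ∀ j, v j ∈ X := hvT
  have hconj : ∀ f ∈ X, ∀ j : ℕ,
      (fun y => (x ^ j).left y * f ((x ^ j).right⁻¹ * y) * ((x ^ j).left y)⁻¹) ∈ X := by
    intro f hf j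
    change gen_core_io S _ _ ∈ T
    rw [← gen_core_conj]
    exact T.mul_mem (T.mul_mem (T.pow_mem hxT j) hf) (T.inv_mem (T.pow_mem hxT j))
  -- the constant function
  have hconst : (fun _ => a) ∈ X := by
    change gen_core_io S _ _ ∈ T
    have h := hpow k le_rfl
    have : gen_core_io S (Multiplicative (ZMod k)) (fun _ => a) = x ^ k := by
      apply RegularWreathProduct.ext
      · funext y
        obtain ⟨i, hi, rfl⟩ := gen_core_rep k y
        rw [h.2 i hi, if_pos hi]
        rfl
      · rw [h.1]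
        simp [gen_core_io_right]
    rw [this]
    exact T.pow_mem hxT k
  -- evaluation at one
  have hone : ∀ s : S, ∃ f ∈ X, f 1 = s := by
    have key : (⊤ : Subgroup S) ≤ X.map (Pi.evalMonoidHom (fun _ : Multiplicative (ZMod k) => S) 1) := by
      rw [← hgen, Subgroup.closure_le]
      have ha : a ∈ X.map (Pi.evalMonoidHom (fun _ : Multiplicative (ZMod k) => S) 1) :=
        ⟨fun _ => a, hconst, rfl⟩
      rintro s (hs | ⟨⟨j, c⟩, rfl⟩)
      · rw [Set.mem_singleton_iff] at hs
        rw [hs]
        exact ha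
      · obtain ⟨i, hi, hic⟩ := gen_core_rep k c⁻¹
        have h := hpow i hi.le
        have h0 := h.2 0 hkpos
        have hA : (x ^ i).left 1 ∈ X.map (Pi.evalMonoidHom (fun _ : Multiplicative (ZMod k) => S) 1) := by
          have e : (1 : Multiplicative (ZMod k)) = Multiplicative.ofAdd (((0 : ℕ) : ZMod k)) := by simp
          have h0' : (x ^ i).left 1 = if 0 < i then a else 1 := by
            rw [e]; exact h0
          rw [h0']
          split
          · exact ha
          · exact one_mem _
        have hf := hconj (v j) (hvX j) i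
        have hf1 : (x ^ i).left 1 * v j c * ((x ^ i).left 1)⁻¹ ∈
            X.map (Pi.evalMonoidHom (fun _ : Multiplicative (ZMod k) => S) 1) := by
          refine ⟨_, hf, ?_⟩
          simp only [Pi.evalMonoidHom_apply]
          rw [h.1, hic, inv_inv, mul_one]
        have := mul_mem (mul_mem (inv_mem hA) hf1) hA
        have e2 : ((x ^ i).left 1)⁻¹ * ((x ^ i).left 1 * v j c * ((x ^ i).left 1)⁻¹) * (x ^ i).left 1 =
            v j c := by group
        rw [e2] at this
        exact this
    intro s
    obtain ⟨f, hf, hfs⟩ := key (Subgroup.mem_top s)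
    exact ⟨f, hf, hfs⟩
  have hall : ∀ (c : Multiplicative (ZMod k)) (s : S), ∃ f ∈ X, f c = s := by
    intro c s
    obtain ⟨i, hi, hic⟩ := gen_core_rep k c
    have h := hpow i hi.le
    obtain ⟨f, hf, hfs⟩ := hone (((x ^ i).left c)⁻¹ * s * (x ^ i).left c)
    refine ⟨_, hconj f hf i, ?_⟩
    rw [h.1, hic, inv_mul_cancel, hfs]
    group
  have hsep : ∀ c c' : Multiplicative (ZMod k), (∀ f ∈ X, f c = 1 → f c' = 1) → c = c' := by
    intro c c' hcc
    obtain ⟨i, hi, hic⟩ := gen_core_rep k c
    have h := hpow i hi.le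
    have h3 := hcc _ (hconj _ (hvX ⟨0, hm⟩) i)
    rw [h.1, hic, inv_mul_cancel, h1, mul_one, mul_inv_cancel] at h3
    have h4 := h3 rfl
    have h5 : v ⟨0, hm⟩ (c⁻¹ * c') = 1 := by
      have h6 := congrArg (fun t => ((x ^ i).left c')⁻¹ * t * (x ^ i).left c') h4
      rw [mul_one, inv_mul_cancel] at h6
      rw [← h6]
      group
    by_contra hne
    refine h2 (c⁻¹ * c') ?_ h5
    intro h7
    exact hne (inv_mul_eq_one.mp h7)
  have hXtop : X = ⊤ := by
    rw [eq_top_iff]
    intro w _
    obtain ⟨y, hy, -⟩ := indep (X := X) (J := Multiplicative (ZMod k)) (fun _ => S)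
      (fun c => (Pi.evalMonoidHom (fun _ : Multiplicative (ZMod k) => S) c).comp X.subtype)
      (fun c s => by
        obtain ⟨f, hf, hfs⟩ := hall c s
        exact ⟨⟨f, hf⟩, hfs⟩)
      (fun _ => hS) (fun _ => hna)
      (fun c c' hcc => by
        refine hsep c c' fun f hf hfc => ?_
        have h8 : (⟨f, hf⟩ : X) ∈
            ((Pi.evalMonoidHom (fun _ : Multiplicative (ZMod k) => S) c).comp X.subtype).ker := hfc
        rw [hcc] at h8
        exact h8)
      (A := PUnit) (1 : X →* PUnit) (fun _ => ⟨1, Subsingleton.elim _ _⟩) Finset.univ w PUnit.unit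
    have : (y : Multiplicative (ZMod k) → S) = w := by
      funext c
      exact hy c (Finset.mem_univ c)
    rw [← this]
    exact y.2
  rw [eq_top_iff]
  intro w _
  obtain ⟨i, hi, hic⟩ := gen_core_rep k w.right
  have h := hpow i hi.le
  have hw : w = gen_core_io S _ (w.left * ((x ^ i).left)⁻¹) * x ^ i := by
    apply RegularWreathProduct.ext
    · funext y
      simp [gen_core_io_left, gen_core_io_right]
    · simp [gen_core_io_right, h.1, hic]
  rw [hw]
  refine T.mul_mem ?_ (T.pow_mem hxT i)
  have : w.left * ((x ^ i).left)⁻¹ ∈ X := by rw [hXtop]; exact Subgroup.mem_top _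
  exact this

end Pool.Agent.Helper691.NS
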