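import Pool.Agent.Helper691.NS.Defs

set_option autoImplicit false
open Filter Topology

namespace Pool.Agent.Helper691.NS

theorem gen_slots (S : Type) [Group S] [Nontrivial S] (C : Type) [Finite C] (o : C) (m : ℕ)
    (hm : 0 < m) (d : ℕ) (s : Fin d → S) (hs : Subgroup.closure (Set.range s) = ⊤)
    (hd : d ≤ m * Nat.card C) :
    ∃ (a : S) (v : Fin m → C → S), v ⟨0, hm⟩ o = 1 ∧ (∀ c, c ≠ o → v ⟨0, hm⟩ c ≠ 1) ∧
      Subgroup.closure ({a} ∪ Set.range (fun p : Fin m × C => v p.1 p.2)) = ⊤ := by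
  classical
  have := Fintype.ofFinite C
  obtain ⟨E, hE⟩ : ∃ E : Finset S, E = (Finset.univ.image s).filter (fun x => x ≠ 1) := ⟨_, rfl⟩
  have hmem : ∀ x, x ∈ E ↔ (∃ i, s i = x) ∧ x ≠ 1 := by
    intro x
    rw [hE]
    simp
  have hEne : E.Nonempty := by
    by_contra hcon
    rw [Finset.not_nonempty_iff_eq_empty] at hcon
    have h1 : Subgroup.closure (Set.range s) ≤ ⊥ := by
      rw [Subgroup.closure_le]
      rintro x ⟨i, rfl⟩
      by_contra hx
      have : s i ∈ E := (hmem _).mpr ⟨⟨i, rfl⟩, hx⟩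
      rw [hcon] at this
      exact absurd this (Finset.notMem_empty _)
    rw [hs, le_bot_iff] at h1
    exact top_ne_bot h1
  have hcard : E.card ≤ Fintype.card (Fin m × C) := by
    have h1 : E.card ≤ (Finset.univ.image s).card := by
      rw [hE]; exact Finset.card_filter_le _ _
    have h2 : (Finset.univ.image s).card ≤ d := by
      refine Finset.card_image_le.trans ?_
      simp
    rw [Fintype.card_prod, Fintype.card_fin, ← Nat.card_eq_fintype_card]
    omega
  have hne : Nonempty E := hEne.to_subtype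
  obtain ⟨emb⟩ : Nonempty (E ↪ Fin m × C) := by
    apply Function.Embedding.nonempty_of_card_le
    rw [Fintype.card_coe]
    exact hcard
  obtain ⟨g, hg⟩ : ∃ g : Fin m × C → E, Function.Surjective g :=
    ⟨Function.invFun emb, Function.invFun_surjective emb.injective⟩
  have hg1 : ∀ p, (g p : S) ≠ 1 := fun p => ((hmem _).mp (g p).2).2
  refine ⟨(g (⟨0, hm⟩, o) : S), fun j c => if (j, c) = ((⟨0, hm⟩, o) : Fin m × C) then 1 else (g (j, c) : S),
    by simp, ?_, ?_⟩
  · intro c hc
    have h1 : ((⟨0, hm⟩, c) : Fin m × C) ≠ (⟨0, hm⟩, o) := by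
      intro h
      exact hc (Prod.ext_iff.mp h).2
    beta_reduce
    rw [if_neg h1]
    exact hg1 _
  · rw [eq_top_iff, ← hs, Subgroup.closure_le]
    rintro x ⟨i, rfl⟩
    by_cases hx : s i = 1
    · rw [hx]; exact Subgroup.one_mem _
    · obtain ⟨p, hp⟩ := hg ⟨s i, (hmem _).mpr ⟨⟨i, rfl⟩, hx⟩⟩
      apply Subgroup.subset_closure
      have hp' : (g p : S) = s i := by rw [hp]
      by_cases hpp : p = (⟨0, hm⟩, o)
      · left
        rw [Set.mem_singleton_iff, ← hp', hpp]
      · right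
        refine ⟨p, ?_⟩
        beta_reduce
        rw [if_neg hpp, ← hp']

end Pool.Agent.Helper691.NS
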