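import Pool.Agent.Helper691.NS.Defs

set_option autoImplicit false
open Filter Topology

namespace Pool.Agent.Helper691.NS

/-- embedding of the base group -/
def gs_comm_j (S C : Type) [Group S] [Group C] : (C → S) →* RegularWreathProduct S C where
  toFun f := ⟨f, 1⟩
  map_one' := rfl
  map_mul' f g := by
    ext
    · simp
    · simp

theorem gs_comm_map {A B : Type} [Group A] [Group B] (f : A →* B) (a : A)
    (ha : a ∈ commutator A) : f a ∈ commutator B := by
  have h1 : f a ∈ (commutator A).map f := Subgroup.mem_map_of_mem f ha
  have h2 : (commutator A).map f ≤ commutator B := by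
    show (⁅(⊤ : Subgroup A), ⊤⁆ : Subgroup A).map f ≤ ⁅(⊤ : Subgroup B), ⊤⁆
    rw [Subgroup.map_commutator]
    exact Subgroup.commutator_mono le_top le_top
  exact h2 h1

theorem gs_comm (S : Type) [Group S] (hS : IsSimpleGroup S)
    (hna : ∃ a b : S, a * b ≠ b * a) (k : ℕ) [NeZero k]
    (w : RegularWreathProduct S (Multiplicative (ZMod k))) :
    w ∈ commutator (RegularWreathProduct S (Multiplicative (ZMod k))) ↔ w.right = 1 := by
  classical
  constructor
  · intro h
    have h1 := Abelianization.commutator_subset_ker
      (RegularWreathProduct.rightHom :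
        RegularWreathProduct S (Multiplicative (ZMod k)) →* Multiplicative (ZMod k)) h
    exact h1
  · intro h
    have hperf : commutator S = ⊤ := by
      rcases hS.eq_bot_or_eq_top_of_normal (commutator S) inferInstance with hb | ht
      · exfalso
        obtain ⟨a, b, hab⟩ := hna
        apply hab
        have h1 := Subgroup.commutator_mem_commutator (Subgroup.mem_top a) (Subgroup.mem_top b)
        have h2 : (⁅(⊤ : Subgroup S), ⊤⁆ : Subgroup S) = ⊥ := hb
        rw [h2, Subgroup.mem_bot] at h1
        exact commutatorElement_eq_one_iff_mul_comm.1 h1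
      · exact ht
    have : Finite (Multiplicative (ZMod k)) := by
      have : Finite (ZMod k) := Finite.of_fintype _
      exact Finite.of_equiv (ZMod k) Multiplicative.ofAdd
    have hw : w = gs_comm_j S (Multiplicative (ZMod k)) w.left := by
      ext
      · rfl
      · exact h
    have hmem : w.left ∈ (commutator (RegularWreathProduct S (Multiplicative (ZMod k)))).comap
        (gs_comm_j S (Multiplicative (ZMod k))) := by
      refine Subgroup.pi_mem_of_mulSingle_mem _ fun c => ?_
      have h1 := gs_comm_map ((gs_comm_j S (Multiplicative (ZMod k))).comp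
        (MonoidHom.mulSingle (fun _ : Multiplicative (ZMod k) => S) c)) (w.left c)
        (by rw [hperf]; exact Subgroup.mem_top _)
      exact h1
    rw [hw]
    exact hmem

end Pool.Agent.Helper691.NS
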