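import Pool.Agent.Helper691.NS.Defs

set_option autoImplicit false
open Filter Topology

namespace Pool.Agent.Helper691.NS

/-- the base group of the wreath product -/
def gs_min_base (S Q : Type) [Group S] [Group Q] : (Q → S) →* RegularWreathProduct S Q where
  toFun f := ⟨f, 1⟩
  map_one' := rfl
  map_mul' f g := by
    ext x
    · simp
    · simp

theorem gs_min_shift (S Q : Type) [Group S] [Group Q] (f : Q → S) (d : Q) :
    (⟨1, d⟩ : RegularWreathProduct S Q) * gs_min_base S Q f * (⟨1, d⟩ : RegularWreathProduct S Q)⁻¹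
      = gs_min_base S Q (fun x => f (d⁻¹ * x)) := by
  apply RegularWreathProduct.ext
  · funext x
    simp [gs_min_base]
  · simp [gs_min_base]

theorem gs_min_center (S : Type) [Group S] (hS : IsSimpleGroup S)
    (hna : ∃ a b : S, a * b ≠ b * a) (a : S) (ha : a ≠ 1) : ∃ s : S, s * a ≠ a * s := by
  by_contra hcon
  push Not at hcon
  have hac : a ∈ Subgroup.center S := by
    rw [Subgroup.mem_center_iff]
    exact hcon
  rcases hS.eq_bot_or_eq_top_of_normal (Subgroup.center S) inferInstance with h | h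
  · rw [h, Subgroup.mem_bot] at hac
    exact ha hac
  · obtain ⟨x, y, hxy⟩ := hna
    have hy : y ∈ Subgroup.center S := by
      rw [h]
      exact Subgroup.mem_top y
    exact hxy (Subgroup.mem_center_iff.1 hy x)

theorem gs_min_gen (S Q : Type) [Group S] [Group Q] [Finite Q] (hS : IsSimpleGroup S)
    (hna : ∃ a b : S, a * b ≠ b * a)
    (K : Subgroup (RegularWreathProduct S Q)) (hK : K.Normal)
    (hr : ∀ w ∈ K, w.right = 1) (hne : K ≠ ⊥)
    (w : RegularWreathProduct S Q) (hw : w.right = 1) : w ∈ K := by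
  classical
  let bs := gs_min_base S Q
  let B : Subgroup (Q → S) := K.comap bs
  have hB : B.Normal := hK.comap bs
  have hBmem : ∀ v : RegularWreathProduct S Q, v ∈ K → v.left ∈ B := by
    intro v hv
    have hv1 : bs v.left = v := by
      apply RegularWreathProduct.ext
      · rfl
      · exact (hr v hv).symm
    change bs v.left ∈ K
    rw [hv1]
    exact hv
  obtain ⟨⟨v, hv⟩, hv0⟩ := Subgroup.ne_bot_iff_exists_ne_one.1 hne
  have hv1 : v ≠ 1 := fun h => hv0 (Subtype.ext h)
  have hvl : v.left ≠ 1 := by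
    intro h
    apply hv1
    apply RegularWreathProduct.ext
    · exact h
    · exact hr _ hv
  obtain ⟨c, hc⟩ := Function.ne_iff.1 hvl
  set f := v.left with hf
  have hfB : f ∈ B := hBmem _ hv
  obtain ⟨s, hs⟩ := gs_min_center S hS hna (f c) hc
  have hcomm : Pi.mulSingle c s * f * (Pi.mulSingle c s)⁻¹ * f⁻¹ ∈ B :=
    B.mul_mem (hB.conj_mem f hfB _) (B.inv_mem hfB)
  have hceq : Pi.mulSingle c s * f * (Pi.mulSingle c s)⁻¹ * f⁻¹
      = (Pi.mulSingle c (s * f c * s⁻¹ * (f c)⁻¹) : Q → S) := by
    funext x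
    by_cases hx : x = c
    · subst hx
      simp
    · simp [Pi.mulSingle_eq_of_ne hx]
  let N : Subgroup S := B.comap (MonoidHom.mulSingle (fun _ : Q => S) c)
  have hN : N.Normal := hB.comap _
  have hNt : N = ⊤ := by
    rcases hS.eq_bot_or_eq_top_of_normal N hN with h | h
    · exfalso
      have h1 : s * f c * s⁻¹ * (f c)⁻¹ ∈ N := by
        change Pi.mulSingle c (s * f c * s⁻¹ * (f c)⁻¹) ∈ B
        rw [← hceq]
        exact hcomm
      rw [h, Subgroup.mem_bot, mul_inv_eq_one, mul_inv_eq_iff_eq_mul] at h1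
      exact hs h1
    · exact h
  have hall : ∀ (c' : Q) (u : S), (Pi.mulSingle c' u : Q → S) ∈ B := by
    intro c' u
    have hu : u ∈ N := by
      rw [hNt]
      exact Subgroup.mem_top u
    have hu2 : bs (Pi.mulSingle c u) ∈ K := hu
    have h1 := hK.conj_mem _ hu2 (⟨1, c' * c⁻¹⟩ : RegularWreathProduct S Q)
    have h2 : (fun x => (Pi.mulSingle c u : Q → S) ((c' * c⁻¹)⁻¹ * x)) = Pi.mulSingle c' u := by
      funext x
      by_cases hx : x = c'
      · subst hx
        simp
      · rw [Pi.mulSingle_eq_of_ne hx, Pi.mulSingle_eq_of_ne]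
        intro h
        apply hx
        rw [inv_mul_eq_iff_eq_mul] at h
        rw [h]
        group
    rw [gs_min_shift, h2] at h1
    exact h1
  have hw2 : w.left ∈ B := Subgroup.pi_mem_of_mulSingle_mem _ (fun i => hall i _)
  have hw3 : bs w.left = w := by
    apply RegularWreathProduct.ext
    · rfl
    · exact hw.symm
  have hw4 : bs w.left ∈ K := hw2
  rw [hw3] at hw4
  exact hw4

theorem gs_min (S : Type) [Group S] (hS : IsSimpleGroup S)
    (hna : ∃ a b : S, a * b ≠ b * a) (k : ℕ) [NeZero k]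
    (K : Subgroup (RegularWreathProduct S (Multiplicative (ZMod k)))) (hK : K.Normal)
    (hr : ∀ w ∈ K, w.right = 1) (hne : K ≠ ⊥)
    (w : RegularWreathProduct S (Multiplicative (ZMod k))) (hw : w.right = 1) : w ∈ K := by
  have : Finite (Multiplicative (ZMod k)) := Finite.of_equiv (ZMod k) Multiplicative.ofAdd
  exact gs_min_gen S _ hS hna K hK hr hne w hw

end Pool.Agent.Helper691.NS
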