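import Pool.Agent.Helper691.NS.Defs
import Pool.Agent.Helper691.NS.Gs_comm
import Pool.Agent.Helper691.NS.Gs_min
import Pool.Agent.Helper691.NS.Gen_slots
import Pool.Agent.Helper691.NS.Gen_core

set_option autoImplicit false
open Filter Topology

namespace Pool.Agent.Helper691.NS

theorem good_of_gen_ne (S : Type) [Group S] (hS : IsSimpleGroup S)
    (hna : ∃ a b : S, a * b ≠ b * a) (k : ℕ) [NeZero k] :
    commutator (RegularWreathProduct S (Multiplicative (ZMod k))) ≠ ⊥ := by
  intro h
  obtain ⟨a, b, hab⟩ := hna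
  have ha : a ≠ 1 := by
    rintro rfl
    apply hab
    rw [one_mul, mul_one]
  have h1 := (gs_comm S hS ⟨a, b, hab⟩ k ⟨fun _ => a, 1⟩).2 rfl
  rw [h, Subgroup.mem_bot] at h1
  have h2 := congrArg RegularWreathProduct.left h1
  exact ha (congrFun h2 1)

theorem good_of_gen_equiv (S : Type) [Group S] (hS : IsSimpleGroup S)
    (hna : ∃ a b : S, a * b ≠ b * a) (k : ℕ) [NeZero k] :
    Nonempty (commutator (RegularWreathProduct S (Multiplicative (ZMod k))) ≃* (Fin k → S)) := by
  have hc : Nat.card (Multiplicative (ZMod k)) = k := by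
    rw [Nat.card_congr Multiplicative.toAdd, Nat.card_zmod]
  let e : Multiplicative (ZMod k) ≃ Fin k := Finite.equivFinOfCardEq hc
  have hr : ∀ w : commutator (RegularWreathProduct S (Multiplicative (ZMod k))),
      w.1.right = 1 := fun w => (gs_comm S hS hna k w.1).1 w.2
  refine ⟨{ toFun := fun w i => w.1.left (e.symm i)
            invFun := fun f => ⟨⟨fun q => f (e q), 1⟩, (gs_comm S hS hna k _).2 rfl⟩
            left_inv := ?_
            right_inv := ?_
            map_mul' := ?_ }⟩
  · intro w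
    apply Subtype.ext
    apply RegularWreathProduct.ext
    · funext q
      simp
    · exact (hr w).symm
  · intro f
    funext i
    simp
  · intro v w
    funext i
    simp [hr v]

theorem good_of_wreath (S : Type) [Group S] (hS : IsSimpleGroup S)
    (hna : ∃ a b : S, a * b ≠ b * a) (k : ℕ) [NeZero k] :
    Good (RegularWreathProduct S (Multiplicative (ZMod k))) := by
  refine ⟨⟨1⟩, good_of_gen_ne S hS hna k, fun K hK hle => ?_⟩
  by_cases hne : K = ⊥
  · exact Or.inl hne
  · right
    refine le_antisymm hle fun w hw => ?_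
    exact gs_min S hS hna k K hK (fun v hv => (gs_comm S hS hna k v).1 (hle hv)) hne w
      ((gs_comm S hS hna k w).1 hw)

theorem gen_pad {S : Type} [Group S] (n d : ℕ) (s : Fin d → S)
    (hs : Subgroup.closure (Set.range s) = ⊤) (hd : d ≤ n) :
    ∃ f : Fin n → S, Subgroup.closure (Set.range f) = ⊤ := by
  refine ⟨fun i => if h : (i : ℕ) < d then s ⟨i, h⟩ else 1, ?_⟩
  rw [eq_top_iff, ← hs, Subgroup.closure_le]
  rintro x ⟨i, rfl⟩
  refine Subgroup.subset_closure ⟨⟨i, i.2.trans_le hd⟩, ?_⟩
  simp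

theorem gen_one (S : Type) [Group S] (n d : ℕ) (s : Fin d → S)
    (hs : Subgroup.closure (Set.range s) = ⊤) (hd : d ≤ n) :
    ∃ F : Fin n → RegularWreathProduct S (Multiplicative (ZMod 1)),
      Subgroup.closure (Set.range F) = ⊤ := by
  obtain ⟨f, hf⟩ := gen_pad n d s hs hd
  let ι : S →* RegularWreathProduct S (Multiplicative (ZMod 1)) :=
    { toFun := fun u => ⟨fun _ => u, 1⟩, map_one' := rfl, map_mul' := fun u v => by ext <;> simp }
  have hι : Function.Surjective ι := by
    rintro ⟨u, q⟩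
    refine ⟨u 1, RegularWreathProduct.ext ?_ (Subsingleton.elim _ _)⟩
    funext c
    exact congrArg u (Subsingleton.elim _ _)
  refine ⟨fun i => ι (f i), ?_⟩
  have : Set.range (fun i => ι (f i)) = ι '' Set.range f := by
    rw [← Set.range_comp]; rfl
  rw [this, ← MonoidHom.map_closure, hf, ← MonoidHom.range_eq_map, MonoidHom.range_eq_top.mpr hι]

/-- finite groups realizing the blocks -/
theorem block_group (n : ℕ) (hn : 1 < n) (S : Type) [Group S] [Finite S] (hS : IsSimpleGroup S)
    (hna : ∃ a b : S, a * b ≠ b * a) (k : ℕ) (hk : 0 < k) (d : ℕ) (s : Fin d → S)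
    (hs : Subgroup.closure (Set.range s) = ⊤) (hd : d ≤ n ∨ d ≤ (n - 1) * k) :
    ∃ (T : Type) (_ : Group T) (_ : Finite T), Good T ∧
      (∃ f : Fin n → T, Subgroup.closure (Set.range f) = ⊤) ∧
      Nonempty (commutator T ≃* (Fin k → S)) := by
  haveI : NeZero k := ⟨hk.ne'⟩
  refine ⟨RegularWreathProduct S (Multiplicative (ZMod k)), inferInstance, inferInstance,
    good_of_wreath S hS hna k, ?_, good_of_gen_equiv S hS hna k⟩
  by_cases hk1 : k = 1
  · subst hk1
    have hd' : d ≤ n := by
      rcases hd with h | h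
      · exact h
      · omega
    exact gen_one S n d s hs hd'
  · have hk2 : 2 ≤ k := by omega
    have hd' : d ≤ (n - 1) * k := by
      rcases hd with h | h
      · calc d ≤ n := h
          _ ≤ (n - 1) * 2 := by omega
          _ ≤ (n - 1) * k := Nat.mul_le_mul_left _ hk2
      · exact h
    have hc : Nat.card (Multiplicative (ZMod k)) = k := by
      rw [Nat.card_congr Multiplicative.toAdd, Nat.card_zmod]
    haveI : Nontrivial S := hS.toNontrivial
    obtain ⟨a, v, h1, h2, h3⟩ := gen_slots S (Multiplicative (ZMod k)) 1 (n - 1) (by omega) d s hs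
      (by rw [hc]; exact hd')
    obtain ⟨F, hF⟩ := gen_core S hS hna k (n - 1) (by omega) a v h1 h2 h3
    exact gen_pad n (n - 1 + 1) F hF (by omega)

theorem two_gen_n {T : Type} [Group T] (n : ℕ) (hn : 1 < n)
    (h : ∃ a b : T, Subgroup.closure {a, b} = ⊤) :
    ∃ f : Fin n → T, Subgroup.closure (Set.range f) = ⊤ := by
  obtain ⟨a, b, hab⟩ := h
  refine gen_pad n 2 ![a, b] ?_ hn
  rw [← hab]
  congr 1
  ext x
  simp [eq_comm, or_comm]

theorem exists_surj_n {n : ℕ} {G : Type} [Group G] [TopologicalSpace G]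
    (ι : Fin n → G) (hG : FreeFin n G ι) (T : Type) [Group T] [Finite T]
    (hT : ∃ f : Fin n → T, Subgroup.closure (Set.range f) = ⊤) :
    ∃ τ : G →* T, Function.Surjective τ ∧ OK τ := by
  obtain ⟨f, hf⟩ := hT
  obtain ⟨φ, hφ, hφι⟩ := hG.ex T f
  refine ⟨φ, ?_, hφ⟩
  rw [← MonoidHom.range_eq_top, eq_top_iff, ← hf, Subgroup.closure_le]
  rintro x ⟨i, rfl⟩
  exact ⟨ι i, hφι i⟩

end Pool.Agent.Helper691.NS
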