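import Pool.Agent.Helper691.NS.Defs

set_option autoImplicit false
open Filter Topology

namespace Pool.Agent.Helper691.NS

/-- affine maps of a field -/
@[ext]
structure good_prime_Aff (k : Type) [Field k] where
  b : k
  u : kˣ

instance good_prime_grp (k : Type) [Field k] : Group (good_prime_Aff k) where
  mul x y := ⟨x.b + x.u * y.b, x.u * y.u⟩
  one := ⟨0, 1⟩
  inv x := ⟨-((x.u⁻¹ : kˣ) * x.b), x.u⁻¹⟩
  mul_assoc x y z := by
    apply good_prime_Aff.ext
    · show x.b + x.u * y.b + ((x.u * y.u : kˣ) : k) * z.b = x.b + x.u * (y.b + y.u * z.b)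
      rw [Units.val_mul]; ring
    · exact mul_assoc _ _ _
  one_mul x := by
    apply good_prime_Aff.ext
    · show (0 : k) + ((1 : kˣ) : k) * x.b = x.b
      simp
    · exact one_mul _
  mul_one x := by
    apply good_prime_Aff.ext
    · show x.b + x.u * (0 : k) = x.b
      simp
    · exact mul_one _
  inv_mul_cancel x := by
    apply good_prime_Aff.ext
    · show -((x.u⁻¹ : kˣ) * x.b) + ((x.u⁻¹ : kˣ) : k) * x.b = 0
      ring
    · exact inv_mul_cancel _

theorem good_prime_mul {k : Type} [Field k] (b b' : k) (u u' : kˣ) :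
    (⟨b, u⟩ * ⟨b', u'⟩ : good_prime_Aff k) = ⟨b + u * b', u * u'⟩ := rfl

theorem good_prime_one {k : Type} [Field k] : (1 : good_prime_Aff k) = ⟨0, 1⟩ := rfl

theorem good_prime_inv {k : Type} [Field k] (b : k) (u : kˣ) :
    (⟨b, u⟩⁻¹ : good_prime_Aff k) = ⟨-((u⁻¹ : kˣ) * b), u⁻¹⟩ := rfl

/-- linear part -/
def good_prime_pi (k : Type) [Field k] : good_prime_Aff k →* kˣ where
  toFun x := x.u
  map_one' := rfl
  map_mul' _ _ := rfl

theorem good_prime_conj {k : Type} [Field k] (b : k) (u : kˣ) :
    (⟨0, u⟩ * ⟨b, 1⟩ * ⟨0, u⟩⁻¹ : good_prime_Aff k) = ⟨u * b, 1⟩ := by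
  rw [good_prime_inv, good_prime_mul, good_prime_mul]
  apply good_prime_Aff.ext <;> simp

open scoped commutatorElement in
theorem good_prime_mem {k : Type} [Field k] (hk : ∃ u : kˣ, u ≠ 1) (x : good_prime_Aff k) :
    x ∈ commutator (good_prime_Aff k) ↔ x.u = 1 := by
  constructor
  · intro hx
    have h := Abelianization.commutator_subset_ker (good_prime_pi k) hx
    exact h
  · intro hx
    obtain ⟨u, hu⟩ := hk
    have hu1 : (u : k) - 1 ≠ 0 := by
      intro h
      apply hu
      ext
      rw [Units.val_one]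
      linear_combination h
    have h2 : x = ⁅(⟨0, u⟩ : good_prime_Aff k), ⟨((u : k) - 1)⁻¹ * x.b, 1⟩⁆ := by
      rw [commutatorElement_def, good_prime_conj, good_prime_inv, good_prime_mul]
      apply good_prime_Aff.ext
      · simp only [inv_one, Units.val_one, one_mul]
        field_simp
        ring
      · rw [hx]; simp
    rw [h2]
    exact Subgroup.commutator_mem_commutator (Subgroup.mem_top _) (Subgroup.mem_top _)

theorem good_prime_pow {k : Type} [Field k] (b : k) (n : ℕ) :
    ((⟨b, 1⟩ : good_prime_Aff k) ^ n) = ⟨n * b, 1⟩ := by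
  induction n with
  | zero => rw [pow_zero, good_prime_one]; simp
  | succ n ih =>
    rw [pow_succ, ih, good_prime_mul]
    apply good_prime_Aff.ext
    · push_cast; ring
    · simp

theorem good_prime_powu {k : Type} [Field k] (u : kˣ) (n : ℕ) :
    ((⟨0, u⟩ : good_prime_Aff k) ^ n) = ⟨0, u ^ n⟩ := by
  induction n with
  | zero => rw [pow_zero, good_prime_one]; simp
  | succ n ih =>
    rw [pow_succ, ih, good_prime_mul]
    apply good_prime_Aff.ext
    · simp
    · simp [pow_succ]

theorem good_prime (p : ℕ) (hp : p.Prime) :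
    ∃ (T : Type) (_ : Group T) (_ : Finite T), Good2 T ∧ (∀ a ∈ commutator T, a ^ p = 1) ∧
      ∀ a ∈ commutator T, ∀ b ∈ commutator T, a * b = b * a := by
  have : Fact p.Prime := ⟨hp⟩
  have hcard : Nat.card (GaloisField p 2) = p ^ 2 := GaloisField.card p 2 (by norm_num)
  have hfin : Finite (GaloisField p 2) := Nat.finite_of_card_ne_zero (by
    rw [hcard]; exact (pow_pos hp.pos 2).ne')
  have hk : ∃ u : (GaloisField p 2)ˣ, u ≠ 1 := by
    by_contra hcon
    push Not at hcon
    have hsurj : Function.Surjective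
        (fun b : Bool => if b then (1 : GaloisField p 2) else 0) := by
      intro x
      by_cases hx : x = 0
      · exact ⟨false, by simp [hx]⟩
      · refine ⟨true, ?_⟩
        have := congrArg Units.val (hcon (Units.mk0 x hx))
        simp at this
        simp [this]
    have h1 := Nat.card_le_card_of_surjective _ hsurj
    rw [hcard] at h1
    have h2 : 2 ^ 2 ≤ p ^ 2 := Nat.pow_le_pow_left hp.two_le 2
    simp at h1
    omega
  have hmem := fun x => good_prime_mem hk x
  refine ⟨good_prime_Aff (GaloisField p 2), inferInstance, ?_, ⟨?_, ?_, ?_⟩, ?_, ?_⟩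
  · exact Finite.of_injective
      (fun x : good_prime_Aff (GaloisField p 2) => (x.b, x.u)) (by
        intro x y h
        exact good_prime_Aff.ext (congrArg Prod.fst h) (congrArg Prod.snd h))
  · obtain ⟨g, hg⟩ := IsCyclic.exists_generator (α := (GaloisField p 2)ˣ)
    refine ⟨⟨0, g⟩, ⟨1, 1⟩, ?_⟩
    rw [eq_top_iff]
    set H := Subgroup.closure {(⟨0, g⟩ : good_prime_Aff (GaloisField p 2)), ⟨1, 1⟩} with hH
    have m1 : (⟨0, g⟩ : good_prime_Aff (GaloisField p 2)) ∈ H :=
      Subgroup.subset_closure (by simp)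
    have m2 : (⟨1, 1⟩ : good_prime_Aff (GaloisField p 2)) ∈ H :=
      Subgroup.subset_closure (by simp)
    have m3 : ∀ u : (GaloisField p 2)ˣ, (⟨0, u⟩ : good_prime_Aff (GaloisField p 2)) ∈ H := by
      intro u
      obtain ⟨n, hn⟩ := (mem_powers_iff_mem_zpowers (x := g)).2 (hg u)
      have hn' : g ^ n = u := hn
      rw [← hn', ← good_prime_powu]
      exact H.pow_mem m1 n
    have m4 : ∀ b : GaloisField p 2, (⟨b, 1⟩ : good_prime_Aff (GaloisField p 2)) ∈ H := by
      intro b
      by_cases hb : b = 0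
      · rw [hb]; exact H.one_mem
      · have h1 := H.mul_mem (H.mul_mem (m3 (Units.mk0 b hb)) m2) (H.inv_mem (m3 (Units.mk0 b hb)))
        rw [good_prime_conj] at h1
        simpa using h1
    intro x _
    have h1 := H.mul_mem (m4 x.b) (m3 x.u)
    rw [good_prime_mul] at h1
    simpa using h1
  · intro h
    have h1 : (⟨1, 1⟩ : good_prime_Aff (GaloisField p 2)) ∈
        commutator (good_prime_Aff (GaloisField p 2)) := (hmem _).2 rfl
    rw [h, Subgroup.mem_bot, good_prime_one] at h1
    have h2 := congrArg good_prime_Aff.b h1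
    exact one_ne_zero h2
  · intro K hK hKle
    by_cases hbot : K = ⊥
    · exact Or.inl hbot
    · right
      obtain ⟨⟨x, hx⟩, hy⟩ := Subgroup.ne_bot_iff_exists_ne_one.1 hbot
      have hx1 : x ≠ 1 := fun h => hy (Subtype.ext h)
      have hxu := (hmem x).1 (hKle hx)
      have hxe : x = ⟨x.b, 1⟩ := good_prime_Aff.ext rfl hxu
      have hb : x.b ≠ 0 := by
        intro h
        apply hx1
        rw [hxe, h, good_prime_one]
      refine le_antisymm hKle fun y hy => ?_
      have hyu := (hmem y).1 hy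
      have hye : y = ⟨y.b, 1⟩ := good_prime_Aff.ext rfl hyu
      by_cases hc : y.b = 0
      · rw [hye, hc]; exact K.one_mem
      · have hx' : (⟨x.b, 1⟩ : good_prime_Aff (GaloisField p 2)) ∈ K := hxe ▸ hx
        have h1 := hK.conj_mem _ hx' ⟨0, Units.mk0 (y.b / x.b) (div_ne_zero hc hb)⟩
        rw [good_prime_conj] at h1
        rw [hye]
        have h2 : ((Units.mk0 (y.b / x.b) (div_ne_zero hc hb) : (GaloisField p 2)ˣ) :
            GaloisField p 2) * x.b = y.b := by
          rw [Units.val_mk0]; field_simp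
        rw [h2] at h1
        exact h1
  · intro a ha
    have hau := (hmem a).1 ha
    have hae : a = ⟨a.b, 1⟩ := good_prime_Aff.ext rfl hau
    rw [hae, good_prime_pow, CharP.cast_eq_zero, zero_mul, good_prime_one]
  · intro a ha b hb
    have hae : a = ⟨a.b, 1⟩ := good_prime_Aff.ext rfl ((hmem a).1 ha)
    have hbe : b = ⟨b.b, 1⟩ := good_prime_Aff.ext rfl ((hmem b).1 hb)
    rw [hae, hbe, good_prime_mul, good_prime_mul]
    apply good_prime_Aff.ext
    · simp [add_comm]
    · simp

end Pool.Agent.Helper691.NS
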