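import Pool.Agent.Helper691.NS.Defs

set_option autoImplicit false
open Filter Topology

namespace Pool.Agent.Helper691.NS

theorem has_min_vs (p : ℕ) [Fact p.Prime] (V : Type) [AddCommGroup V] [Module (ZMod p) V]
    [Nontrivial V] : ∃ φ : V →+ ZMod p, Function.Surjective φ := by
  obtain ⟨x, hx⟩ := exists_ne (0 : V)
  have h1 : ¬ ∀ φ : Module.Dual (ZMod p) V, φ x = 0 := by
    intro hc
    exact hx ((Module.forall_dual_apply_eq_zero_iff (ZMod p) x).1 hc)
  push Not at h1
  obtain ⟨φ, hφ⟩ := h1
  have hφ0 : φ ≠ 0 := by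
    intro hc
    rw [hc] at hφ
    exact hφ rfl
  have hs : Function.Surjective φ := LinearMap.surjective hφ0
  exact ⟨φ.toAddMonoidHom, hs⟩

theorem has_min_aux (p : ℕ) (hp : Fact p.Prime) (D : Type) [CommGroup D] (hD : Nontrivial D)
    (h : ∀ a : D, a ^ p = 1) : ∃ f : D →* Multiplicative (ZMod p), Function.Surjective f := by
  have hz : ∀ x : Additive D, p • x = 0 := fun x => h x.toMul
  obtain ⟨φ, hs⟩ := @has_min_vs p hp (Additive D) inferInstance (AddCommGroup.zmodModule hz)
    inferInstance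
  refine ⟨{ toFun := fun a => Multiplicative.ofAdd (φ (Additive.ofMul a))
            map_one' := ?_
            map_mul' := ?_ }, ?_⟩
  · change Multiplicative.ofAdd (φ 0) = 1
    rw [map_zero]
    rfl
  · intro a b
    change Multiplicative.ofAdd (φ (Additive.ofMul a + Additive.ofMul b)) = _
    rw [map_add]
    rfl
  · intro y
    obtain ⟨x, hx⟩ := hs y.toAdd
    refine ⟨x.toMul, ?_⟩
    change Multiplicative.ofAdd (φ x) = y
    rw [hx]
    rfl

theorem has_min {G : Type} [Group G] [TopologicalSpace G] [IsTopologicalGroup G] [CompactSpace G]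
    [T2Space G] [TotallyDisconnectedSpace G] {I : Type} (T : I → Type) [∀ i, Group (T i)]
    [∀ i, Finite (T i)] (τ : ∀ i, G →* T i) (hτ : ∀ i, Function.Surjective (τ i))
    (hok : ∀ i, OK (τ i)) (hgood : ∀ i, Good (T i)) (M : Subgroup G) (hM : MinSub T τ M)
    (p : ℕ) (hp : p.Prime) (i : I) (hi : ∀ a ∈ commutator (T i), a ^ p = 1)
    (hc : ∀ a ∈ commutator (T i), ∀ b ∈ commutator (T i), a * b = b * a) : Has p M := by
  have hcg : ∃ f : ↥(commutator (T i)) →* Multiplicative (ZMod p), Function.Surjective f := by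
    let cg : CommGroup ↥(commutator (T i)) :=
      { (inferInstance : Group ↥(commutator (T i))) with
        mul_comm := fun a b => Subtype.ext (hc a.1 a.2 b.1 b.2) }
    have hnt : Nontrivial ↥(commutator (T i)) :=
      (Subgroup.nontrivial_iff_ne_bot _).2 (hgood i).2.1
    exact @has_min_aux p ⟨hp⟩ ↥(commutator (T i)) cg hnt
      (fun a => Subtype.ext (hi a.1 a.2))
  obtain ⟨f, hf⟩ := hcg
  have hmem : ∀ x : M, τ i x ∈ commutator (T i) := by
    intro x
    rw [← hM.map i]
    exact ⟨x, x.2, rfl⟩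
  let g : M →* ↥(commutator (T i)) :=
    { toFun := fun x => ⟨τ i x, hmem x⟩
      map_one' := Subtype.ext (by simp)
      map_mul' := fun x y => Subtype.ext (by simp) }
  have hg : Function.Surjective g := by
    intro d
    have hd : d.1 ∈ M.map (τ i) := by
      rw [hM.map i]
      exact d.2
    obtain ⟨x, hx, hxd⟩ := hd
    exact ⟨⟨x, hx⟩, Subtype.ext hxd⟩
  refine ⟨f.comp g, hf.comp hg, ?_⟩
  have h1 : IsOpen (((τ i).ker.subgroupOf M : Subgroup M) : Set M) := by
    have h2 : (((τ i).ker.subgroupOf M : Subgroup M) : Set M) =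
        (Subtype.val : M → G) ⁻¹' ((τ i).ker : Set G) := rfl
    rw [h2]
    exact (hok i).preimage continuous_subtype_val
  refine Subgroup.isOpen_mono ?_ h1
  intro x hx
  have h3 : τ i x = 1 := hx
  rw [MonoidHom.mem_ker, MonoidHom.comp_apply]
  have h4 : g x = 1 := Subtype.ext h3
  rw [h4, map_one]

end Pool.Agent.Helper691.NS
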