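import Pool.Agent.Helper691.NS.Defs

set_option autoImplicit false
open Filter Topology

namespace Pool.Agent.Helper691.NS

theorem index_unbdd {n : ℕ} (hn : 1 < n) {G : Type} [Group G] [TopologicalSpace G] [IsTopologicalGroup G] [CompactSpace G]
    [T2Space G] [TotallyDisconnectedSpace G] (ι : Fin n → G)
    (hG : FreeFin n G ι) (M : Subgroup G) (hM : M ≤ (commutator G).topologicalClosure) (k : ℕ) :
    ∃ V : Subgroup G, V.Normal ∧ IsOpen (V : Set G) ∧ k ≤ (M ⊔ V).index := by
  obtain ⟨φ, hφo, hφ⟩ := hG.ex (Multiplicative (ZMod (k + 1))) (fun _ => Multiplicative.ofAdd 1)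
  have hsurj : Function.Surjective φ := by
    intro x
    refine ⟨ι ⟨0, by omega⟩ ^ (Multiplicative.toAdd x).val, ?_⟩
    rw [map_pow, hφ, ← ofAdd_nsmul, nsmul_eq_mul, mul_one, ZMod.natCast_zmod_val]
    rfl
  have hclosed : IsClosed (φ.ker : Set G) := Subgroup.isClosed_of_isOpen _ hφo
  have hle : M ≤ φ.ker :=
    hM.trans (Subgroup.topologicalClosure_minimal _ (Abelianization.commutator_subset_ker φ) hclosed)
  refine ⟨φ.ker, inferInstance, hφo, ?_⟩
  rw [sup_eq_right.2 hle, Subgroup.index_ker, MonoidHom.range_eq_top.2 hsurj]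
  have h1 : Nat.card (⊤ : Subgroup (Multiplicative (ZMod (k + 1)))) = k + 1 := by
    rw [Subgroup.card_top, Nat.card_congr Multiplicative.toAdd, Nat.card_zmod]
  rw [h1]
  exact Nat.le_succ k

end Pool.Agent.Helper691.NS
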