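import Pool.Agent.Helper691.NS.Defs

set_option autoImplicit false
open Filter Topology

namespace Pool.Agent.Helper691.NS

theorem iso_of_seq_hom {X Y : Type} [Group X]
    [Group Y] [TopologicalSpace Y] [IsTopologicalGroup Y] [CompactSpace Y]
    (A : ℕ → Type) [∀ n, Group (A n)]
    (qX : ∀ n, X →* A n) (qY : ∀ n, Y →* A n)
    (hY : ∀ n, Function.Surjective (qY n))
    (oY : ∀ n, OK (qY n)) (ρ : ∀ n, A (n + 1) →* A n)
    (hρX : ∀ n, (ρ n).comp (qX (n + 1)) = qX n) (hρY : ∀ n, (ρ n).comp (qY (n + 1)) = qY n)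
    (bY : ∀ y : Y, (∀ n, qY n y = 1) → y = 1) :
    ∃ θ : X →* Y, ∀ n x, qY n (θ x) = qX n x := by
  have hex : ∀ x : X, ∃ y : Y, ∀ n, qY n y = qX n x := by
    intro x
    have hcl : ∀ n, IsClosed {y : Y | qY n y = qX n x} := by
      intro n
      obtain ⟨y0, hy0⟩ := hY n (qX n x)
      have h1 : IsClosed ((qY n).ker : Set Y) := Subgroup.isClosed_of_isOpen _ (oY n)
      have h2 : {y : Y | qY n y = qX n x} = (fun y => y0⁻¹ * y) ⁻¹' ((qY n).ker : Set Y) := by
        ext y
        simp only [Set.mem_ofPred_eq, Set.mem_preimage, SetLike.mem_coe, MonoidHom.mem_ker, map_mul,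
          map_inv, hy0]
        constructor
        · intro h; rw [h, inv_mul_cancel]
        · intro h; exact (inv_mul_eq_one.mp h).symm
      rw [h2]
      exact h1.preimage (by fun_prop)
    have hne := IsCompact.nonempty_iInter_of_sequence_nonempty_isCompact_isClosed
      (fun n => {y : Y | qY n y = qX n x}) (by
        intro n y hy
        simp only [Set.mem_ofPred_eq] at hy ⊢
        rw [← hρY n, ← hρX n, MonoidHom.comp_apply, MonoidHom.comp_apply, hy])
      (fun n => hY n (qX n x)) (hcl 0).isCompact hcl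
    obtain ⟨y, hy⟩ := hne
    exact ⟨y, fun n => Set.mem_iInter.mp hy n⟩
  choose θ hθ using hex
  refine ⟨MonoidHom.mk' θ ?_, fun n x => hθ x n⟩
  intro a b
  have : θ (a * b) * (θ a * θ b)⁻¹ = 1 := by
    apply bY
    intro n
    rw [map_mul, map_inv, map_mul, hθ, hθ, hθ, map_mul, mul_inv_cancel]
  exact mul_inv_eq_one.mp this

theorem iso_of_seq_cont {X Y : Type} [Group X] [TopologicalSpace X] [IsTopologicalGroup X]
    [Group Y] [TopologicalSpace Y] [IsTopologicalGroup Y] [CompactSpace Y] [T2Space Y]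
    (A : ℕ → Type) [∀ n, Group (A n)]
    (qX : ∀ n, X →* A n) (qY : ∀ n, Y →* A n)
    (hY : ∀ n, Function.Surjective (qY n))
    (oX : ∀ n, OK (qX n)) (oY : ∀ n, OK (qY n)) (ρ : ∀ n, A (n + 1) →* A n)
    (hρY : ∀ n, (ρ n).comp (qY (n + 1)) = qY n)
    (bY : ∀ y : Y, (∀ n, qY n y = 1) → y = 1)
    (θ : X →* Y) (hθ : ∀ n x, qY n (θ x) = qX n x) : Continuous θ := by
  apply continuous_of_continuousAt_one θ
  intro V hV
  rw [map_one] at hV
  have hanti : Antitone (fun n => ((qY n).ker : Set Y)) := by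
    apply antitone_nat_of_succ_le
    intro n y hy
    simp only [SetLike.mem_coe, MonoidHom.mem_ker] at hy ⊢
    rw [← hρY n, MonoidHom.comp_apply, hy, map_one]
  obtain ⟨n, hn⟩ := exists_subset_nhds_of_isCompact (V := fun n => ((qY n).ker : Set Y))
    hanti.directed_ge
    (fun n => (Subgroup.isClosed_of_isOpen _ (oY n)).isCompact) (U := V) (by
      intro y hy
      have : y = 1 := bY y (fun n => by
        have := Set.mem_iInter.mp hy n
        exact this)
      rw [this]; exact hV)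
  have h1 : ((qX n).ker : Set X) ∈ 𝓝 (1 : X) := (oX n).mem_nhds (one_mem _)
  rw [Filter.mem_map]
  filter_upwards [h1] with x hx
  apply hn
  simp only [SetLike.mem_coe, MonoidHom.mem_ker] at hx ⊢
  rw [hθ, hx]

theorem iso_of_seq {X Y : Type} [Group X] [TopologicalSpace X] [IsTopologicalGroup X] [CompactSpace X]
    [T2Space X] [TotallyDisconnectedSpace X]
    [Group Y] [TopologicalSpace Y] [IsTopologicalGroup Y] [CompactSpace Y]
    [T2Space Y] [TotallyDisconnectedSpace Y]
    (A : ℕ → Type) [∀ n, Group (A n)]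
    (qX : ∀ n, X →* A n) (qY : ∀ n, Y →* A n)
    (hX : ∀ n, Function.Surjective (qX n)) (hY : ∀ n, Function.Surjective (qY n))
    (oX : ∀ n, OK (qX n)) (oY : ∀ n, OK (qY n)) (ρ : ∀ n, A (n + 1) →* A n)
    (hρX : ∀ n, (ρ n).comp (qX (n + 1)) = qX n) (hρY : ∀ n, (ρ n).comp (qY (n + 1)) = qY n)
    (bX : ∀ x : X, (∀ n, qX n x = 1) → x = 1) (bY : ∀ y : Y, (∀ n, qY n y = 1) → y = 1) :
    Nonempty (X ≃ₜ* Y) := by
  obtain ⟨θ, hθ⟩ := iso_of_seq_hom A qX qY hY oY ρ hρX hρY bY
  obtain ⟨θ', hθ'⟩ := iso_of_seq_hom A qY qX hX oX ρ hρY hρX bX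
  have e1 : ∀ x, θ' (θ x) = x := by
    intro x
    have : (θ' (θ x)) * x⁻¹ = 1 := by
      apply bX
      intro n
      rw [map_mul, hθ', hθ, map_inv, mul_inv_cancel]
    exact mul_inv_eq_one.mp this
  have e2 : ∀ y, θ (θ' y) = y := by
    intro y
    have : (θ (θ' y)) * y⁻¹ = 1 := by
      apply bY
      intro n
      rw [map_mul, hθ, hθ', map_inv, mul_inv_cancel]
    exact mul_inv_eq_one.mp this
  have c1 : Continuous θ := iso_of_seq_cont A qX qY hY oX oY ρ hρY bY θ hθ
  have c2 : Continuous θ' := iso_of_seq_cont A qY qX hX oY oX ρ hρX bX θ' hθ'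
  exact ⟨{ toFun := θ, invFun := θ', left_inv := e1, right_inv := e2, map_mul' := map_mul θ,
           continuous_toFun := c1, continuous_invFun := c2 }⟩

end Pool.Agent.Helper691.NS
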