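import Pool.Agent.Helper691.NS.Defs
import Pool.Agent.Helper691.NS.Ep_step
import Pool.Agent.Helper691.NS.Iso_of_seq
import Pool.Agent.Helper691.NS.Small_normal

set_option autoImplicit false
open Filter Topology

namespace Pool.Agent.Helper691.NS

theorem iso_of_ep_half {X Y P : Type} [Group X] [TopologicalSpace X] [IsTopologicalGroup X]
    [CompactSpace X] [Group Y] [TopologicalSpace Y] [IsTopologicalGroup Y] [Group P]
    [TopologicalSpace P] [IsTopologicalGroup P] [T2Space P]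
    (πX : X →* P) (πY : Y →* P) (hX : Function.Surjective πX) (hY : Function.Surjective πY)
    (cX : Continuous πX) (cY : Continuous πY) (hEP : EP Y) (hU : MelUniv πX)
    (A : Type) [Group A] [Finite A]
    (qX : X →* A) (qY : Y →* A) (hqX : Function.Surjective qX) (hqY : Function.Surjective qY)
    (oX : OK qX) (oY : OK qY)
    (compat : ∀ x y, πX x = πY y → (qX x)⁻¹ * qY y ∈ Mel A)
    (V : Subgroup X) (hV : V.Normal) (hVo : IsOpen (V : Set X)) :
    ∃ (C : Type) (_ : Group C) (_ : Finite C) (rX : X →* C) (rY : Y →* C) (ρ : C →* A),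
      Function.Surjective rX ∧ Function.Surjective rY ∧ OK rX ∧ OK rY ∧
      (∀ x y, πX x = πY y → (rX x)⁻¹ * rY y ∈ Mel C) ∧
      ρ.comp rX = qX ∧ ρ.comp rY = qY ∧ rX.ker ≤ V := by
  haveI hkn : (qX.ker ⊓ V).Normal := Subgroup.normal_inf_normal _ _
  have hko : IsOpen ((qX.ker ⊓ V : Subgroup X) : Set X) := by
    rw [Subgroup.coe_inf]; exact IsOpen.inter oX hVo
  haveI : Finite (X ⧸ (qX.ker ⊓ V)) := Subgroup.quotient_finite_of_isOpen _ hko
  have hk : (QuotientGroup.mk' (qX.ker ⊓ V)).ker = qX.ker ⊓ V := QuotientGroup.ker_mk' _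
  have hs : Function.Surjective (QuotientGroup.mk' (qX.ker ⊓ V)) := QuotientGroup.mk'_surjective _
  have ho : OK (QuotientGroup.mk' (qX.ker ⊓ V)) := by
    unfold OK; rw [hk]; exact hko
  let ρ : (X ⧸ (qX.ker ⊓ V)) →* A := QuotientGroup.lift _ qX (fun x hx => by
    have := (Subgroup.mem_inf.mp hx).1
    exact this)
  have hρ : ρ.comp (QuotientGroup.mk' (qX.ker ⊓ V)) = qX := by
    ext x; rfl
  obtain ⟨ψ, h1, h2, h3, h4⟩ := ep_step πX πY hX hY cX cY hEP hU qX qY hqX hqY oX oY compat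
    (QuotientGroup.mk' (qX.ker ⊓ V)) hs ho ρ hρ
  exact ⟨X ⧸ (qX.ker ⊓ V), inferInstance, inferInstance, QuotientGroup.mk' (qX.ker ⊓ V), ψ, ρ,
    hs, h1, ho, h2, h4, hρ, h3, by rw [hk]; exact inf_le_right⟩

/-- back-and-forth states -/
structure St {X Y P : Type} [Group X] [TopologicalSpace X] [Group Y] [TopologicalSpace Y]
    [Group P] (πX : X →* P) (πY : Y →* P) where
  A : Type
  grp : Group A
  fin : Finite A
  qX : X →* A
  qY : Y →* A
  sX : Function.Surjective qX
  sY : Function.Surjective qY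
  oX : OK qX
  oY : OK qY
  compat : ∀ x y, πX x = πY y → (qX x)⁻¹ * qY y ∈ Mel A

instance instGrpSt {X Y P : Type} [Group X] [TopologicalSpace X] [Group Y] [TopologicalSpace Y]
    [Group P] (πX : X →* P) (πY : Y →* P) (s : St πX πY) : Group s.A := s.grp

theorem st_step {X Y P : Type} [Group X] [TopologicalSpace X] [IsTopologicalGroup X]
    [CompactSpace X] [Group Y] [TopologicalSpace Y] [IsTopologicalGroup Y] [CompactSpace Y]
    [Group P] [TopologicalSpace P] [IsTopologicalGroup P] [T2Space P]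
    (πX : X →* P) (πY : Y →* P) (hX : Function.Surjective πX) (hY : Function.Surjective πY)
    (cX : Continuous πX) (cY : Continuous πY) (eX : EP X) (eY : EP Y)
    (uX : MelUniv πX) (uY : MelUniv πY) (s : St πX πY)
    (V : Subgroup X) (hV : V.Normal) (hVo : IsOpen (V : Set X))
    (W : Subgroup Y) (hW : W.Normal) (hWo : IsOpen (W : Set Y)) :
    ∃ s' : St πX πY, ∃ ρ : s'.A →* s.A,
      ρ.comp s'.qX = s.qX ∧ ρ.comp s'.qY = s.qY ∧ s'.qX.ker ≤ V ∧ s'.qY.ker ≤ W := by
  have := s.fin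
  obtain ⟨C, gC, fC, rX, rY, ρ, h1, h2, h3, h4, h5, h6, h7, h8⟩ :=
    iso_of_ep_half πX πY hX hY cX cY eY uX s.A s.qX s.qY s.sX s.sY s.oX s.oY s.compat V hV hVo
  obtain ⟨D, gD, fD, tY, tX, ρ', k1, k2, k3, k4, k5, k6, k7, k8⟩ :=
    iso_of_ep_half πY πX hY hX cY cX eX uY C rY rX h2 h1 h4 h3
      (fun y x hyx => by
        have := h5 x y hyx.symm
        have h := (Mel C).inv_mem this
        simpa [mul_inv_rev] using h) W hW hWo
  refine ⟨⟨D, gD, fD, tX, tY, k2, k1, k4, k3, fun x y hxy => ?_⟩, ρ.comp ρ', ?_, ?_, ?_, ?_⟩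
  · have := k5 y x hxy.symm
    have h := (Mel D).inv_mem this
    simpa [mul_inv_rev] using h
  · show (ρ.comp ρ').comp tX = s.qX
    rw [MonoidHom.comp_assoc, k7, h6]
  · show (ρ.comp ρ').comp tY = s.qY
    rw [MonoidHom.comp_assoc, k6, h7]
  · show tX.ker ≤ V
    refine le_trans ?_ h8
    intro x hx
    rw [MonoidHom.mem_ker] at hx ⊢
    rw [← k7, MonoidHom.comp_apply, hx, map_one]
  · exact k8

theorem sep_of_cb {X : Type} [Group X] [TopologicalSpace X] [IsTopologicalGroup X]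
    [CompactSpace X] [T2Space X] [TotallyDisconnectedSpace X] (u : ℕ → Subgroup X)
    (hu : ∀ V : Subgroup X, V.Normal → IsOpen (V : Set X) → ∃ n, u n ≤ V) (x : X)
    (hx : ∀ n, x ∈ u n) : x = 1 := by
  by_contra hne
  obtain ⟨V, hVn, hVo, hVs⟩ := small_normal ({x}ᶜ : Set X) isOpen_compl_singleton
    (by simp only [Set.mem_compl_iff, Set.mem_singleton_iff]; exact fun h => hne h.symm)
  obtain ⟨n, hn⟩ := hu V hVn hVo
  have : x ∈ ({x}ᶜ : Set X) := hVs (hn (hx n))
  simp at this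

theorem iso_of_ep {X Y P : Type} [Group X] [TopologicalSpace X] [IsTopologicalGroup X]
    [CompactSpace X] [T2Space X] [TotallyDisconnectedSpace X]
    [Group Y] [TopologicalSpace Y] [IsTopologicalGroup Y] [CompactSpace Y]
    [T2Space Y] [TotallyDisconnectedSpace Y]
    [Group P] [TopologicalSpace P] [IsTopologicalGroup P] [T2Space P]
    (πX : X →* P) (πY : Y →* P) (hX : Function.Surjective πX) (hY : Function.Surjective πY)
    (cX : Continuous πX) (cY : Continuous πY) (eX : EP X) (eY : EP Y)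
    (uX : MelUniv πX) (uY : MelUniv πY) (bX : CB X) (bY : CB Y) :
    Nonempty (X ≃ₜ* Y) := by
  obtain ⟨u, hu, hu'⟩ := bX
  obtain ⟨w, hw, hw'⟩ := bY
  have step : ∀ (n : ℕ) (s : St πX πY), ∃ s' : St πX πY,
      ∃ ρ : s'.A →* s.A, ρ.comp s'.qX = s.qX ∧ ρ.comp s'.qY = s.qY ∧
        s'.qX.ker ≤ u n ∧ s'.qY.ker ≤ w n := fun n s =>
    st_step πX πY hX hY cX cY eX eY uX uY s (u n) (hu n).1 (hu n).2 (w n) (hw n).1 (hw n).2
  let s0 : St πX πY := ⟨PUnit, inferInstance, inferInstance, 1, 1,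
    fun a => ⟨1, Subsingleton.elim _ _⟩, fun a => ⟨1, Subsingleton.elim _ _⟩,
    by
      unfold OK
      rw [show (1 : X →* PUnit).ker = ⊤ from by
        ext x; simp]
      exact isOpen_univ,
    by
      unfold OK
      rw [show (1 : Y →* PUnit).ker = ⊤ from by
        ext x; simp]
      exact isOpen_univ,
    fun x y _ => by
      have : ((1 : X →* PUnit) x)⁻¹ * (1 : Y →* PUnit) y = 1 := Subsingleton.elim _ _
      rw [this]; exact (Mel PUnit).one_mem⟩
  choose nxt hnxt using step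
  obtain ⟨st, hst⟩ : ∃ st : ℕ → St πX πY, ∀ n, st (n + 1) = nxt n (st n) :=
    ⟨fun n => Nat.rec s0 (fun n s => nxt n s) n, fun n => rfl⟩
  have key : ∀ n, ∃ ρ : (st (n + 1)).A →* (st n).A,
      ρ.comp (st (n + 1)).qX = (st n).qX ∧ ρ.comp (st (n + 1)).qY = (st n).qY ∧
        (st (n + 1)).qX.ker ≤ u n ∧ (st (n + 1)).qY.ker ≤ w n := by
    intro n
    rw [hst n]
    exact hnxt n (st n)
  choose ρ h1 h2 h3 h4 using key
  refine iso_of_seq (fun n => (st n).A) (fun n => (st n).qX) (fun n => (st n).qY)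
    (fun n => (st n).sX) (fun n => (st n).sY) (fun n => (st n).oX) (fun n => (st n).oY)
    ρ h1 h2 ?_ ?_
  · intro x hx
    refine sep_of_cb u hu' x fun n => h3 n ?_
    exact hx (n + 1)
  · intro y hy
    refine sep_of_cb w hw' y fun n => h4 n ?_
    exact hy (n + 1)

end Pool.Agent.Helper691.NS
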