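import Pool.Agent.Helper691.NS.Defs

set_option autoImplicit false
open Filter Topology

namespace Pool.Agent.Helper691.NS

theorem mel_univ_of_simple {D : Type} [Group D] (L : Subgroup D) [hn : L.Normal]
    (hL : MaxNormal L) : IsSimpleGroup (D ⧸ L) := by
  obtain ⟨-, h2, h3⟩ := hL
  have hnt : Nontrivial (D ⧸ L) := QuotientGroup.nontrivial_iff.2 h2
  refine ⟨?_⟩
  intro H hH
  have hle : L ≤ H.comap (QuotientGroup.mk' L) := by
    intro y hy
    rw [Subgroup.mem_comap]
    have : (QuotientGroup.mk' L) y = 1 := (QuotientGroup.eq_one_iff y).2 hy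
    rw [this]
    exact H.one_mem
  by_cases ht : H.comap (QuotientGroup.mk' L) = ⊤
  · right
    rw [eq_top_iff]
    intro z _
    obtain ⟨y, rfl⟩ := QuotientGroup.mk'_surjective L z
    have : y ∈ H.comap (QuotientGroup.mk' L) := by rw [ht]; trivial
    exact this
  · left
    have h4 := h3 (H.comap (QuotientGroup.mk' L)) inferInstance hle ht
    rw [eq_bot_iff]
    intro z hz
    obtain ⟨y, rfl⟩ := QuotientGroup.mk'_surjective L z
    have h5 : y ∈ H.comap (QuotientGroup.mk' L) := hz
    rw [h4] at h5
    rw [Subgroup.mem_bot]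
    exact (QuotientGroup.eq_one_iff y).2 h5

theorem mel_univ_of {X : Type} [Group X] [TopologicalSpace X] [IsTopologicalGroup X]
    {P : Type} [Group P] (π : X →* P)
    (h1 : ∀ (T : Type) [Group T] [Finite T] (g : X →* T), IsSimpleGroup T →
      (∃ a b : T, a * b ≠ b * a) → Function.Surjective g → OK g → ∀ x, π x = 1 → g x = 1)
    (h2 : ∀ (p : ℕ) (g : X →* Multiplicative (ZMod p)), p.Prime → Function.Surjective g →
      OK g → ∀ x, π x = 1 → g x = 1) : MelUniv π := by
  intro D _ _ g hg hOK hMel x hx
  rw [MonoidHom.mem_ker] at hx ⊢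
  have hmem : g x ∈ Mel D := by
    unfold Mel
    rw [Subgroup.mem_sInf]
    intro L hL
    have hn : L.Normal := hL.1
    have hs := mel_univ_of_simple L hL
    have hsurj : Function.Surjective ((QuotientGroup.mk' L).comp g) :=
      (QuotientGroup.mk'_surjective L).comp hg
    have hle : g.ker ≤ ((QuotientGroup.mk' L).comp g).ker := by
      intro y hy
      rw [MonoidHom.mem_ker] at hy ⊢
      rw [MonoidHom.comp_apply, hy, map_one]
    have hok : OK ((QuotientGroup.mk' L).comp g) := Subgroup.isOpen_mono hle hOK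
    by_cases hc : ∃ a b : D ⧸ L, a * b ≠ b * a
    · have := h1 (D ⧸ L) ((QuotientGroup.mk' L).comp g) hs hc hsurj hok x hx
      exact (QuotientGroup.eq_one_iff (g x)).1 this
    · push Not at hc
      let _ : CommGroup (D ⧸ L) := { (inferInstance : Group (D ⧸ L)) with mul_comm := hc }
      have hp : (Nat.card (D ⧸ L)).Prime := IsSimpleGroup.prime_card
      have hf : Fact (Nat.card (D ⧸ L)).Prime := ⟨hp⟩
      have e : (D ⧸ L) ≃* Multiplicative (ZMod (Nat.card (D ⧸ L))) :=
        mulEquivOfPrimeCardEq (p := Nat.card (D ⧸ L)) rfl (by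
          rw [Nat.card_congr Multiplicative.toAdd, Nat.card_zmod])
      have hok2 : OK (e.toMonoidHom.comp ((QuotientGroup.mk' L).comp g)) := by
        refine Subgroup.isOpen_mono (H₁ := ((QuotientGroup.mk' L).comp g).ker) ?_ hok
        intro y hy
        rw [MonoidHom.mem_ker] at hy ⊢
        rw [MonoidHom.comp_apply, hy, map_one]
      have h3 := h2 _ (e.toMonoidHom.comp ((QuotientGroup.mk' L).comp g)) hp
        (e.surjective.comp hsurj) hok2 x hx
      have h4 : e (((QuotientGroup.mk' L).comp g) x) = 1 := h3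
      have h5 : ((QuotientGroup.mk' L).comp g) x = 1 := by
        rw [← map_one e] at h4
        exact e.injective h4
      exact (QuotientGroup.eq_one_iff (g x)).1 h5
  rw [hMel, Subgroup.mem_bot] at hmem
  exact hmem

end Pool.Agent.Helper691.NS
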