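import Pool.Agent.Helper691.NS.Defs
import Pool.Agent.Helper691.NS.Ab_basis
import Pool.Agent.Helper691.NS.Fin_joint
import Pool.Agent.Helper691.NS.Mel_univ_of

set_option autoImplicit false
open Filter Topology

namespace Pool.Agent.Helper691.NS

theorem univ_map_cont {X A : Type} [Group X] [TopologicalSpace X] [IsTopologicalGroup X]
    [Group A] [TopologicalSpace A] [DiscreteTopology A] (f : X →* A) (h : OK f) :
    Continuous f := by
  rw [continuous_discrete_rng]
  intro b
  by_cases hb : ∃ x0, f x0 = b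
  · obtain ⟨x0, rfl⟩ := hb
    have h1 : f ⁻¹' {f x0} = (fun x => x0⁻¹ * x) ⁻¹' (f.ker : Set X) := by
      ext x
      rw [Set.mem_preimage, Set.mem_singleton_iff, Set.mem_preimage, SetLike.mem_coe,
        MonoidHom.mem_ker, map_mul, map_inv, inv_mul_eq_one, eq_comm]
    rw [h1]
    exact h.preimage (continuous_const_mul _)
  · have h1 : f ⁻¹' {b} = ∅ := by
      ext x
      rw [Set.mem_preimage, Set.mem_singleton_iff]
      exact ⟨fun h => hb ⟨x, h⟩, fun h => h.elim⟩
    rw [h1]
    exact isOpen_empty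

theorem univ_map {X : Type} [Group X] [TopologicalSpace X] [IsTopologicalGroup X] [CompactSpace X]
    [T2Space X] [TotallyDisconnectedSpace X] (cX : CB X) (J : Type) (S : J → Type) [∀ j, Group (S j)]
    [∀ j, Finite (S j)] [∀ j, TopologicalSpace (S j)] [∀ j, DiscreteTopology (S j)]
    (hS : ∀ j, IsSimpleGroup (S j)) (hna : ∀ j, ∃ a b : S j, a * b ≠ b * a)
    (sX : Spec X J S) (R : Set ℕ) (hR : ∀ p ∈ R, p.Prime) (hBig : ∀ p ∈ R, Big p X)
    (hHas : ∀ p, p.Prime → p ∉ R → ¬ Has p X) :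
    ∃ π : X →* (∀ j, S j) × (∀ q : R, ℕ → Multiplicative (ZMod q)),
      Continuous π ∧ Function.Surjective π ∧ MelUniv π := by
  classical
  obtain ⟨f, hf1, hf2, hf3, hf4⟩ := sX
  have hχex : ∀ q : R, ∃ χ : ℕ → (X →* Multiplicative (ZMod q)), (∀ n, OK (χ n)) ∧
      (∀ (k : ℕ) (v : ℕ → Multiplicative (ZMod q)), ∃ x, ∀ n < k, χ n x = v n) ∧
      ∀ g : X →* Multiplicative (ZMod q), OK g → ∀ x, (∀ n, χ n x = 1) → g x = 1 := by
    intro q
    haveI : Fact (q : ℕ).Prime := ⟨hR q q.2⟩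
    exact ab_basis (q : ℕ) cX (hBig q q.2)
  choose χ hχ1 hχ2 hχ3 using hχex
  let π : X →* (∀ j, S j) × (∀ q : R, ℕ → Multiplicative (ZMod q)) :=
    MonoidHom.prod (Pi.monoidHom f) (Pi.monoidHom fun q => Pi.monoidHom (χ q))
  have hπ1 : ∀ x j, (π x).1 j = f j x := fun x j => rfl
  have hπ2 : ∀ x q n, (π x).2 q n = χ q n x := fun x q n => rfl
  have hfc : ∀ j, Continuous (f j) := fun j => univ_map_cont (f j) (hf2 j)
  have hχc : ∀ q n, Continuous (χ q n) := fun q n => univ_map_cont (χ q n) (hχ1 q n)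
  refine ⟨π, ?_, ?_, ?_⟩
  · have h1 : Continuous fun x => ((fun j => f j x : ∀ j, S j),
        (fun q n => χ q n x : ∀ q : R, ℕ → Multiplicative (ZMod q))) :=
      (continuous_pi hfc).prodMk (continuous_pi fun q => continuous_pi fun n => hχc q n)
    exact h1
  · intro w
    let C : J ⊕ (R × ℕ) → Set X := fun i => match i with
      | Sum.inl j => {x | f j x = w.1 j}
      | Sum.inr qn => {x | χ qn.1 qn.2 x = w.2 qn.1 qn.2}
    have hclosed : ∀ i, IsClosed (C i) := by
      rintro (j | ⟨q, n⟩)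
      · exact (isClosed_singleton (x := w.1 j)).preimage (hfc j)
      · exact (isClosed_singleton (x := w.2 q n)).preimage (hχc q n)
    have hfin : ∀ s : Finset (J ⊕ (R × ℕ)), (⋂ i ∈ s, C i).Nonempty := by
      intro s
      let s2 : Finset (R × ℕ) := s.preimage Sum.inr Sum.inr_injective.injOn
      obtain ⟨x, hx1, hx2⟩ := fin_joint S f hf1 hS hna hf3 R hR χ hχ2
        (s.preimage Sum.inl Sum.inl_injective.injOn) (s2.image Prod.fst)
        (s2.sup Prod.snd + 1) w.1 w.2
      refine ⟨x, ?_⟩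
      rw [Set.mem_iInter₂]
      rintro (j | ⟨q, n⟩) hi
      · exact hx1 j (Finset.mem_preimage.2 hi)
      · have h1 : ((q, n) : R × ℕ) ∈ s2 := Finset.mem_preimage.2 hi
        have h2 : n ≤ s2.sup Prod.snd := Finset.le_sup (f := Prod.snd) h1
        exact hx2 q (Finset.mem_image.2 ⟨(q, n), h1, rfl⟩) n (Nat.lt_succ_of_le h2)
    obtain ⟨x, hx⟩ := CompactSpace.iInter_nonempty hclosed hfin
    rw [Set.mem_iInter] at hx
    refine ⟨x, ?_⟩
    apply Prod.ext
    · funext j
      exact hx (Sum.inl j)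
    · funext q n
      exact hx (Sum.inr (q, n))
  · refine mel_univ_of π ?_ ?_
    · intro T _ _ g hT hab hg hOK x hx
      obtain ⟨j, hj⟩ := hf4 T g hT hab hg hOK
      have h1 : f j x = 1 := by
        rw [← hπ1, hx]
        rfl
      have h2 : x ∈ g.ker := by
        rw [← hj]
        exact h1
      exact h2
    · intro p g hp hg hOK x hx
      have hpR : p ∈ R := by
        by_contra hcon
        exact hHas p hp hcon ⟨g, hg, hOK⟩
      refine hχ3 ⟨p, hpR⟩ g hOK x fun n => ?_
      rw [← hπ2, hx]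
      rfl

end Pool.Agent.Helper691.NS
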