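import Pool.Agent.Helper691.NS.Defs
import Pool.Agent.Helper691.NS.Univ_map
import Pool.Agent.Helper691.NS.IsoEP

set_option autoImplicit false
open Filter Topology

namespace Pool.Agent.Helper691.NS

theorem iso_of_data {X Y : Type} [Group X] [TopologicalSpace X] [IsTopologicalGroup X]
    [CompactSpace X] [T2Space X] [TotallyDisconnectedSpace X]
    [Group Y] [TopologicalSpace Y] [IsTopologicalGroup Y] [CompactSpace Y]
    [T2Space Y] [TotallyDisconnectedSpace Y]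
    (cX : CB X) (cY : CB Y) (eX : EP X) (eY : EP Y)
    (J : Type) (S : J → Type) [∀ j, Group (S j)] [∀ j, Finite (S j)]
    (hS : ∀ j, IsSimpleGroup (S j)) (hna : ∀ j, ∃ a b : S j, a * b ≠ b * a)
    (sX : Spec X J S) (sY : Spec Y J S) (R : Set ℕ) (hR : ∀ p ∈ R, p.Prime)
    (bX : ∀ p ∈ R, Big p X) (bY : ∀ p ∈ R, Big p Y)
    (hX : ∀ p, p.Prime → p ∉ R → ¬ Has p X) (hY : ∀ p, p.Prime → p ∉ R → ¬ Has p Y) :
    Nonempty (X ≃ₜ* Y) := by
  letI : ∀ j, TopologicalSpace (S j) := fun j => ⊥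
  haveI : ∀ j, DiscreteTopology (S j) := fun j => ⟨rfl⟩
  obtain ⟨πX, c1, s1, u1⟩ := univ_map cX J S hS hna sX R hR bX hX
  obtain ⟨πY, c2, s2, u2⟩ := univ_map cY J S hS hna sY R hR bY hY
  exact iso_of_ep πX πY s1 s2 c1 c2 eX eY u1 u2 cX cY

end Pool.Agent.Helper691.NS
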