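import Pool.Agent.Helper691.NS.Defs
import Pool.Agent.Helper691.NS.Small_normal
import Pool.Agent.Helper691.NS.Conj_core

set_option autoImplicit false
open Filter Topology

namespace Pool.Agent.Helper691.NS

theorem min_prime {G : Type} [Group G] [TopologicalSpace G] [IsTopologicalGroup G] [CompactSpace G]
    [T2Space G] [TotallyDisconnectedSpace G] {I : Type} (T : I → Type) [∀ i, Group (T i)]
    [∀ i, Finite (T i)] (τ : ∀ i, G →* T i) (hτ : ∀ i, Function.Surjective (τ i))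
    (hok : ∀ i, OK (τ i)) (hgood : ∀ i, Good (T i)) (M : Subgroup G) (hM : MinSub T τ M)
    (p : ℕ) (hp : p.Prime) (h : Has p M) :
    ∃ i, ∀ a ∈ commutator (T i), a ^ p = 1 ∧ ∀ b ∈ commutator (T i), a * b = b * a := by
  obtain ⟨χ, hχs, hχo⟩ := h
  have hne : χ.ker ≠ ⊤ := by
    intro hk
    haveI : Fact p.Prime := ⟨hp⟩
    obtain ⟨x, hx⟩ := hχs (Multiplicative.ofAdd (1 : ZMod p))
    have h1 : x ∈ χ.ker := by rw [hk]; trivial
    rw [MonoidHom.mem_ker, hx] at h1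
    exact one_ne_zero (α := ZMod p) (Multiplicative.ofAdd.injective h1)
  obtain ⟨t, hLt, ht, K, hKn, hKc, hKM, hKne, hK⟩ := conj_core M hM.nor hM.clo χ.ker hχo inferInstance hne
  obtain ⟨i, hi⟩ := hM.min K hKn hKc hKM hKne
  have hpw : ∀ z : Multiplicative (ZMod p), z ^ p = 1 := by
    intro z
    apply Multiplicative.toAdd.injective
    rw [toAdd_pow, toAdd_one, nsmul_eq_mul, ZMod.natCast_self, zero_mul]
  have hkey : ∀ x : M, (∀ g : G, ∀ (hg : g⁻¹ * (x : G) * g ∈ M), χ ⟨g⁻¹ * (x : G) * g, hg⟩ = 1) →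
      τ i (x : G) = 1 := by
    intro x hx
    have h1 : (x : G) ∈ K := by
      rw [hK]
      intro L' hL'
      obtain ⟨g, hg⟩ := ht L' hL'
      rw [hg]
      have hm : g⁻¹ * (x : G) * g ∈ M := by
        have := hM.nor.conj_mem _ x.2 g⁻¹
        simpa using this
      refine ⟨⟨g⁻¹ * (x : G) * g, hm⟩, ?_, ?_⟩
      · rw [MonoidHom.mem_ker]; exact hx g hm
      · simp only
        group
    exact hi h1
  refine ⟨i, ?_⟩
  intro a ha
  rw [← hM.map i] at ha
  obtain ⟨x, hxM, rfl⟩ := ha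
  have hcm : ∀ (g z : G), z ∈ M → g⁻¹ * z * g ∈ M := by
    intro g z hz
    have := hM.nor.conj_mem _ hz g⁻¹
    simpa using this
  constructor
  · rw [← map_pow]
    refine hkey ⟨x ^ p, M.pow_mem hxM p⟩ ?_
    intro g hg
    have h1 : (⟨g⁻¹ * x ^ p * g, hg⟩ : M) = ⟨g⁻¹ * x * g, hcm g x hxM⟩ ^ p := by
      apply Subtype.ext
      have := conj_pow (a := g⁻¹) (b := x) (i := p)
      simp only [inv_inv] at this
      simp [this]
    rw [h1, map_pow, hpw]
  · intro b hb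
    rw [← hM.map i] at hb
    obtain ⟨y, hyM, rfl⟩ := hb
    have h2 : τ i (x * y * x⁻¹ * y⁻¹) = 1 := by
      refine hkey ⟨x * y * x⁻¹ * y⁻¹, M.mul_mem (M.mul_mem (M.mul_mem hxM hyM) (M.inv_mem hxM)) (M.inv_mem hyM)⟩ ?_
      intro g hg
      have h1 : (⟨g⁻¹ * (x * y * x⁻¹ * y⁻¹) * g, hg⟩ : M) =
          ⟨g⁻¹ * x * g, hcm g x hxM⟩ * ⟨g⁻¹ * y * g, hcm g y hyM⟩ *
          ⟨g⁻¹ * x * g, hcm g x hxM⟩⁻¹ * ⟨g⁻¹ * y * g, hcm g y hyM⟩⁻¹ := by
        apply Subtype.ext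
        simp only [Subgroup.coe_mul, Subgroup.coe_inv]
        group
      rw [h1, map_mul, map_mul, map_mul, map_inv, map_inv]
      rw [mul_comm (χ _) (χ _)]
      group
    rw [map_mul, map_mul, map_mul, map_inv, map_inv] at h2
    have h3 := mul_eq_one_iff_eq_inv.1 h2
    rw [inv_inv] at h3
    calc τ i x * τ i y = τ i x * τ i y * (τ i x)⁻¹ * τ i x := by group
      _ = τ i y * τ i x := by rw [h3]

end Pool.Agent.Helper691.NS
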