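import Pool.Agent.Helper691.NS.Defs
import Pool.Agent.Helper691.NS.Wreath_hom
import Pool.Agent.Helper691.NS.Wreath_sub

set_option autoImplicit false
open Filter Topology

namespace Pool.Agent.Helper691.NS

/-- the induced map of wreath products -/
def omega_lift_W {A B Q : Type} [Group A] [Group B] [Group Q] (α : A →* B) :
    RegularWreathProduct A Q →* RegularWreathProduct B Q where
  toFun w := ⟨fun x => α (w.left x), w.right⟩
  map_one' := by
    apply RegularWreathProduct.ext
    · funext x; simp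
    · rfl
  map_mul' a b := by
    apply RegularWreathProduct.ext
    · funext x; simp
    · rfl

theorem omega_lift {F : Type} [Group F] [TopologicalSpace F] [IsTopologicalGroup F]
    [CompactSpace F] (κ : ℕ → F) (hF : FreeOmega F κ) (U : Subgroup F) (hU : U.Normal)
    (hUo : IsOpen (U : Set F)) (m : ℕ) : LiftProp U m := by
  classical
  intro A B _ _ _ _ α φ hm hα hφs hφ
  haveI : U.Normal := hU
  haveI hfin : Finite (F ⧸ U) := Subgroup.quotient_finite_of_isOpen U hUo
  let s : F ⧸ U → F := fun x => if x = 1 then 1 else Quotient.out x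
  have hs : ∀ x, (QuotientGroup.mk (s x) : F ⧸ U) = x := by
    intro x
    by_cases hx : x = 1
    · simp only [s, hx, if_true]
      rfl
    · simp only [s, hx, if_false]
      exact QuotientGroup.out_eq' x
  have hs1 : s 1 = 1 := by simp only [s, if_true]
  obtain ⟨Φ, hΦo, hΦr, hΦl⟩ := wreath_hom U hUo φ hφ s hs
  have hΦ1 : ∀ u : U, (Φ (u : F)).left 1 = φ u := by
    intro u
    have hu : (QuotientGroup.mk (u : F) : F ⧸ U) = 1 := (QuotientGroup.eq_one_iff (u : F)).mpr u.2
    have he : (s 1)⁻¹ * (u : F) * s ((QuotientGroup.mk (u : F) : F ⧸ U)⁻¹ * 1) = u := by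
      rw [hu, inv_one, one_mul, hs1, inv_one, one_mul, mul_one]
    have hmem : (s 1)⁻¹ * (u : F) * s ((QuotientGroup.mk (u : F) : F ⧸ U)⁻¹ * 1) ∈ U := by
      rw [he]; exact u.2
    rw [hΦl (u : F) 1 hmem]
    congr 1
    exact Subtype.ext he
  have hev : ∀ᶠ k in atTop, κ k ∈ Φ.ker := by
    have h1 : (Φ.ker : Set F) ∈ 𝓝 (1 : F) := IsOpen.mem_nhds hΦo (one_mem Φ.ker)
    exact hF.conv h1
  obtain ⟨N0, hN0⟩ := eventually_atTop.mp hev
  let e := Finite.equivFin (α.ker)
  let n : α.ker → ℕ := fun c => N0 + (e c : ℕ)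
  have hninj : Function.Injective n := by
    intro c c' h
    have h1 : (e c : ℕ) = (e c' : ℕ) := Nat.add_left_cancel h
    exact e.injective (Fin.ext h1)
  let f : ℕ → RegularWreathProduct A (F ⧸ U) := fun k =>
    if h : ∃ c : α.ker, n c = k then ⟨fun x => if x = 1 then (h.choose : A) else 1, 1⟩
    else if Φ (κ k) = 1 then 1
    else ⟨fun x => Function.surjInv hα ((Φ (κ k)).left x), (Φ (κ k)).right⟩
  have hfn : ∀ c : α.ker, f (n c) = ⟨fun x => if x = 1 then (c : A) else 1, 1⟩ := by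
    intro c
    have h : ∃ c' : α.ker, n c' = n c := ⟨c, rfl⟩
    have h2 : h.choose = c := hninj h.choose_spec
    simp only [f]
    rw [dif_pos h, h2]
  have hfev : ∀ᶠ k in atTop, f k = 1 := by
    rw [eventually_atTop]
    refine ⟨N0 + Nat.card α.ker, ?_⟩
    intro k hk
    have h : ¬ ∃ c : α.ker, n c = k := by
      rintro ⟨c, hc⟩
      have h1 : (e c : ℕ) < Nat.card α.ker := (e c).2
      have h2 : N0 + (e c : ℕ) = k := hc
      omega
    have h3 : Φ (κ k) = 1 := hN0 k (by omega)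
    simp only [f]
    rw [dif_neg h, if_pos h3]
  obtain ⟨Ψ, hΨo, hΨ⟩ := hF.ex _ f hfev
  have hW : (omega_lift_W (Q := F ⧸ U) α).comp Ψ = Φ := by
    apply hF.uniq _ _ _ _ hΦo
    · intro i
      rw [MonoidHom.comp_apply, hΨ i]
      by_cases h : ∃ c : α.ker, n c = i
      · obtain ⟨c, hc⟩ := h
        have h3 : Φ (κ i) = 1 := hN0 i (by rw [← hc]; exact Nat.le_add_right _ _)
        rw [h3, ← hc, hfn c]
        apply RegularWreathProduct.ext
        · funext x
          show α (if x = 1 then (c : A) else 1) = 1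
          by_cases hx : x = 1
          · rw [if_pos hx]; exact c.2
          · rw [if_neg hx]; exact map_one α
        · rfl
      · by_cases h3 : Φ (κ i) = 1
        · simp only [f]
          rw [dif_neg h, if_pos h3, h3, map_one]
        · simp only [f]
          rw [dif_neg h, if_neg h3]
          apply RegularWreathProduct.ext
          · funext x
            exact Function.surjInv_eq hα _
          · rfl
    · show IsOpen (((omega_lift_W (Q := F ⧸ U) α).comp Ψ).ker : Set F)
      have hle : Ψ.ker ≤ ((omega_lift_W (Q := F ⧸ U) α).comp Ψ).ker := by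
        intro g hg
        rw [MonoidHom.mem_ker] at hg ⊢
        rw [MonoidHom.comp_apply, hg, map_one]
      exact Subgroup.isOpen_mono hle hΨo
  have hWf : ∀ g : F, omega_lift_W (Q := F ⧸ U) α (Ψ g) = Φ g := by
    intro g
    rw [← hW]; rfl
  have hr : ∀ g, (Ψ g).right = (QuotientGroup.mk g : F ⧸ U) := by
    intro g
    rw [← hΦr g, ← hWf g]; rfl
  obtain ⟨ψ, hψo, hψ, -⟩ := wreath_sub U Ψ hΨo hr
  have hαψ : ∀ u : U, α (ψ u) = φ u := by
    intro u
    rw [hψ u, ← hΦ1 u, ← hWf (u : F)]; rfl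
  refine ⟨ψ, ?_, hψo, ?_⟩
  · intro a
    obtain ⟨u, hu⟩ := hφs (α a)
    have hc : a * (ψ u)⁻¹ ∈ α.ker := by
      rw [MonoidHom.mem_ker, map_mul, map_inv, hαψ u, hu, mul_inv_cancel]
    have h3 : Φ (κ (n ⟨_, hc⟩)) = 1 := hN0 _ (Nat.le_add_right _ _)
    have hmem : κ (n ⟨_, hc⟩) ∈ U := by
      rw [← QuotientGroup.eq_one_iff, ← hΦr, h3]; rfl
    have h4 : ψ ⟨κ (n ⟨_, hc⟩), hmem⟩ = a * (ψ u)⁻¹ := by
      rw [hψ]
      show (Ψ (κ (n ⟨_, hc⟩))).left 1 = _
      rw [hΨ, hfn]
      show (if (1 : F ⧸ U) = 1 then a * (ψ u)⁻¹ else 1) = _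
      rw [if_pos rfl]
    refine ⟨⟨κ (n ⟨_, hc⟩), hmem⟩ * u, ?_⟩
    rw [map_mul, h4, inv_mul_cancel_right]
  · ext u
    rw [MonoidHom.comp_apply, hαψ u]

end Pool.Agent.Helper691.NS
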