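import Pool.Agent.Helper691.NS.Defs
import Pool.Agent.Helper691.NS.Omega_lift

set_option autoImplicit false
open Filter Topology

namespace Pool.Agent.Helper691.NS

theorem nlift_omega {F : Type} [Group F] [TopologicalSpace F] [IsTopologicalGroup F] [CompactSpace F]
    [T2Space F] [TotallyDisconnectedSpace F] (κ : ℕ → F) (hF : FreeOmega F κ)
    (N : Subgroup F) (hN : N.Normal) : NLift N := by
  intro m V₀ hV hVo
  exact ⟨V₀, hV, hVo, le_rfl, omega_lift κ hF (N ⊔ V₀) inferInstance
    (Subgroup.isOpen_mono le_sup_right hVo) m⟩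

end Pool.Agent.Helper691.NS
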