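import Pool.Agent.Helper691.NS.Defs

set_option autoImplicit false
open Filter Topology

namespace Pool.Agent.Helper691.NS

/-- the predicate defining the index type -/
def spec_exists_P {X : Type} [Group X] [TopologicalSpace X] (L : Subgroup X) : Prop :=
  ∃ _ : L.Normal, IsOpen (L : Set X) ∧ IsSimpleGroup (X ⧸ L) ∧ ∃ a b : X ⧸ L, a * b ≠ b * a

theorem spec_exists_countable {X : Type} [Group X] [TopologicalSpace X] [IsTopologicalGroup X]
    [CompactSpace X] (hCB : CB X) : Countable {L : Subgroup X // spec_exists_P L} := by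
  obtain ⟨u, hu1, hu2⟩ := hCB
  have h1 : ∀ n, {L : Subgroup X | u n ≤ L}.Finite := by
    intro n
    have hn : (u n).Normal := (hu1 n).1
    have hfin : Finite (X ⧸ u n) := Subgroup.quotient_finite_of_isOpen (u n) (hu1 n).2
    apply Set.Finite.of_finite_image
      (f := fun L : Subgroup X => L.map (QuotientGroup.mk' (u n)))
    · exact Set.toFinite _
    · intro L hL L' hL' h
      have hk : (QuotientGroup.mk' (u n)).ker = u n := QuotientGroup.ker_mk' (u n)
      have e1 := Subgroup.comap_map_eq_self (f := QuotientGroup.mk' (u n)) (H := L)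
        (by rw [hk]; exact hL)
      have e2 := Subgroup.comap_map_eq_self (f := QuotientGroup.mk' (u n)) (H := L')
        (by rw [hk]; exact hL')
      have h' : L.map (QuotientGroup.mk' (u n)) = L'.map (QuotientGroup.mk' (u n)) := h
      rw [← e1, ← e2, h']
  have h2 : (⋃ n, {L : Subgroup X | u n ≤ L}).Countable :=
    Set.countable_iUnion fun n => (h1 n).countable
  have h3 : {L : Subgroup X | spec_exists_P L} ⊆ ⋃ n, {L : Subgroup X | u n ≤ L} := by
    rintro L ⟨hL, hLo, -⟩
    obtain ⟨n, hn⟩ := hu2 L hL hLo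
    exact Set.mem_iUnion.2 ⟨n, hn⟩
  exact (h2.mono h3).to_subtype

theorem spec_exists {X : Type} [Group X] [TopologicalSpace X] [IsTopologicalGroup X] [CompactSpace X]
    [T2Space X] [TotallyDisconnectedSpace X] (hCB : CB X) :
    ∃ (J : Type) (_ : Countable J) (S : J → Type) (_ : ∀ j, Group (S j))
      (_ : ∀ j, Finite (S j)), (∀ j, IsSimpleGroup (S j)) ∧
      (∀ j, ∃ a b : S j, a * b ≠ b * a) ∧ Spec X J S := by
  refine ⟨{L : Subgroup X // spec_exists_P L}, spec_exists_countable hCB, fun j => X ⧸ j.1,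
    fun j => @QuotientGroup.Quotient.group X _ j.1 j.2.1, fun j => ?_, fun j => ?_, fun j => ?_,
    fun j => @QuotientGroup.mk' X _ j.1 j.2.1, fun j => ?_, fun j => ?_, fun i j hij => ?_, ?_⟩
  · exact Subgroup.quotient_finite_of_isOpen j.1 j.2.2.1
  · exact j.2.2.2.1
  · exact j.2.2.2.2
  · have hn : (j.1).Normal := j.2.1
    exact QuotientGroup.mk'_surjective j.1
  · have hn : (j.1).Normal := j.2.1
    show IsOpen (((QuotientGroup.mk' j.1).ker : Subgroup X) : Set X)
    rw [QuotientGroup.ker_mk']
    exact j.2.2.1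
  · have hni : (i.1).Normal := i.2.1
    have hnj : (j.1).Normal := j.2.1
    apply Subtype.ext
    have h : (QuotientGroup.mk' i.1).ker = (QuotientGroup.mk' j.1).ker := hij
    rwa [QuotientGroup.ker_mk', QuotientGroup.ker_mk'] at h
  · intro T _ _ g hT hab hg hOK
    have hs : IsSimpleGroup (X ⧸ g.ker) :=
      (QuotientGroup.quotientKerEquivOfSurjective g hg).isSimpleGroup
    have hP : spec_exists_P g.ker := by
      refine ⟨inferInstance, hOK, hs, ?_⟩
      obtain ⟨a, b, hne⟩ := hab
      let e := QuotientGroup.quotientKerEquivOfSurjective g hg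
      refine ⟨e.symm a, e.symm b, fun h => hne ?_⟩
      have h2 := congrArg e h
      rwa [map_mul, map_mul, e.apply_symm_apply, e.apply_symm_apply] at h2
    refine ⟨⟨g.ker, hP⟩, ?_⟩
    exact QuotientGroup.ker_mk' g.ker

end Pool.Agent.Helper691.NS
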