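import Pool.Agent.Helper691.NS.Defs

set_option autoImplicit false
open Filter Topology

namespace Pool.Agent.Helper691.NS

theorem min_disjoint_aux {G : Type} [Group G] {A B : Type} [Group A] [Group B]
    (f : G →* A) (g : G →* B) (hf : Function.Surjective f)
    (hA : ∀ K : Subgroup A, K.Normal → K ≤ commutator A → K = ⊥ ∨ K = commutator A)
    (M : Subgroup G) (hn : M.Normal) (hM : M.map f = commutator A)
    (L : Subgroup M) (hL : L ≠ ⊤) (hi : ∀ x : M, f x = 1 → x ∈ L)
    (hj : ∀ x : M, g x = 1 → x ∈ L) (x : M) (hx : g x = 1) : f x = 1 := by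
  have hnk : (M ⊓ g.ker).Normal := Subgroup.normal_inf_normal M g.ker
  have hP : ((M ⊓ g.ker).map f).Normal := hnk.map f hf
  have hle : (M ⊓ g.ker).map f ≤ commutator A := by
    rw [← hM]
    exact Subgroup.map_mono inf_le_left
  rcases hA _ hP hle with h | h
  · have : f x ∈ (M ⊓ g.ker).map f := Subgroup.mem_map_of_mem f ⟨x.2, hx⟩
    rw [h] at this
    exact (Subgroup.mem_bot).1 this
  · exfalso
    apply hL
    rw [eq_top_iff]
    intro y _
    have hy : f y ∈ (M ⊓ g.ker).map f := by
      rw [h, ← hM]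
      exact Subgroup.mem_map_of_mem f y.2
    obtain ⟨z, hz, hzy⟩ := hy
    obtain ⟨hzM, hzk⟩ := hz
    have h1 : (⟨z, hzM⟩ : M) ∈ L := hj _ hzk
    have h2 : (⟨z, hzM⟩ : M)⁻¹ * y ∈ L := by
      apply hi
      simp [hzy]
    have := L.mul_mem h1 h2
    simpa using this

theorem min_disjoint {G : Type} [Group G] [TopologicalSpace G] [IsTopologicalGroup G] [CompactSpace G]
    [T2Space G] [TotallyDisconnectedSpace G] {I : Type} (T : I → Type) [∀ i, Group (T i)]
    [∀ i, Finite (T i)] (τ : ∀ i, G →* T i) (hτ : ∀ i, Function.Surjective (τ i))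
    (hok : ∀ i, OK (τ i)) (hgood : ∀ i, Good (T i)) (M : Subgroup G) (hM : MinSub T τ M)
    (i j : I) (L : Subgroup M) (hL : L ≠ ⊤) (hi : ∀ x : M, τ i x = 1 → x ∈ L)
    (hj : ∀ x : M, τ j x = 1 → x ∈ L) :
    Nonempty (commutator (T i) ≃* commutator (T j)) := by
  have hnor := hM.nor
  have e1 : ∀ x : M, τ j x = 1 → τ i x = 1 := fun x hx =>
    min_disjoint_aux (τ i) (τ j) (hτ i) (hgood i).2.2 M hM.nor (hM.map i) L hL hi hj x hx
  have e2 : ∀ x : M, τ i x = 1 → τ j x = 1 := fun x hx =>
    min_disjoint_aux (τ j) (τ i) (hτ j) (hgood j).2.2 M hM.nor (hM.map j) L hL hj hi x hx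
  have hmem : ∀ (k : I) (x : M), ((τ k).comp M.subtype) x ∈ commutator (T k) := by
    intro k x
    rw [← hM.map k]
    exact Subgroup.mem_map_of_mem (τ k) x.2
  let t : ∀ k : I, M →* commutator (T k) := fun k =>
    ((τ k).comp M.subtype).codRestrict (commutator (T k)) (hmem k)
  have hs : ∀ k, Function.Surjective (t k) := by
    intro k y
    have hy : (y : T k) ∈ M.map (τ k) := by
      rw [hM.map k]; exact y.2
    obtain ⟨z, hz, hzy⟩ := hy
    refine ⟨⟨z, hz⟩, ?_⟩
    apply Subtype.ext
    exact hzy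
  have hker : (t i).ker = (t j).ker := by
    ext x
    rw [MonoidHom.mem_ker, MonoidHom.mem_ker]
    constructor
    · intro h
      have h1 : τ i x = 1 := congrArg Subtype.val h
      apply Subtype.ext
      exact e2 x h1
    · intro h
      have h1 : τ j x = 1 := congrArg Subtype.val h
      apply Subtype.ext
      exact e1 x h1
  exact ⟨((QuotientGroup.quotientKerEquivOfSurjective (t i) (hs i)).symm.trans
    (QuotientGroup.quotientMulEquivOfEq hker)).trans
    (QuotientGroup.quotientKerEquivOfSurjective (t j) (hs j))⟩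

end Pool.Agent.Helper691.NS
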