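import Pool.Agent.Helper691.NS.Defs
import Pool.Agent.Helper691.NS.Exists_maxNormal
import Pool.Agent.Helper691.NS.Simp_list
import Pool.Agent.Helper691.NS.Small_normal
import Pool.Agent.Helper691.NS.Conj_core

set_option autoImplicit false
open Filter Topology

namespace Pool.Agent.Helper691.NS

theorem min_simple_comap {A B : Type} [Group A] [Group B] (f : A →* B) (hf : Function.Surjective f)
    (L : Subgroup B) (hL : MaxNormal L) : MaxNormal (L.comap f) := by
  obtain ⟨h1, h2, h3⟩ := hL
  refine ⟨h1.comap f, ?_, ?_⟩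
  · intro h
    apply h2
    rw [eq_top_iff]
    intro b _
    obtain ⟨a, rfl⟩ := hf b
    have : a ∈ L.comap f := by rw [h]; trivial
    exact this
  · intro K hK hLK hKt
    have hker : f.ker ≤ K := le_trans (fun x hx => by
      show f x ∈ L
      rw [MonoidHom.mem_ker.1 hx]; exact L.one_mem) hLK
    have hcm : (K.map f).comap f = K := by
      rw [Subgroup.comap_map_eq, sup_eq_left]; exact hker
    have h4 : K.map f = L := by
      apply h3 _ (hK.map f hf)
      · intro b hb
        obtain ⟨a, rfl⟩ := hf b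
        exact ⟨a, hLK hb, rfl⟩
      · intro h
        apply hKt
        rw [← hcm, h, Subgroup.comap_top]
    rw [← hcm, h4]

theorem min_simple {G : Type} [Group G] [TopologicalSpace G] [IsTopologicalGroup G] [CompactSpace G]
    [T2Space G] [TotallyDisconnectedSpace G] {I : Type} (T : I → Type) [∀ i, Group (T i)]
    [∀ i, Finite (T i)] (τ : ∀ i, G →* T i) (hτ : ∀ i, Function.Surjective (τ i))
    (hok : ∀ i, OK (τ i)) (hgood : ∀ i, Good (T i)) (M : Subgroup G) (hM : MinSub T τ M)
    {S : Type} [Group S] [Finite S] (ψ : M →* S) (hψ : Function.Surjective ψ) (oψ : OK ψ)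
    (hS : IsSimpleGroup S) (hna : ∃ a b : S, a * b ≠ b * a) :
    ∃ i, ∀ x : M, τ i x = 1 → ψ x = 1 := by
  haveI := hM.nor
  have hLmax : MaxNormal ψ.ker := by
    have h0 : MaxNormal (⊥ : Subgroup S) := by
      refine ⟨inferInstance, bot_ne_top, ?_⟩
      intro K hK _ hKt
      exact (hK.eq_bot_or_eq_top).resolve_right hKt
    have h1 := min_simple_comap ψ hψ ⊥ h0
    rwa [MonoidHom.comap_bot] at h1
  have hLc : ¬ commutator M ≤ ψ.ker := by
    intro h
    obtain ⟨a, b, hab⟩ := hna
    obtain ⟨x, rfl⟩ := hψ a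
    obtain ⟨y, rfl⟩ := hψ b
    apply hab
    have h1 : x * y * x⁻¹ * y⁻¹ ∈ commutator M := by
      rw [commutator_def]
      exact Subgroup.commutator_mem_commutator (Subgroup.mem_top x) (Subgroup.mem_top y)
    have h2 := MonoidHom.mem_ker.1 (h h1)
    rw [map_mul, map_mul, map_mul, map_inv, map_inv, mul_inv_eq_one, mul_inv_eq_iff_eq_mul] at h2
    exact h2
  obtain ⟨t, hLt, hconj, K, hKn, hKc, hKM, hKM', hKt⟩ :=
    conj_core M hM.nor hM.clo ψ.ker oψ hLmax.1 hLmax.2.1
  obtain ⟨i, hi⟩ := hM.min K hKn hKc hKM hKM'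
  refine ⟨i, ?_⟩
  let f : M →* T i := (τ i).comp M.subtype
  have hfx : ∀ x : M, x ∈ f.ker ↔ τ i x = 1 := fun x => MonoidHom.mem_ker
  have hKit : f.ker ≠ ⊤ := by
    intro h
    apply (hgood i).2.1
    rw [← hM.map i, eq_bot_iff]
    rintro y ⟨x, hx, rfl⟩
    have : (⟨x, hx⟩ : M) ∈ f.ker := by rw [h]; trivial
    exact (hfx _).1 this
  haveI : Finite (M ⧸ f.ker) :=
    Finite.of_equiv f.range (QuotientGroup.quotientKerEquivRange f).toEquiv.symm
  obtain ⟨L₀, hL₀, -⟩ := exists_maxNormal (⊥ : Subgroup (M ⧸ f.ker)) inferInstance (by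
    intro h
    apply hKit
    rw [eq_top_iff]
    intro x _
    have h1 : (QuotientGroup.mk' f.ker x) ∈ (⊥ : Subgroup (M ⧸ f.ker)) := by rw [h]; trivial
    exact (QuotientGroup.eq_one_iff x).1 (Subgroup.mem_bot.1 h1))
  let Z : Subgroup M := L₀.comap (QuotientGroup.mk' f.ker)
  have hZ : MaxNormal Z := min_simple_comap _ (QuotientGroup.mk'_surjective _) L₀ hL₀
  have hfZ : f.ker ≤ Z := by
    intro x hx
    show QuotientGroup.mk' f.ker x ∈ L₀
    have : QuotientGroup.mk' f.ker x = 1 := (QuotientGroup.eq_one_iff x).2 hx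
    rw [this]; exact L₀.one_mem
  have ht : ∀ L' ∈ t, MaxNormal L' ∧ ¬ commutator M ≤ L' := by
    intro L' hL'
    obtain ⟨g, hg⟩ := hconj L' hL'
    let c : M →* M := (MulAut.conjNormal (H := M) g⁻¹ : MulAut M).toMonoidHom
    have hcs : Function.Surjective c := (MulAut.conjNormal (H := M) g⁻¹ : MulAut M).surjective
    have hcx : ∀ x : M, ((c x : M) : G) = g⁻¹ * x * g := by
      intro x
      show (((MulAut.conjNormal g⁻¹ : MulAut M) x : M) : G) = _
      rw [MulAut.conjNormal_apply, inv_inv]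
    have hL'c : L' = ψ.ker.comap c := by
      ext x
      rw [hg, Subgroup.mem_comap]
      constructor
      · rintro ⟨y, hy, hxy⟩
        have : c x = y := by
          apply Subtype.ext
          rw [hcx, hxy]; group
        rw [this]; exact hy
      · intro h
        refine ⟨c x, h, ?_⟩
        rw [hcx]; group
    refine ⟨?_, ?_⟩
    · rw [hL'c]; exact min_simple_comap c hcs _ hLmax
    · intro h
      apply hLc
      rw [hL'c, ← Subgroup.map_le_iff_le_comap] at h
      refine le_trans (le_of_eq ?_) h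
      rw [commutator_def, Subgroup.map_commutator, Subgroup.map_top_of_surjective c hcs]
  have hinf : t.inf id ≤ Z := by
    intro x hx
    apply hfZ
    rw [hfx]
    have h1 : (x : G) ∈ K := by
      rw [hKt]
      intro L' hL'
      exact (Finset.inf_le (f := id) hL') hx
    exact MonoidHom.mem_ker.1 (hi h1)
  have hZt := simp_list t ht Z hZ hinf
  obtain ⟨g, hg⟩ := hconj Z hZt
  intro x hx
  have h1 : g * (x : G) * g⁻¹ ∈ M := hM.nor.conj_mem _ x.2 g
  have h2 : (⟨g * (x : G) * g⁻¹, h1⟩ : M) ∈ Z := by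
    apply hfZ
    rw [hfx]
    show τ i (g * (x : G) * g⁻¹) = 1
    rw [map_mul, map_mul, hx, mul_one, ← map_mul, mul_inv_cancel, map_one]
  obtain ⟨y, hy, hxy⟩ := (hg _).1 h2
  have h3 : x = y := by
    apply Subtype.ext
    have h4 : g * (x : G) * g⁻¹ = g * y * g⁻¹ := hxy
    exact mul_left_cancel (mul_right_cancel h4)
  rw [h3]
  exact MonoidHom.mem_ker.1 hy

end Pool.Agent.Helper691.NS
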