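import Pool.Agent.Helper691.NS.Defs
import Pool.Agent.Helper691.NS.Coord_ker

set_option autoImplicit false
open Filter Topology

namespace Pool.Agent.Helper691.NS

theorem pow_iso (S S' : Type) [Group S] [Group S'] [Finite S] [Finite S']
    (hS : IsSimpleGroup S) (hS' : IsSimpleGroup S') (hna : ∃ a b : S, a * b ≠ b * a)
    (hna' : ∃ a b : S', a * b ≠ b * a) (k k' : ℕ) (hk : 0 < k)
    (h : Nonempty ((Fin k → S) ≃* (Fin k' → S'))) : Nonempty (S ≃* S') ∧ k = k' := by
  classical
  obtain ⟨Θ⟩ := h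
  have hSn : Nontrivial S := hS.toNontrivial
  have hSn' : Nontrivial S' := hS'.toNontrivial
  have hk' : 0 < k' := by
    rcases Nat.eq_zero_or_pos k' with h0 | h0
    · exfalso
      subst h0
      obtain ⟨a, b, hab⟩ := exists_pair_ne S
      have h1 : Θ (fun _ => a) = Θ (fun _ => b) := Subsingleton.elim _ _
      have h2 := Θ.injective h1
      exact hab (congrFun h2 ⟨0, hk⟩)
    · exact h0
  have hg : Function.Surjective
      ((Pi.evalMonoidHom (fun _ : Fin k' => S') ⟨0, hk'⟩).comp Θ.toMonoidHom) := by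
    intro y
    refine ⟨Θ.symm (fun _ => y), ?_⟩
    simp
  obtain ⟨c, hc⟩ := coord_ker S hS hna k S' hS'
    ((Pi.evalMonoidHom (fun _ : Fin k' => S') ⟨0, hk'⟩).comp Θ.toMonoidHom) hg
  have hev : Function.Surjective (Pi.evalMonoidHom (fun _ : Fin k => S) c) := by
    intro y
    exact ⟨fun _ => y, rfl⟩
  have hker : (Pi.evalMonoidHom (fun _ : Fin k => S) c).ker =
      ((Pi.evalMonoidHom (fun _ : Fin k' => S') ⟨0, hk'⟩).comp Θ.toMonoidHom).ker := by
    ext x
    rw [MonoidHom.mem_ker, MonoidHom.mem_ker, hc]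
    rfl
  have e : S ≃* S' := ((QuotientGroup.quotientKerEquivOfSurjective _ hev).symm.trans
    (QuotientGroup.quotientMulEquivOfEq hker)).trans
      (QuotientGroup.quotientKerEquivOfSurjective _ hg)
  refine ⟨⟨e⟩, ?_⟩
  have h1 : Nat.card (Fin k → S) = Nat.card (Fin k' → S') := Nat.card_congr Θ.toEquiv
  rw [Nat.card_fun, Nat.card_fun, Nat.card_fin, Nat.card_fin, ← Nat.card_congr e.toEquiv] at h1
  exact Nat.pow_right_injective Finite.one_lt_card h1

end Pool.Agent.Helper691.NS
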