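import Pool.Agent.Helper691.NS.Defs
import Pool.Agent.Helper691.NS.Exists_maxNormal
import Pool.Agent.Helper691.NS.Simp_list
import Pool.Agent.Helper691.NS.Small_normal
import Pool.Agent.Helper691.NS.Conj_core
import Pool.Agent.Helper691.NS.Min_simple
import Pool.Agent.Helper691.NS.Min_disjoint
import Pool.Agent.Helper691.NS.Coord_ker
import Pool.Agent.Helper691.NS.Pow_iso

set_option autoImplicit false
open Filter Topology

namespace Pool.Agent.Helper691.NS

theorem spec_min_ti {G : Type} [Group G] {A : Type} [Group A] (τ : G →* A) (M : Subgroup G)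
    (h : M.map τ = commutator A) :
    ∃ t : M →* commutator A, (∀ x : M, (t x : A) = τ x) ∧ Function.Surjective t := by
  have hm : ∀ x : M, (τ.comp M.subtype) x ∈ commutator A := by
    intro x
    rw [← h]
    exact ⟨x.1, x.2, rfl⟩
  refine ⟨(τ.comp M.subtype).codRestrict (commutator A) hm, fun x => rfl, ?_⟩
  rintro ⟨a, ha⟩
  rw [← h] at ha
  obtain ⟨x, hx, hxa⟩ := ha
  exact ⟨⟨x, hx⟩, Subtype.ext hxa⟩

theorem spec_min_ok {G : Type} [Group G] [TopologicalSpace G] [IsTopologicalGroup G]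
    {A B : Type} [Group A] [Group B] (τ : G →* A) (hok : OK τ) (M : Subgroup G) (g : M →* B)
    (h : ∀ x : M, τ x = 1 → g x = 1) : OK g := by
  have h1 : IsOpen ((τ.comp M.subtype).ker : Set M) := by
    have h2 : ((τ.comp M.subtype).ker : Set M) = Subtype.val ⁻¹' (τ.ker : Set G) := by
      ext x
      rfl
    rw [h2]
    exact IsOpen.preimage continuous_subtype_val hok
  have h3 : (τ.comp M.subtype).ker ≤ g.ker := fun x hx => h x hx
  exact Subgroup.isOpen_mono h3 h1

theorem spec_min {G : Type} [Group G] [TopologicalSpace G] [IsTopologicalGroup G] [CompactSpace G]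
    [T2Space G] [TotallyDisconnectedSpace G] {I₁ I₂ : Type} (T : I₁ ⊕ I₂ → Type) [∀ i, Group (T i)]
    [∀ i, Finite (T i)] (τ : ∀ i, G →* T i) (hτ : ∀ i, Function.Surjective (τ i))
    (hok : ∀ i, OK (τ i)) (hgood : ∀ i, Good (T i)) (M : Subgroup G) (hM : MinSub T τ M)
    (J : Type) (S : J → Type) [∀ j, Group (S j)] [∀ j, Finite (S j)]
    (hS : ∀ j, IsSimpleGroup (S j)) (hna : ∀ j, ∃ a b : S j, a * b ≠ b * a)
    (rep : I₁ → J) (k : I₁ → ℕ) (e : (Σ i, Fin (k i)) ≃ J) (hk : ∀ i, 0 < k i)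
    (he : ∀ i c, Nonempty (S (rep i) ≃* S (e ⟨i, c⟩)))
    (hdis : ∀ i j, i ≠ j → Nonempty (S (rep i) ≃* S (rep j)) → k i ≠ k j)
    (h1 : ∀ i : I₁, Nonempty (commutator (T (Sum.inl i)) ≃* (Fin (k i) → S (rep i))))
    (h2 : ∀ i : I₂, ∀ a ∈ commutator (T (Sum.inr i)), ∀ b ∈ commutator (T (Sum.inr i)),
      a * b = b * a) :
    Spec M J S := by
  have hti : ∀ i, ∃ t : M →* commutator (T i), (∀ x : M, (t x : T i) = τ i x) ∧
      Function.Surjective t := fun i => spec_min_ti (τ i) M (hM.map i)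
  choose t ht hts using hti
  have hΘ : ∀ i : I₁, ∃ Θ : commutator (T (Sum.inl i)) ≃* (Fin (k i) → S (rep i)), True :=
    fun i => ⟨(h1 i).some, trivial⟩
  choose Θ _ using hΘ
  -- the product maps
  obtain ⟨Fm, hFm⟩ : ∃ Fm : ∀ i : I₁, M →* (Fin (k i) → S (rep i)),
      ∀ i x, Fm i x = Θ i (t (Sum.inl i) x) :=
    ⟨fun i => (Θ i).toMonoidHom.comp (t (Sum.inl i)), fun i x => rfl⟩
  have hFs : ∀ i, Function.Surjective (Fm i) := by
    intro i y
    obtain ⟨a, ha⟩ := (Θ i).surjective y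
    obtain ⟨x, hx⟩ := hts (Sum.inl i) a
    exact ⟨x, by rw [hFm, hx, ha]⟩
  have hF1 : ∀ i x, τ (Sum.inl i) (x : M) = 1 → Fm i x = 1 := by
    intro i x hx
    have h3 : t (Sum.inl i) x = 1 := Subtype.ext (by rw [ht, hx]; rfl)
    rw [hFm, h3, map_one]
  have hF2 : ∀ i x, Fm i x = 1 → τ (Sum.inl i) (x : M) = 1 := by
    intro i x hx
    rw [hFm] at hx
    have h3 : t (Sum.inl i) x = 1 := (Θ i).injective (by rw [hx, map_one])
    rw [← ht, h3]
    rfl
  have hfam : ∀ j, ∃ f : M →* S j, Function.Surjective f ∧ ∃ p : (Σ i, Fin (k i)), e p = j ∧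
      ∀ x, f x = 1 ↔ Fm p.1 x p.2 = 1 := by
    intro j
    obtain ⟨⟨i, c⟩, rfl⟩ := e.surjective j
    obtain ⟨ι⟩ := he i c
    refine ⟨ι.toMonoidHom.comp ((Pi.evalMonoidHom (fun _ : Fin (k i) => S (rep i)) c).comp (Fm i)),
      ?_, ⟨i, c⟩, rfl, ?_⟩
    · intro y
      obtain ⟨z, hz⟩ := ι.surjective y
      obtain ⟨x, hx⟩ := hFs i (fun _ => z)
      refine ⟨x, ?_⟩
      show ι (Fm i x c) = y
      rw [hx, hz]
    · intro x
      show ι (Fm i x c) = 1 ↔ Fm i x c = 1
      constructor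
      · intro h
        exact ι.injective (by rw [h, map_one])
      · intro h
        rw [h, map_one]
  choose f hfs p hp hf using hfam
  have hok' : ∀ j, ∀ x : M, τ (Sum.inl (p j).1) x = 1 → f j x = 1 := by
    intro j x hx
    rw [hf, hF1 _ _ hx]
    rfl
  have hne : ∀ j, (f j).ker ≠ ⊤ := by
    intro j h
    have := hS j
    obtain ⟨s, hs⟩ := exists_ne (1 : S j)
    obtain ⟨x, hx⟩ := hfs j s
    apply hs
    rw [← hx]
    have h3 : x ∈ (f j).ker := by rw [h]; exact Subgroup.mem_top x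
    exact h3
  have key : ∀ (i : I₁) (c : Fin (k i)) (i' : I₁) (c' : Fin (k i')), i = i' →
      (∀ x, Fm i x c = 1 ↔ Fm i' x c' = 1) → (⟨i, c⟩ : Σ i, Fin (k i)) = ⟨i', c'⟩ := by
    intro i c i' c' hii
    subst hii
    intro h
    by_contra hcc
    have hcc' : c ≠ c' := fun h4 => hcc (by rw [h4])
    have := hS (rep i)
    obtain ⟨s, hs⟩ := exists_ne (1 : S (rep i))
    obtain ⟨x, hx⟩ := hFs i (fun d => if d = c then s else 1)
    apply hs
    have h4 := (h x).2 (by rw [hx]; exact if_neg (Ne.symm hcc'))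
    rw [hx] at h4
    have h5 : (if c = c then s else 1) = 1 := h4
    rw [if_pos rfl] at h5
    exact h5
  refine ⟨f, hfs, ?_, ?_, ?_⟩
  · intro j
    exact spec_min_ok (τ _) (hok _) M (f j) (hok' j)
  · intro a b hab
    have h3 := min_disjoint T τ hτ hok hgood M hM (Sum.inl (p a).1) (Sum.inl (p b).1) (f a).ker
      (hne a) (fun x hx => hok' a x hx) (fun x hx => by rw [hab]; exact hok' b x hx)
    obtain ⟨θ⟩ := h3
    have h4 := pow_iso (S (rep (p a).1)) (S (rep (p b).1)) (hS _) (hS _) (hna _) (hna _)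
      (k (p a).1) (k (p b).1) (hk _) ⟨((Θ _).symm.trans θ).trans (Θ _)⟩
    have h5 : (p a).1 = (p b).1 := by
      by_contra h6
      exact hdis _ _ h6 h4.1 h4.2
    have h7 := key (p a).1 (p a).2 (p b).1 (p b).2 h5 (fun x => by
      rw [← hf, ← hf]
      constructor
      · intro h8
        have h9 : x ∈ (f b).ker := by rw [← hab]; exact h8
        exact h9
      · intro h8
        have h9 : x ∈ (f a).ker := by rw [hab]; exact h8
        exact h9)
    rw [← hp a, ← hp b]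
    exact congrArg e h7
  · intro T' _ _ g hT' hnaT hg og
    obtain ⟨i, hi⟩ := min_simple T τ hτ hok hgood M hM g hg og hT' hnaT
    rcases i with i | i
    · obtain ⟨gb, hgb⟩ : ∃ gb : (Fin (k i) → S (rep i)) →* T', ∀ x, gb (Fm i x) = g x := by
        refine ⟨(Fm i).liftOfRightInverse _ (Function.rightInverse_surjInv (hFs i))
          ⟨g, fun x hx => hi x (hF2 i x hx)⟩, fun x => ?_⟩
        exact MonoidHom.liftOfRightInverse_comp_apply _ _ _ _ _
      have hgbs : Function.Surjective gb := by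
        intro y
        obtain ⟨x, hx⟩ := hg y
        exact ⟨Fm i x, by rw [hgb, hx]⟩
      obtain ⟨c, hc⟩ := coord_ker (S (rep i)) (hS _) (hna _) (k i) T' hT' gb hgbs
      refine ⟨e ⟨i, c⟩, ?_⟩
      have h3 : p (e ⟨i, c⟩) = ⟨i, c⟩ := e.injective (hp _)
      ext x
      rw [MonoidHom.mem_ker, MonoidHom.mem_ker, hf, h3, ← hgb, hc]
    · exfalso
      obtain ⟨a, b, hab⟩ := hnaT
      apply hab
      obtain ⟨x, rfl⟩ := hg a
      obtain ⟨y, rfl⟩ := hg b
      have h3 := h2 i (τ (Sum.inr i) x) (by rw [← ht]; exact (t _ x).2)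
        (τ (Sum.inr i) y) (by rw [← ht]; exact (t _ y).2)
      have h4 : g (x * y * (y * x)⁻¹) = 1 := by
        apply hi
        have e1 : ((x * y * (y * x)⁻¹ : M) : G) = (x : G) * (y : G) * ((y : G) * (x : G))⁻¹ := rfl
        rw [e1, map_mul, map_mul, map_inv, map_mul, h3, mul_inv_cancel]
      rw [map_mul, map_inv, mul_inv_eq_one, map_mul, map_mul] at h4
      exact h4

end Pool.Agent.Helper691.NS
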