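import Pool.Agent.Helper691.NS.Defs

set_option autoImplicit false
open Filter Topology

namespace Pool.Agent.Helper691.NS

theorem zorn_min {G : Type} [Group G] [TopologicalSpace G] [IsTopologicalGroup G] [CompactSpace G]
    [T2Space G] [TotallyDisconnectedSpace G] {I : Type} (T : I → Type) [∀ i, Group (T i)]
    [∀ i, Finite (T i)] (τ : ∀ i, G →* T i) (hτ : ∀ i, Function.Surjective (τ i))
    (hok : ∀ i, OK (τ i)) (hgood : ∀ i, Good (T i)) :
    ∃ M : Subgroup G, MinSub T τ M := by
  let S : Set (Subgroup G)ᵒᵈ := {M | (OrderDual.ofDual M).Normal ∧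
    IsClosed ((OrderDual.ofDual M : Subgroup G) : Set G) ∧
    (OrderDual.ofDual M) ≤ (commutator G).topologicalClosure ∧
    ∀ i, (OrderDual.ofDual M).map (τ i) = commutator (T i)}
  have hcm : ∀ i, (commutator G).map (τ i) = commutator (T i) := by
    intro i
    rw [commutator_def, commutator_def, Subgroup.map_commutator,
      Subgroup.map_top_of_surjective _ (hτ i)]
  have hD : (OrderDual.toDual (commutator G).topologicalClosure) ∈ S := by
    refine ⟨Subgroup.is_normal_topologicalClosure _, Subgroup.isClosed_topologicalClosure _,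
      le_refl _, ?_⟩
    intro i
    apply le_antisymm
    · have h1 : IsOpen (((commutator (T i)).comap (τ i) : Subgroup G) : Set G) := by
        refine Subgroup.isOpen_mono ?_ (hok i)
        intro x hx
        rw [Subgroup.mem_comap, (MonoidHom.mem_ker).mp hx]
        exact one_mem _
      have h2 : (commutator G).topologicalClosure ≤ (commutator (T i)).comap (τ i) := by
        apply Subgroup.topologicalClosure_minimal
        · rw [← hcm i]; exact Subgroup.le_comap_map _ _
        · exact Subgroup.isClosed_of_isOpen _ h1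
      exact Subgroup.map_le_iff_le_comap.mpr h2
    · rw [← hcm i]
      exact Subgroup.map_mono (Subgroup.le_topologicalClosure _)
  obtain ⟨M, hM⟩ := zorn_le₀ S (by
    intro c hcS hch
    by_cases hcne : c = ∅
    · exact ⟨_, hD, by simp [hcne]⟩
    obtain ⟨M0, hM0⟩ := Set.nonempty_iff_ne_empty.mpr hcne
    let L : Subgroup G := sInf (OrderDual.ofDual '' c)
    have hmemL : ∀ x, x ∈ L ↔ ∀ M ∈ c, x ∈ OrderDual.ofDual M := by
      intro x
      show x ∈ sInf _ ↔ _
      rw [Subgroup.mem_sInf]
      constructor
      · intro h M hM; exact h _ ⟨M, hM, rfl⟩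
      · rintro h _ ⟨M, hM, rfl⟩; exact h M hM
    have hLle : ∀ M ∈ c, L ≤ OrderDual.ofDual M := fun M hM x hx => (hmemL x).mp hx M hM
    refine ⟨OrderDual.toDual L, ⟨?_, ?_, ?_, ?_⟩, ?_⟩
    · constructor
      intro n hn g
      have hn' : n ∈ L := hn
      show g * n * g⁻¹ ∈ L
      rw [hmemL] at hn' ⊢
      intro M hM
      exact (hcS hM).1.conj_mem n (hn' M hM) g
    · show IsClosed (L : Set G)
      have : (L : Set G) = ⋂ M ∈ c, ((OrderDual.ofDual M : Subgroup G) : Set G) := by
        ext x
        simp only [SetLike.mem_coe, Set.mem_iInter]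
        exact hmemL x
      rw [this]
      exact isClosed_biInter (fun M hM => (hcS hM).2.1)
    · exact (hLle M0 hM0).trans (hcS hM0).2.2.1
    · intro i
      show L.map (τ i) = commutator (T i)
      apply le_antisymm
      · rw [← (hcS hM0).2.2.2 i]
        exact Subgroup.map_mono (hLle M0 hM0)
      · intro t ht
        have hclt : IsClosed (τ i ⁻¹' {t}) := by
          obtain ⟨y0, hy0⟩ := hτ i t
          have h1 : IsClosed ((τ i).ker : Set G) := Subgroup.isClosed_of_isOpen _ (hok i)
          have h2 : τ i ⁻¹' {t} = (fun y => y0⁻¹ * y) ⁻¹' ((τ i).ker : Set G) := by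
            ext y
            simp only [Set.mem_singleton_iff, Set.mem_preimage, SetLike.mem_coe,
              MonoidHom.mem_ker, map_mul, map_inv, hy0]
            constructor
            · intro h; rw [h, inv_mul_cancel]
            · intro h; exact (inv_mul_eq_one.mp h).symm
          rw [h2]
          exact h1.preimage (by fun_prop)
        haveI : Nonempty c := ⟨⟨M0, hM0⟩⟩
        have hne := IsCompact.nonempty_iInter_of_directed_nonempty_isCompact_isClosed
          (fun M : c => ((OrderDual.ofDual M.1 : Subgroup G) : Set G) ∩ τ i ⁻¹' {t}) (by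
            intro M M'
            rcases hch.total M.2 M'.2 with h | h
            · refine ⟨M', ?_, subset_rfl⟩
              exact Set.inter_subset_inter_left _ (show OrderDual.ofDual M'.1 ≤ OrderDual.ofDual M.1 from h)
            · refine ⟨M, subset_rfl, ?_⟩
              exact Set.inter_subset_inter_left _ (show OrderDual.ofDual M.1 ≤ OrderDual.ofDual M'.1 from h))
          (by
            intro M
            have h1 := (hcS M.2).2.2.2 i
            rw [← h1] at ht
            obtain ⟨x, hx, hxt⟩ := ht
            exact ⟨x, hx, hxt⟩)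
          (fun M => ((hcS M.2).2.1.inter hclt).isCompact)
          (fun M => (hcS M.2).2.1.inter hclt)
        obtain ⟨x, hx⟩ := hne
        rw [Set.mem_iInter] at hx
        refine ⟨x, ?_, (hx ⟨M0, hM0⟩).2⟩
        show x ∈ L
        rw [hmemL]
        intro M hM
        exact (hx ⟨M, hM⟩).1
    · intro M hM
      exact hLle M hM)
  obtain ⟨⟨hMn, hMc, hMD, hMm⟩, hmax⟩ := hM
  refine ⟨OrderDual.ofDual M, ⟨hMn, hMc, hMD, hMm, ?_⟩⟩
  intro K hK hKc hKM hne
  by_contra hcon
  push Not at hcon
  have hKS : OrderDual.toDual K ∈ S := by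
    refine ⟨hK, hKc, hKM.trans hMD, ?_⟩
    intro i
    show K.map (τ i) = commutator (T i)
    have h1 : K.map (τ i) ≤ commutator (T i) := by
      rw [← hMm i]; exact Subgroup.map_mono hKM
    rcases (hgood i).2.2 (K.map (τ i)) (Subgroup.Normal.map hK (τ i) (hτ i)) h1 with h | h
    · exfalso
      apply hcon i
      exact (Subgroup.map_eq_bot_iff K).mp h
    · exact h
  have h2 := hmax hKS (show M ≤ OrderDual.toDual K from hKM)
  exact hne (le_antisymm hKM h2)

end Pool.Agent.Helper691.NS
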