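import Pool.Agent.Helper691.NS.Defs
import Pool.Agent.Helper691.NS.IsoData
import Pool.Agent.Helper691.NS.GoodGen
import Pool.Agent.Helper691.NS.Good_prime
import Pool.Agent.Helper691.NS.Min_prime
import Pool.Agent.Helper691.NS.Blocks2
import Pool.Agent.Helper691.NS.Spec_exists
import Pool.Agent.Helper691.NS.Cb_sub
import Pool.Agent.Helper691.NS.Cb_omega
import Pool.Agent.Helper691.NS.Cb_fin
import Pool.Agent.Helper691.NS.Nlift_omega
import Pool.Agent.Helper691.NS.Nlift_fin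
import Pool.Agent.Helper691.NS.Ep_of_nlift
import Pool.Agent.Helper691.NS.Big_of_has
import Pool.Agent.Helper691.NS.Zorn_min
import Pool.Agent.Helper691.NS.Index_unbdd
import Pool.Agent.Helper691.NS.Spec_min
import Pool.Agent.Helper691.NS.Has_min

set_option autoImplicit false
open Filter Topology

namespace Pool.Agent.Helper691.NS

theorem ok_of_cont {X : Type} [Group X] [TopologicalSpace X] {H : Type} [Group H]
    [TopologicalSpace H] [DiscreteTopology H] (f : X →* H) (hf : Continuous f) : OK f := by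
  unfold OK
  have : (f.ker : Set X) = f ⁻¹' {1} := by
    ext x; simp [MonoidHom.mem_ker]
  rw [this]
  exact (isOpen_discrete _).preimage hf

theorem cont_of_ok {X : Type} [Group X] [TopologicalSpace X] [IsTopologicalGroup X] {H : Type}
    [Group H] [TopologicalSpace H] [DiscreteTopology H] (f : X →* H) (hf : OK f) :
    Continuous f := by
  haveI : IsTopologicalGroup H := by infer_instance
  refine continuous_of_continuousAt_one f ?_
  unfold ContinuousAt
  rw [map_one, show 𝓝 (1 : H) = pure 1 from by rw [nhds_discrete H], tendsto_pure]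
  exact Filter.mem_of_superset (hf.mem_nhds (Subgroup.one_mem _)) (fun x hx => hx)

theorem freeFin_of {n : ℕ} {G : Type} [Group G] [TopologicalSpace G] [IsTopologicalGroup G]
    (ι : Fin n → G)
    (h : ∀ (H : Type) [Group H] [Finite H] [TopologicalSpace H] [DiscreteTopology H]
          (f : Fin n → H), ∃! φ : G →* H, Continuous ⇑φ ∧ ⇑φ ∘ ι = f) : FreeFin n G ι := by
  refine ⟨fun H _ _ f => ?_, fun H _ _ φ ψ hφ hψ hh => ?_⟩
  · letI : TopologicalSpace H := ⊥
    haveI : DiscreteTopology H := ⟨rfl⟩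
    obtain ⟨φ, ⟨h1, h2⟩, -⟩ := h H f
    exact ⟨φ, ok_of_cont φ h1, fun i => congrFun h2 i⟩
  · letI : TopologicalSpace H := ⊥
    haveI : DiscreteTopology H := ⟨rfl⟩
    obtain ⟨θ, -, h3⟩ := h H (fun i => ψ (ι i))
    rw [h3 φ ⟨cont_of_ok φ hφ, funext hh⟩, h3 ψ ⟨cont_of_ok ψ hψ, rfl⟩]

theorem freeOmega_of {F : Type} [Group F] [TopologicalSpace F] [IsTopologicalGroup F]
    (κ : ℕ → F) (hκ : Tendsto κ atTop (𝓝 1))
    (h : ∀ (H : Type) [Group H] [Finite H] [TopologicalSpace H] [DiscreteTopology H]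
          (f : ℕ → H), (∀ᶠ k in atTop, f k = 1) →
          ∃! φ : F →* H, Continuous ⇑φ ∧ ⇑φ ∘ κ = f) : FreeOmega F κ := by
  refine ⟨hκ, fun H _ _ f hf => ?_, fun H _ _ φ ψ hφ hψ hh => ?_⟩
  · letI : TopologicalSpace H := ⊥
    haveI : DiscreteTopology H := ⟨rfl⟩
    obtain ⟨φ, ⟨h1, h2⟩, -⟩ := h H f hf
    exact ⟨φ, ok_of_cont φ h1, fun i => congrFun h2 i⟩
  · letI : TopologicalSpace H := ⊥
    haveI : DiscreteTopology H := ⟨rfl⟩
    have hev : ∀ᶠ k in atTop, ψ (κ k) = 1 :=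
      hκ.eventually (hψ.mem_nhds (Subgroup.one_mem _))
    obtain ⟨θ, -, h3⟩ := h H (fun i => ψ (κ i)) hev
    rw [h3 φ ⟨cont_of_ok φ hφ, funext hh⟩, h3 ψ ⟨cont_of_ok ψ hψ, rfl⟩]

/-- the constructed subgroup has exactly the prescribed prime quotients -/
theorem prime_side {G : Type} [Group G] [TopologicalSpace G] [IsTopologicalGroup G]
    [CompactSpace G] [T2Space G] [TotallyDisconnectedSpace G] {I₁ : Type} {R : Set ℕ}
    (hR : ∀ p ∈ R, p.Prime)
    (T : I₁ ⊕ R → Type) [∀ i, Group (T i)] [∀ i, Finite (T i)] (τ : ∀ i, G →* T i)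
    (hτ : ∀ i, Function.Surjective (τ i)) (hok : ∀ i, OK (τ i)) (hgood : ∀ i, Good (T i))
    (M : Subgroup G) (hM : MinSub T τ M)
    (h1 : ∀ i : I₁, ¬ ∀ a ∈ commutator (T (Sum.inl i)), ∀ b ∈ commutator (T (Sum.inl i)),
      a * b = b * a)
    (h2 : ∀ q : R, ∀ a ∈ commutator (T (Sum.inr q)), a ^ (q : ℕ) = 1)
    (p : ℕ) (hp : p.Prime) (hpR : p ∉ R) : ¬ Has p M := by
  intro hH
  obtain ⟨i, hi⟩ := min_prime T τ hτ hok hgood M hM p hp hH
  rcases i with i | q
  · exact h1 i fun a ha b hb => (hi a ha).2 b hb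
  · have hq := hR q q.2
    apply (hgood (Sum.inr q)).2.1
    rw [eq_bot_iff]
    intro a ha
    have e1 := (hi a ha).1
    have e2 := h2 q a ha
    have hne : p ≠ (q : ℕ) := fun h => hpR (h ▸ q.2)
    have hc : Nat.Coprime p q := (Nat.coprime_primes hp hq).mpr hne
    have : orderOf a ∣ 1 := by
      have h3 := orderOf_dvd_of_pow_eq_one e1
      have h4 := orderOf_dvd_of_pow_eq_one e2
      have := Nat.dvd_gcd h3 h4
      rwa [hc.gcd_eq_one] at this
    have h5 : orderOf a = 1 := Nat.dvd_one.mp this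
    rw [Subgroup.mem_bot]
    exact orderOf_eq_one_iff.mp h5

/-- multiplicity bookkeeping -/
theorem mult_side {X : Type} [Group X] [TopologicalSpace X] [IsTopologicalGroup X]
    (J : Type) (S : J → Type)
    [∀ j, Group (S j)] [∀ j, Finite (S j)] (hS : ∀ j, IsSimpleGroup (S j))
    (hna : ∀ j, ∃ a b : S j, a * b ≠ b * a) (sX : Spec X J S) (j₀ : J) (m : ℕ)
    (hfin : {j | Nonempty (S j₀ ≃* S j)}.Finite)
    (hcard : {j | Nonempty (S j₀ ≃* S j)}.ncard = m) [TopologicalSpace (S j₀)]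
    [DiscreteTopology (S j₀)] :
    {L : Subgroup X | ∃ f : X →* S j₀, Continuous f ∧ Function.Surjective f ∧
      f.ker = L}.encard = m := by
  obtain ⟨f, hf1, hf2, hf3, hf4⟩ := sX
  have hset : {L : Subgroup X | ∃ f : X →* S j₀, Continuous f ∧ Function.Surjective f ∧
      f.ker = L} = (fun j => (f j).ker) '' {j | Nonempty (S j₀ ≃* S j)} := by
    ext L
    constructor
    · rintro ⟨g, hg1, hg2, rfl⟩
      obtain ⟨j, hj⟩ := hf4 (S j₀) g (hS j₀) (hna j₀) hg2 (ok_of_cont g hg1)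
      refine ⟨j, ⟨?_⟩, hj⟩
      exact (QuotientGroup.quotientKerEquivOfSurjective g hg2).symm.trans
        ((QuotientGroup.quotientMulEquivOfEq hj.symm).trans
          (QuotientGroup.quotientKerEquivOfSurjective (f j) (hf1 j)))
    · rintro ⟨j, ⟨e⟩, rfl⟩
      refine ⟨e.symm.toMonoidHom.comp (f j), ?_, ?_, ?_⟩
      · refine cont_of_ok _ ?_
        have hk : (e.symm.toMonoidHom.comp (f j)).ker = (f j).ker := by
          ext x; simp [MonoidHom.mem_ker]
        unfold OK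
        rw [hk]
        exact hf2 j
      · exact e.symm.surjective.comp (hf1 j)
      · ext x; simp [MonoidHom.mem_ker]
  rw [hset, Set.InjOn.encard_image (fun i _ j _ h => hf3 i j h), ← hcard]
  exact hfin.cast_ncard_eq.symm

theorem main {n : ℕ} (hn : 1 < n) {G : Type} [Group G] [TopologicalSpace G]
    [IsTopologicalGroup G] [CompactSpace G] [T2Space G] [TotallyDisconnectedSpace G]
    (ι : Fin n → G) (hG : FreeFin n G ι)
    {F : Type} [Group F] [TopologicalSpace F] [IsTopologicalGroup F] [CompactSpace F]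
    [T2Space F] [TotallyDisconnectedSpace F] (κ : ℕ → F) (hF : FreeOmega F κ)
    (N : Subgroup F) (hNc : IsClosed (N : Set F)) (hN : N.Normal)
    (h : ∀ (S : Type) [Group S] [Finite S] [TopologicalSpace S] [DiscreteTopology S]
      [IsSimpleGroup S], (∃ a b : S, a * b ≠ b * a) →
      (∃ f : N →* S, Continuous f ∧ Function.Surjective f) →
      ∃ (d : ℕ) (s : Fin d → S), Subgroup.closure (Set.range s) = ⊤ ∧
        (d ≤ n ∨ (d : ℕ∞) ≤ ((n - 1 : ℕ) : ℕ∞) * {L : Subgroup N | ∃ f : N →* S,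
          Continuous f ∧ Function.Surjective f ∧ f.ker = L}.encard)) :
    ∃ M : Subgroup G, IsClosed (M : Set G) ∧ M.Normal ∧ Nonempty (N ≃ₜ* M) := by
  classical
  haveI : CompactSpace N := isCompact_iff_compactSpace.mp hNc.isCompact
  have cN : CB N := cb_sub (cb_omega κ hF) N
  have lN : NLift N := nlift_omega κ hF N hN
  have eN : EP N := ep_of_nlift N hN lN
  obtain ⟨J, hJ, S, gS, fS, hS, hna, sN⟩ := spec_exists cN
  let R : Set ℕ := {p | p.Prime ∧ Has p N}
  have hR : ∀ p ∈ R, p.Prime := fun p hp => hp.1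
  have bN : ∀ p ∈ R, Big p N := fun p hp => big_of_has N hN lN p hp.1 hp.2
  have nN : ∀ p, p.Prime → p ∉ R → ¬ Has p N := fun p hp hpR hH => hpR ⟨hp, hH⟩
  let r : Setoid J := ⟨fun i j => Nonempty (S i ≃* S j),
    ⟨fun i => ⟨MulEquiv.refl _⟩, fun ⟨e⟩ => ⟨e.symm⟩, fun ⟨e⟩ ⟨e'⟩ => ⟨e.trans e'⟩⟩⟩
  obtain ⟨I₁, rep, k, e, hk, he, hdis, hb⟩ := blocks2 J r (fun j => Nat.card (S j))
  have hT : ∀ i : I₁ ⊕ R, ∃ (T : Type) (_ : Group T) (_ : Finite T), Good T ∧
      (∃ f : Fin n → T, Subgroup.closure (Set.range f) = ⊤) ∧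
      (∀ i₁, i = Sum.inl i₁ → Nonempty (commutator T ≃* (Fin (k i₁) → S (rep i₁)))) ∧
      (∀ q : R, i = Sum.inr q → (∀ a ∈ commutator T, a ^ (q : ℕ) = 1) ∧
        ∀ a ∈ commutator T, ∀ b ∈ commutator T, a * b = b * a) := by
    rintro (i | q)
    · have h2 : ∃ (d : ℕ) (s : Fin d → S (rep i)), Subgroup.closure (Set.range s) = ⊤ ∧
          (d ≤ n ∨ d ≤ (n - 1) * k i) := by
        rcases hb i with h3 | ⟨h3, h4⟩
        · refine ⟨Nat.card (S (rep i)), (Finite.equivFin (S (rep i))).symm, ?_, Or.inr ?_⟩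
          · rw [Equiv.range_eq_univ, Subgroup.closure_univ]
          · calc Nat.card (S (rep i)) ≤ k i := h3
              _ = 1 * k i := (one_mul _).symm
              _ ≤ (n - 1) * k i := Nat.mul_le_mul_right _ (by omega)
        · letI : TopologicalSpace (S (rep i)) := ⊥
          haveI : DiscreteTopology (S (rep i)) := ⟨rfl⟩
          haveI := hS (rep i)
          have hm := mult_side J S hS hna sN (rep i) (k i) h3 h4
          obtain ⟨f, hf1, hf2, hf3, hf4⟩ := sN
          obtain ⟨d, s, hs, hd⟩ :=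
            h (S (rep i)) (hna (rep i)) ⟨f (rep i), cont_of_ok _ (hf2 _), hf1 _⟩
          refine ⟨d, s, hs, ?_⟩
          rw [hm] at hd
          rcases hd with hd | hd
          · exact Or.inl hd
          · exact Or.inr (by exact_mod_cast hd)
      obtain ⟨d, s, hs, hd⟩ := h2
      obtain ⟨T, gT, fT, hT1, hT3, hT2⟩ :=
        block_group n hn (S (rep i)) (hS _) (hna _) (k i) (hk i) d s hs hd
      refine ⟨T, gT, fT, hT1, hT3, ?_, ?_⟩
      · intro i₁ h; cases h; exact hT2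
      · intro q h; cases h
    · obtain ⟨T, gT, fT, hT1, hT2, hT3⟩ := good_prime q (hR q q.2)
      refine ⟨T, gT, fT, ⟨⟨1⟩, hT1.2.1, hT1.2.2⟩, two_gen_n n hn hT1.1, ?_, ?_⟩
      · intro i₁ h; cases h
      · intro q' h; cases h; exact ⟨hT2, hT3⟩
  choose T gT fT hgood hgen hT1 hT2 using hT
  choose τ hτ hok using fun i => exists_surj_n ι hG (T i) (hgen i)
  obtain ⟨M, hM⟩ := zorn_min T τ hτ hok hgood
  haveI : CompactSpace M := isCompact_iff_compactSpace.mp hM.clo.isCompact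
  have cM : CB M := cb_sub (cb_fin ι hG) M
  have lM : NLift M := nlift_fin hn ι hG M hM.nor fun k => index_unbdd hn ι hG M hM.com k
  have eM : EP M := ep_of_nlift M hM.nor lM
  have sM : Spec M J S := spec_min T τ hτ hok hgood M hM J S hS hna rep k e hk
    (fun i c => he i c) (fun i j hij h => hdis i j hij h) (fun i => hT1 _ i rfl)
    (fun q => (hT2 _ q rfl).2)
  have bM : ∀ p ∈ R, Big p M := fun p hp => big_of_has M hM.nor lM p hp.1
    (has_min T τ hτ hok hgood M hM p hp.1 (Sum.inr ⟨p, hp⟩) (hT2 _ ⟨p, hp⟩ rfl).1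
      (hT2 _ ⟨p, hp⟩ rfl).2)
  have nM : ∀ p, p.Prime → p ∉ R → ¬ Has p M := by
    refine prime_side hR T τ hτ hok hgood M hM ?_ (fun q => (hT2 _ q rfl).1)
    intro i hcomm
    obtain ⟨Θ⟩ := hT1 _ i rfl
    obtain ⟨a, b, hab⟩ := hna (rep i)
    apply hab
    have h1 := hcomm _ (Θ.symm (fun _ => a)).2 _ (Θ.symm (fun _ => b)).2
    have h2 : Θ.symm (fun _ => a) * Θ.symm (fun _ => b) =
        Θ.symm (fun _ => b) * Θ.symm (fun _ => a) := Subtype.ext h1
    rw [← map_mul, ← map_mul] at h2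
    exact congrFun (Θ.symm.injective h2) ⟨0, hk i⟩
  exact ⟨M, hM.clo, hM.nor, iso_of_data cN cM eN eM J S hS hna sN sM R hR bN bM nN nM⟩

end Pool.Agent.Helper691.NS
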