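import Pool.Agent.Helper691.NS.Defs
import Pool.Agent.Helper691.NS.Fin_lift

set_option autoImplicit false
open Filter Topology

namespace Pool.Agent.Helper691.NS

theorem nlift_fin {n : ℕ} (hn : 1 < n) {G : Type} [Group G] [TopologicalSpace G] [IsTopologicalGroup G] [CompactSpace G]
    [T2Space G] [TotallyDisconnectedSpace G] (ι : Fin n → G) (hG : FreeFin n G ι)
    (N : Subgroup G) (hN : N.Normal)
    (hidx : ∀ k : ℕ, ∃ V : Subgroup G, V.Normal ∧ IsOpen (V : Set G) ∧ k ≤ (N ⊔ V).index) :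
    NLift N := by
  intro m V₀ hV₀ hV₀o
  obtain ⟨V₁, hV₁, hV₁o, hk⟩ := hidx (m * m)
  have hV : (V₁ ⊓ V₀).Normal := Subgroup.normal_inf_normal V₁ V₀
  have hVo : IsOpen ((V₁ ⊓ V₀ : Subgroup G) : Set G) := by
    rw [Subgroup.coe_inf]; exact hV₁o.inter hV₀o
  have hUo : IsOpen ((N ⊔ (V₁ ⊓ V₀) : Subgroup G) : Set G) :=
    Subgroup.isOpen_mono (le_sup_right : V₁ ⊓ V₀ ≤ N ⊔ (V₁ ⊓ V₀)) hVo
  have hfin : Finite (G ⧸ (N ⊔ (V₁ ⊓ V₀))) := Subgroup.quotient_finite_of_isOpen _ hUo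
  have hne : (N ⊔ (V₁ ⊓ V₀)).index ≠ 0 := Subgroup.index_ne_zero_of_finite
  have hle : (N ⊔ V₁).index ≤ (N ⊔ (V₁ ⊓ V₀)).index :=
    Nat.le_of_dvd (Nat.pos_of_ne_zero hne)
      (Subgroup.index_dvd_of_le (sup_le_sup_left inf_le_left N))
  exact ⟨V₁ ⊓ V₀, hV, hVo, inf_le_right,
    fin_lift hn ι hG (N ⊔ (V₁ ⊓ V₀)) (Subgroup.sup_normal N (V₁ ⊓ V₀)) hUo m (hk.trans hle)⟩

end Pool.Agent.Helper691.NS
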